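import Pool.Agent.R499.GB.Stm

/-! Project GB: piece AEW (almost everywhere Weyl sums). -/

set_option autoImplicit false

namespace Pool.Agent.R499.GB

open Filter Topology MeasureTheory

namespace Aew

lemma norm_e (x : ℝ) : ‖e x‖ = 1 := by
  unfold e
  rw [show 2 * Real.pi * Complex.I * (x : ℂ) = ((2 * Real.pi * x : ℝ) : ℂ) * Complex.I by
    push_cast; ring]
  exact Complex.norm_exp_ofReal_mul_I _

lemma e_cont : Continuous e := by
  unfold e
  fun_prop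

lemma e_conj (x : ℝ) : (starRingEnd ℂ) (e x) = e (-x) := by
  unfold e
  rw [← Complex.exp_conj]
  congr 1
  rw [map_mul, map_mul, map_mul, Complex.conj_I, Complex.conj_ofReal, Complex.conj_ofReal,
    map_ofNat]
  push_cast
  ring

lemma e_add (x y : ℝ) : e (x + y) = e x * e y := by
  unfold e
  rw [← Complex.exp_add]
  congr 1
  push_cast
  ring

/-- from second moments to almost everywhere convergence -/
lemma weyl_ae {X : Type*} [MeasurableSpace X] (μ : Measure X) (b : ℕ → X → ℂ)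
    (hb : ∀ m x, ‖b m x‖ ≤ 1) (hm : ∀ m, Measurable (b m)) (W : X → ℝ) (hW : ∀ x, 0 < W x)
    (hWm : Measurable W) (C : ℝ)
    (hC : ∀ n : ℕ, ∫⁻ x, ENNReal.ofReal (‖∑ m ∈ Finset.range n, b m x‖ ^ 2 * W x) ∂μ ≤
      ENNReal.ofReal (C * n)) :
    ∀ᵐ x ∂μ, Tendsto (fun n : ℕ => (∑ m ∈ Finset.range n, b m x) / (n : ℂ)) atTop (𝓝 0) := by
  set S : ℕ → X → ℂ := fun n x => ∑ m ∈ Finset.range n, b m x with hS
  have hSm : ∀ n, Measurable (S n) := fun n => Finset.measurable_sum _ fun m _ => hm m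
  set f : ℕ → X → ENNReal := fun j x => ENNReal.ofReal (‖S ((j + 1) ^ 2) x‖ ^ 2 * W x) *
    ENNReal.ofReal (1 / ((j : ℝ) + 1) ^ 4) with hf
  have hfm : ∀ j, Measurable (f j) := by
    intro j
    exact (ENNReal.measurable_ofReal.comp (((hSm _).norm.pow_const 2).mul hWm)).mul_const _
  have hint : ∀ j, ∫⁻ x, f j x ∂μ ≤ ENNReal.ofReal (C * (1 / ((j : ℝ) + 1) ^ 2)) := by
    intro j
    have hmm : Measurable (fun x => ENNReal.ofReal (‖S ((j + 1) ^ 2) x‖ ^ 2 * W x)) :=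
      ENNReal.measurable_ofReal.comp (((hSm _).norm.pow_const 2).mul hWm)
    simp only [hf]
    rw [lintegral_mul_const _ hmm]
    calc _ ≤ ENNReal.ofReal (C * ((j + 1) ^ 2 : ℕ)) * ENNReal.ofReal (1 / ((j : ℝ) + 1) ^ 4) := by
          gcongr
          exact hC _
      _ = _ := by
        rw [← ENNReal.ofReal_mul' (by positivity)]
        congr 1
        push_cast
        have : ((j : ℝ) + 1) ≠ 0 := by positivity
        field_simp
  have hsum : ∑' j, ∫⁻ x, f j x ∂μ ≠ ⊤ := by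
    have h1 : Summable (fun j : ℕ => C * (1 / ((j : ℝ) + 1) ^ 2)) := by
      apply Summable.mul_left
      have := (summable_nat_add_iff 1).2 (Real.summable_one_div_nat_pow.2 (by norm_num : 1 < 2))
      refine this.congr ?_
      intro j
      push_cast
      rfl
    exact ne_top_of_le_ne_top h1.tsum_ofReal_ne_top (ENNReal.tsum_le_tsum hint)
  rw [← lintegral_tsum (fun j => (hfm j).aemeasurable)] at hsum
  have hae := ae_lt_top (Measurable.ennreal_tsum hfm) hsum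
  filter_upwards [hae] with x hx
  have h1 : Tendsto (fun j => f j x) atTop (𝓝 0) :=
    ENNReal.tendsto_atTop_zero_of_tsum_ne_top hx.ne
  have h2 : Tendsto (fun j => (f j x).toReal) atTop (𝓝 0) := by
    have := (ENNReal.tendsto_toReal ENNReal.zero_ne_top).comp h1
    simpa [Function.comp_def] using this
  have h3 : ∀ j, (f j x).toReal = (‖S ((j + 1) ^ 2) x‖ / ((j : ℝ) + 1) ^ 2) ^ 2 * W x := by
    intro j
    simp only [hf]
    rw [ENNReal.toReal_mul, ENNReal.toReal_ofReal (by have := hW x; positivity),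
      ENNReal.toReal_ofReal (by positivity)]
    have : ((j : ℝ) + 1) ≠ 0 := by positivity
    field_simp
  simp_rw [h3] at h2
  have h4 : Tendsto (fun j : ℕ => ‖S ((j + 1) ^ 2) x‖ / ((j : ℝ) + 1) ^ 2) atTop (𝓝 0) := by
    have h5 := h2.div_const (W x)
    have h6 : ∀ j : ℕ, (‖S ((j + 1) ^ 2) x‖ / ((j : ℝ) + 1) ^ 2) ^ 2 * W x / W x =
        (‖S ((j + 1) ^ 2) x‖ / ((j : ℝ) + 1) ^ 2) ^ 2 := by
      intro j
      rw [mul_div_assoc, div_self (hW x).ne', mul_one]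
    simp_rw [h6, zero_div] at h5
    have h7 := h5.sqrt
    rw [Real.sqrt_zero] at h7
    refine h7.congr ?_
    intro j
    exact Real.sqrt_sq (by positivity)
  have h5 : Tendsto (fun j : ℕ => ‖S ((j + 1) ^ 2) x‖ / ((j : ℝ) + 1) ^ 2 +
      2 * (1 / ((j : ℝ) + 1))) atTop (𝓝 0) := by
    have := h4.add (tendsto_one_div_add_atTop_nhds_zero_nat (𝕜 := ℝ).const_mul 2)
    simpa using this
  have h6 : Tendsto (fun n : ℕ => Nat.sqrt n - 1) atTop atTop := by
    rw [tendsto_atTop_atTop]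
    intro b
    refine ⟨(b + 1) * (b + 1), fun n hn => ?_⟩
    have := Nat.le_sqrt.2 hn
    omega
  refine squeeze_zero_norm' ?_ (h5.comp h6)
  filter_upwards [eventually_ge_atTop 1] with n hn
  set j := Nat.sqrt n with hj
  have hj1 : 1 ≤ j := Nat.le_sqrt.2 (by omega)
  obtain ⟨k, hk⟩ : ∃ k, j = k + 1 := ⟨j - 1, by omega⟩
  have hlow : (k + 1) ^ 2 ≤ n := by
    rw [← hk, pow_two]
    exact Nat.sqrt_le n
  have hup : n ≤ (k + 1) ^ 2 + 2 * (k + 1) := by
    have := Nat.lt_succ_sqrt n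
    rw [← hj, hk] at this
    simp only [Nat.succ_eq_add_one] at this
    nlinarith
  have hdiff : ‖S n x‖ ≤ ‖S ((k + 1) ^ 2) x‖ + 2 * ((k : ℝ) + 1) := by
    obtain ⟨r, hr⟩ := Nat.exists_eq_add_of_le hlow
    have e1 : S n x = S ((k + 1) ^ 2) x + ∑ m ∈ Finset.range r, b ((k + 1) ^ 2 + m) x := by
      simp only [hS]
      rw [hr, Finset.sum_range_add]
    rw [e1]
    refine (norm_add_le _ _).trans ?_
    gcongr
    refine (norm_sum_le _ _).trans ?_
    calc ∑ m ∈ Finset.range r, ‖b ((k + 1) ^ 2 + m) x‖ ≤ ∑ _m ∈ Finset.range r, (1 : ℝ) := by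
          gcongr
          exact hb _ _
      _ = r := by simp
      _ ≤ 2 * ((k : ℝ) + 1) := by
        have : r ≤ 2 * (k + 1) := by omega
        exact_mod_cast this
  show ‖S n x / (n : ℂ)‖ ≤ ‖S ((j - 1 + 1) ^ 2) x‖ / (((j - 1 : ℕ) : ℝ) + 1) ^ 2 +
      2 * (1 / (((j - 1 : ℕ) : ℝ) + 1))
  rw [hk, Nat.add_sub_cancel, norm_div, Complex.norm_natCast]
  have hk0 : (0 : ℝ) < (k : ℝ) + 1 := by positivity
  have hn' : ((k : ℝ) + 1) ^ 2 ≤ n := by exact_mod_cast hlow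
  calc ‖S n x‖ / (n : ℝ) ≤ (‖S ((k + 1) ^ 2) x‖ + 2 * ((k : ℝ) + 1)) / ((k : ℝ) + 1) ^ 2 := by
        gcongr
    _ = _ := by
      field_simp

/-- the Gaussian Fourier transform on `ℂ` -/
lemma gauss (w : ℂ) : Integrable (fun x : ℂ => (Real.exp (-‖x‖ ^ 2) : ℂ) * e ((w * x).re)) ∧
    ∫ x : ℂ, (Real.exp (-‖x‖ ^ 2) : ℂ) * e ((w * x).re) =
      ((Real.pi * Real.exp (-(Real.pi ^ 2 * ‖w‖ ^ 2)) : ℝ) : ℂ) := by
  have hfun : (fun x : ℂ => (Real.exp (-‖x‖ ^ 2) : ℂ) * e ((w * x).re)) = fun x : ℂ =>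
      Complex.exp (-(1 : ℂ) * (‖x‖ : ℂ) ^ 2 + (2 * Real.pi * Complex.I) *
        ((inner ℝ ((starRingEnd ℂ) w) x : ℝ) : ℂ)) := by
    funext x
    rw [Complex.inner, Complex.conj_conj, mul_comm x w, Complex.exp_add]
    unfold e
    congr 1
    rw [Complex.ofReal_exp]
    congr 1
    push_cast
    ring
  rw [hfun]
  refine ⟨GaussianFourier.integrable_cexp_neg_mul_sq_norm_add (by simp) _ _, ?_⟩
  rw [GaussianFourier.integral_cexp_neg_mul_sq_norm_add (by simp)]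
  rw [Complex.finrank_real_complex]
  have h1 : ((Real.pi : ℂ) / 1) ^ (((2 : ℕ) : ℂ) / 2) = Real.pi := by
    rw [div_one]
    norm_num
  rw [h1]
  push_cast
  congr 2
  rw [Complex.norm_conj, mul_pow, mul_pow, Complex.I_sq]
  ring

lemma main_bound (α : ℂ) (hα : 1 < ‖α‖) (ζ : ℂ) (hζ : ζ ≠ 0) : ∃ C : ℝ, ∀ n : ℕ,
    ∑ m ∈ Finset.range n, ∑ m' ∈ Finset.range n,
      Real.pi * Real.exp (-(Real.pi ^ 2 * ‖ζ * (α ^ m - α ^ m')‖ ^ 2)) ≤ C * n := by
  set g : ℕ → ℕ → ℝ := fun m m' => Real.pi * Real.exp (-(Real.pi ^ 2 * ‖ζ * (α ^ m - α ^ m')‖ ^ 2))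
    with hg
  set κ : ℝ := Real.pi ^ 2 * (‖ζ‖ * (1 - ‖α‖⁻¹)) ^ 2 with hκ
  have hα' : 0 < 1 - ‖α‖⁻¹ := by
    have := inv_lt_one_of_one_lt₀ hα
    linarith
  have hζ' : 0 < ‖ζ‖ := norm_pos_iff.2 hζ
  have hκ0 : 0 < κ := by positivity
  have hρ : 0 < ‖α‖ ^ 2 - 1 := by nlinarith
  have hsym : ∀ m m', g m m' = g m' m := by
    intro m m'
    simp only [hg]
    rw [norm_mul, norm_mul, norm_sub_rev]
  have hoff : ∀ n m : ℕ, m < n → (n : ℝ) * g m n ≤ Real.pi * (1 / (κ * (‖α‖ ^ 2 - 1))) := by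
    intro n m hmn
    have h1 : ‖α‖ ^ n * (1 - ‖α‖⁻¹) ≤ ‖α ^ m - α ^ n‖ := by
      rw [norm_sub_rev]
      refine le_trans ?_ (norm_sub_norm_le _ _)
      rw [norm_pow, norm_pow]
      have h2 : ‖α‖ ^ m ≤ ‖α‖ ^ (n - 1) := pow_le_pow_right₀ hα.le (by omega)
      have h3 : ‖α‖ ^ n * ‖α‖⁻¹ = ‖α‖ ^ (n - 1) := by
        obtain ⟨k, rfl⟩ : ∃ k, n = k + 1 := ⟨n - 1, by omega⟩
        rw [pow_succ, Nat.add_sub_cancel]
        have : ‖α‖ ≠ 0 := by linarith
        field_simp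
      rw [mul_sub, mul_one, h3]
      linarith
    have h4 : κ * (‖α‖ ^ 2) ^ n ≤ Real.pi ^ 2 * ‖ζ * (α ^ m - α ^ n)‖ ^ 2 := by
      rw [norm_mul, hκ]
      have h5 : (‖ζ‖ * (‖α‖ ^ n * (1 - ‖α‖⁻¹))) ^ 2 ≤ (‖ζ‖ * ‖α ^ m - α ^ n‖) ^ 2 := by
        gcongr
      calc Real.pi ^ 2 * (‖ζ‖ * (1 - ‖α‖⁻¹)) ^ 2 * (‖α‖ ^ 2) ^ n =
          Real.pi ^ 2 * (‖ζ‖ * (‖α‖ ^ n * (1 - ‖α‖⁻¹))) ^ 2 := by ring
        _ ≤ _ := by gcongr
    have h6 : (n : ℝ) * (‖α‖ ^ 2 - 1) ≤ (‖α‖ ^ 2) ^ n := by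
      have := one_add_mul_le_pow (a := ‖α‖ ^ 2 - 1) (by linarith) n
      rw [add_sub_cancel] at this
      linarith
    have h7 : κ * ((n : ℝ) * (‖α‖ ^ 2 - 1)) ≤ Real.pi ^ 2 * ‖ζ * (α ^ m - α ^ n)‖ ^ 2 :=
      (mul_le_mul_of_nonneg_left h6 hκ0.le).trans h4
    set t := κ * ((n : ℝ) * (‖α‖ ^ 2 - 1)) with ht
    have hn : (0 : ℝ) < n := by exact_mod_cast (by omega : 0 < n)
    have ht0 : 0 < t := by positivity
    have h8 : Real.exp (-(Real.pi ^ 2 * ‖ζ * (α ^ m - α ^ n)‖ ^ 2)) ≤ 1 / t := by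
      calc _ ≤ Real.exp (-t) := Real.exp_le_exp.2 (by linarith)
        _ = 1 / Real.exp t := by rw [Real.exp_neg, one_div]
        _ ≤ 1 / t := one_div_le_one_div_of_le ht0 (by linarith [Real.add_one_le_exp t])
    simp only [hg]
    calc (n : ℝ) * (Real.pi * Real.exp (-(Real.pi ^ 2 * ‖ζ * (α ^ m - α ^ n)‖ ^ 2))) ≤
        (n : ℝ) * (Real.pi * (1 / t)) := by gcongr
      _ = _ := by
        rw [ht]
        field_simp
  set K : ℝ := Real.pi * (1 / (κ * (‖α‖ ^ 2 - 1))) with hK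
  refine ⟨Real.pi + 2 * K, ?_⟩
  intro n
  show ∑ m ∈ Finset.range n, ∑ m' ∈ Finset.range n, g m m' ≤ (Real.pi + 2 * K) * n
  induction n with
  | zero => simp
  | succ n ih =>
    rw [Finset.sum_range_succ]
    simp_rw [Finset.sum_range_succ _ n]
    rw [Finset.sum_add_distrib]
    have h1 : ∑ m ∈ Finset.range n, g m n ≤ K := by
      rcases Nat.eq_zero_or_pos n with h0 | h0
      · subst h0
        rw [Finset.range_zero, Finset.sum_empty, hK]
        positivity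
      · have h2 : ∀ m ∈ Finset.range n, g m n ≤ K / n := by
          intro m hm
          rw [le_div_iff₀ (by exact_mod_cast h0), mul_comm]
          exact hoff n m (Finset.mem_range.1 hm)
        refine (Finset.sum_le_sum h2).trans ?_
        rw [Finset.sum_const, Finset.card_range, nsmul_eq_mul]
        have : (n : ℝ) ≠ 0 := by positivity
        rw [mul_div_cancel₀ _ this]
    have h2 : ∑ m ∈ Finset.range n, g n m ≤ K := by
      rw [Finset.sum_congr rfl (fun m _ => hsym n m)]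
      exact h1
    have h3 : g n n = Real.pi := by
      simp [hg]
    rw [h3]
    push_cast
    nlinarith

end Aew

open Aew

theorem t_AEW : AEW := by
  intro α hα ζ hζ
  obtain ⟨C, hC⟩ := main_bound α hα ζ hζ
  have hcont : ∀ m : ℕ, Continuous (fun x : ℂ => e ((ζ * α ^ m * x).re)) := by
    intro m
    exact e_cont.comp (Complex.continuous_re.comp (continuous_const.mul continuous_id))
  have hWc : Continuous (fun x : ℂ => Real.exp (-‖x‖ ^ 2)) := by fun_prop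
  apply weyl_ae volume (fun m x => e ((ζ * α ^ m * x).re)) (fun m x => (norm_e _).le)
    (fun m => (hcont m).measurable) (fun x => Real.exp (-‖x‖ ^ 2)) (fun x => Real.exp_pos _)
    hWc.measurable C
  intro n
  set S : ℂ → ℂ := fun x => ∑ m ∈ Finset.range n, e ((ζ * α ^ m * x).re) with hS
  have hSc : Continuous S := continuous_finsetSum _ fun m _ => hcont m
  have hexp : ∀ x : ℂ, ((‖S x‖ ^ 2 * Real.exp (-‖x‖ ^ 2) : ℝ) : ℂ) =
      ∑ m ∈ Finset.range n, ∑ m' ∈ Finset.range n,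
        (Real.exp (-‖x‖ ^ 2) : ℂ) * e ((ζ * (α ^ m - α ^ m') * x).re) := by
    intro x
    have h1 : ((‖S x‖ ^ 2 : ℝ) : ℂ) = ∑ m ∈ Finset.range n, ∑ m' ∈ Finset.range n,
        e ((ζ * (α ^ m - α ^ m') * x).re) := by
      rw [← Complex.normSq_eq_norm_sq, ← Complex.mul_conj]
      simp only [hS]
      rw [map_sum, Finset.sum_mul_sum]
      apply Finset.sum_congr rfl
      intro m _
      apply Finset.sum_congr rfl
      intro m' _
      rw [e_conj, ← e_add]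
      congr 1
      rw [← sub_eq_add_neg, ← Complex.sub_re]
      congr 1
      ring
    rw [Complex.ofReal_mul, h1, Finset.sum_mul]
    apply Finset.sum_congr rfl
    intro m _
    rw [Finset.sum_mul]
    apply Finset.sum_congr rfl
    intro m' _
    ring
  have hI : Integrable (fun x : ℂ => Real.exp (-‖x‖ ^ 2)) := by
    have := (gauss 0).1.norm
    refine this.congr (Eventually.of_forall ?_)
    intro x
    show ‖(Real.exp (-‖x‖ ^ 2) : ℂ) * e ((0 * x).re)‖ = _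
    rw [norm_mul, norm_e, mul_one, Complex.norm_real, Real.norm_of_nonneg (Real.exp_pos _).le]
  have hint : Integrable (fun x : ℂ => ‖S x‖ ^ 2 * Real.exp (-‖x‖ ^ 2)) := by
    refine hI.bdd_mul (c := (n : ℝ) ^ 2) ((hSc.norm.pow 2).aestronglyMeasurable) ?_
    refine Eventually.of_forall fun x => ?_
    rw [Real.norm_of_nonneg (by positivity)]
    gcongr
    refine (norm_sum_le _ _).trans ?_
    simp [norm_e]
  have hval : ∫ x : ℂ, ‖S x‖ ^ 2 * Real.exp (-‖x‖ ^ 2) =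
      ∑ m ∈ Finset.range n, ∑ m' ∈ Finset.range n,
      Real.pi * Real.exp (-(Real.pi ^ 2 * ‖ζ * (α ^ m - α ^ m')‖ ^ 2)) := by
    have h1 : ((∫ x : ℂ, ‖S x‖ ^ 2 * Real.exp (-‖x‖ ^ 2) : ℝ) : ℂ) =
        ∫ x : ℂ, ((‖S x‖ ^ 2 * Real.exp (-‖x‖ ^ 2) : ℝ) : ℂ) := integral_complex_ofReal.symm
    have h2 : ∫ x : ℂ, ((‖S x‖ ^ 2 * Real.exp (-‖x‖ ^ 2) : ℝ) : ℂ) =
        ∑ m ∈ Finset.range n, ∑ m' ∈ Finset.range n,
        ((Real.pi * Real.exp (-(Real.pi ^ 2 * ‖ζ * (α ^ m - α ^ m')‖ ^ 2)) : ℝ) : ℂ) := by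
      simp_rw [hexp]
      rw [integral_finsetSum _ (fun m _ => integrable_finsetSum _ fun m' _ => (gauss _).1)]
      apply Finset.sum_congr rfl
      intro m _
      rw [integral_finsetSum _ (fun m' _ => (gauss _).1)]
      apply Finset.sum_congr rfl
      intro m' _
      exact (gauss _).2
    rw [h2] at h1
    have h3 : ((∫ x : ℂ, ‖S x‖ ^ 2 * Real.exp (-‖x‖ ^ 2) : ℝ) : ℂ) =
        ((∑ m ∈ Finset.range n, ∑ m' ∈ Finset.range n,
        Real.pi * Real.exp (-(Real.pi ^ 2 * ‖ζ * (α ^ m - α ^ m')‖ ^ 2)) : ℝ) : ℂ) := by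
      rw [h1]
      push_cast
      rfl
    exact_mod_cast h3
  rw [← ofReal_integral_eq_lintegral_ofReal hint (Eventually.of_forall fun x => by positivity)]
  apply ENNReal.ofReal_le_ofReal
  rw [hval]
  exact hC n

end Pool.Agent.R499.GB
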