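import Pool.Agent.R499.GB.Fin

/-! Project GB: piece AVG (vanishing averages over all strings). -/

set_option autoImplicit false

namespace Pool.Agent.R499.GB

namespace H874

lemma e_add (x y : ℝ) : e (x + y) = e x * e y := by
  unfold e
  rw [← Complex.exp_add]
  congr 1
  push_cast
  ring

lemma e_int (m : ℤ) : e m = 1 := by
  unfold e
  rw [Complex.exp_eq_one_iff]
  exact ⟨m, by push_cast; ring⟩

lemma e_nsmul (x : ℝ) (n : ℕ) : e (n * x) = e x ^ n := by
  unfold e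
  rw [← Complex.exp_nat_mul]
  congr 1
  push_cast
  ring

lemma e_eq_one {x : ℝ} (h : e x = 1) : ∃ m : ℤ, x = m := by
  unfold e at h
  rw [Complex.exp_eq_one_iff] at h
  obtain ⟨n, hn⟩ := h
  refine ⟨n, ?_⟩
  have h2 : (2 * Real.pi * Complex.I : ℂ) ≠ 0 := Complex.two_pi_I_ne_zero
  have h3 : (2 * Real.pi * Complex.I : ℂ) * x = (2 * Real.pi * Complex.I : ℂ) * n := by
    rw [hn]; ring
  have h4 := mul_left_cancel₀ h2 h3
  exact_mod_cast h4

/-- the sum over one full set of digits -/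
lemma sum_digits {a : ℤ} (ha : 0 < a) (n : ℤ) :
    ∑ l : Fin a.toNat, e (-(n * ((l : ℕ) : ℝ)) / a) = if a ∣ n then (a : ℂ) else 0 := by
  have hcast : ((a.toNat : ℕ) : ℝ) = (a : ℝ) := by
    have : ((a.toNat : ℕ) : ℤ) = a := Int.toNat_of_nonneg ha.le
    exact_mod_cast congrArg (fun z : ℤ => (z : ℝ)) this
  have hcastc : ((a.toNat : ℕ) : ℂ) = (a : ℂ) := by
    have : ((a.toNat : ℕ) : ℤ) = a := Int.toNat_of_nonneg ha.le
    exact_mod_cast congrArg (fun z : ℤ => (z : ℂ)) this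
  have ha0 : (a : ℝ) ≠ 0 := by exact_mod_cast ha.ne'
  have h1 : ∀ l : Fin a.toNat, e (-(n * ((l : ℕ) : ℝ)) / a) = e (-n / a) ^ (l : ℕ) := by
    intro l
    rw [← e_nsmul]
    congr 1
    ring
  simp only [h1]
  rw [Fin.sum_univ_eq_sum_range (fun l => e (-n / a) ^ l)]
  split_ifs with hd
  · obtain ⟨m, rfl⟩ := hd
    have h2 : e (-((a * m : ℤ) : ℝ) / a) = 1 := by
      have : (-((a * m : ℤ) : ℝ) / a) = ((-m : ℤ) : ℝ) := by
        push_cast
        field_simp
      rw [this, e_int]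
    rw [h2]
    simp [hcastc]
  · have h2 : e (-n / a) ≠ 1 := by
      intro h3
      obtain ⟨m, hm⟩ := e_eq_one h3
      apply hd
      refine ⟨-m, ?_⟩
      rw [div_eq_iff ha0] at hm
      have : (n : ℝ) = ((a * -m : ℤ) : ℝ) := by
        push_cast
        linarith
      exact_mod_cast this
    rw [geom_sum_eq h2, ← e_nsmul, hcast]
    have h3 : (a : ℝ) * (-n / a) = ((-n : ℤ) : ℝ) := by
      push_cast
      field_simp
    rw [h3, e_int, sub_self, zero_div]

lemma pr_nd (a0 a1 a2 : ℤ) (ha : (a0 : ℝ) ≠ 0) (δ : ℤ × ℤ) (l : ℤ) (η : ℝ × ℝ) :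
    pr δ (nd a0 a1 a2 l η) = (δ.2 * η.1 - ((a2 * δ.1 + a1 * δ.2 : ℤ) : ℝ) * η.2 / a0) +
      -(((a2 * δ.1 + a1 * δ.2 : ℤ) : ℝ) * l) / a0 := by
  unfold pr nd
  push_cast
  field_simp
  ring

lemma sum_node {a0 a1 a2 : ℤ} (h : Par a0 a1 a2) : ∀ (n : ℕ) (δ : ℤ × ℤ), δ ≠ 0 →
    QE a0 a1 a2 δ < n → ∀ ξ : ℝ × ℝ,
    ∑ l : Fin n → Fin a0.toNat,
      e (pr δ (node a0 a1 a2 ξ (List.ofFn fun i => ((l i : ℕ) : ℤ)))) = 0 := by
  have ha : 0 < a0 := h.pos.trans h.lt
  have ha0 : (a0 : ℝ) ≠ 0 := by exact_mod_cast ha.ne'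
  intro n
  induction n with
  | zero =>
    intro δ _ hE
    have := QE_nonneg h δ
    simp at hE
    omega
  | succ n ih =>
    intro δ hδ hE ξ
    rw [← (Fin.consEquiv (fun _ : Fin (n + 1) => Fin a0.toNat)).sum_comp, Fintype.sum_prod_type,
      Finset.sum_comm]
    set m : ℤ := (a2 * δ.1 + a1 * δ.2) with hm
    have hlist : ∀ (s : Fin n → Fin a0.toNat) (l : Fin a0.toNat),
        (List.ofFn fun i => (((Fin.consEquiv (fun _ : Fin (n + 1) => Fin a0.toNat)) (l, s) i : ℕ)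
          : ℤ)) = ((l : ℕ) : ℤ) :: List.ofFn fun i => ((s i : ℕ) : ℤ) := by
      intro s l
      rw [List.ofFn_succ]
      rfl
    have hterm : ∀ (s : Fin n → Fin a0.toNat) (l : Fin a0.toNat),
        e (pr δ (node a0 a1 a2 ξ (List.ofFn fun i =>
          (((Fin.consEquiv (fun _ : Fin (n + 1) => Fin a0.toNat)) (l, s) i : ℕ) : ℤ)))) =
        e (δ.2 * (node a0 a1 a2 ξ (List.ofFn fun i => ((s i : ℕ) : ℤ))).1 -
          (m : ℝ) * (node a0 a1 a2 ξ (List.ofFn fun i => ((s i : ℕ) : ℤ))).2 / a0) *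
        e (-(m * ((l : ℕ) : ℝ)) / a0) := by
      intro s l
      rw [hlist]
      show e (pr δ (nd a0 a1 a2 ((l : ℕ) : ℤ) (node a0 a1 a2 ξ _))) = _
      rw [pr_nd a0 a1 a2 ha0, e_add]
      simp only [← hm, Int.cast_natCast]
    simp only [hterm, ← Finset.mul_sum]
    rw [sum_digits ha m]
    split_ifs with hd
    · obtain ⟨t, ht⟩ := hd
      have hst : st a0 a1 a2 0 δ = (δ.2, -t) := by
        unfold st
        rw [← hm, ht, zero_add, Int.mul_ediv_cancel_left _ ha.ne']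
      have hQ := QE_st (a0 := a0) (a1 := a1) (a2 := a2) δ 0
      rw [hst, ← hm, ht, zero_add, Int.mul_emod_right] at hQ
      simp only [sub_zero, zero_mul, ne_eq, OfNat.ofNat_ne_zero, not_false_eq_true, zero_pow,
        add_zero] at hQ
      have hpos : 0 < QE a0 a1 a2 δ := by
        rcases (QE_nonneg h δ).lt_or_eq with h1 | h1
        · exact h1
        · exfalso
          apply hδ
          have b1 := QE_bound1 h δ
          have b2 := QE_bound2 h δ
          rw [← h1, mul_zero] at b1 b2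
          exact Prod.ext (pow_eq_zero_iff two_ne_zero |>.1 (le_antisymm b1 (sq_nonneg _)))
            (pow_eq_zero_iff two_ne_zero |>.1 (le_antisymm b2 (sq_nonneg _)))
      have hlt : QE a0 a1 a2 (δ.2, -t) < QE a0 a1 a2 δ := by
        have := h.lt
        nlinarith
      have hne : (δ.2, -t) ≠ (0 : ℤ × ℤ) := by
        intro h0
        rw [h0] at hQ
        have : QE a0 a1 a2 0 = 0 := by simp [QE]
        rw [this, mul_zero] at hQ
        have := h.pos
        nlinarith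
      have hI := ih (δ.2, -t) hne (by push_cast at hE; linarith) ξ
      rw [← Finset.sum_mul]
      have hA : ∀ η : ℝ × ℝ, (δ.2 : ℝ) * η.1 - (m : ℝ) * η.2 / a0 = pr (δ.2, -t) η := by
        intro η
        unfold pr
        rw [ht]
        push_cast
        field_simp
        ring
      simp only [hA]
      rw [hI, zero_mul]
    · simp

end H874

open H874

theorem t_AVG : AVG := by
  intro a0 a1 a2 h S h0
  refine ⟨S.sup (fun δ => (QE a0 a1 a2 δ).toNat) + 1, ?_⟩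
  intro c ξ
  set K := S.sup (fun δ => (QE a0 a1 a2 δ).toNat) + 1 with hK
  have h1 : ∀ δ ∈ S, ∑ l : Fin K → Fin a0.toNat,
      e (pr δ (node a0 a1 a2 ξ (List.ofFn fun i => ((l i : ℕ) : ℤ)))) = 0 := by
    intro δ hδ
    refine sum_node h K δ (fun h2 => h0 (h2 ▸ hδ)) ?_ ξ
    have h3 : (QE a0 a1 a2 δ).toNat ≤ S.sup (fun δ => (QE a0 a1 a2 δ).toNat) :=
      Finset.le_sup (f := fun δ => (QE a0 a1 a2 δ).toNat) hδ
    have h4 := QE_nonneg h δ
    omega
  unfold tp
  rw [← Complex.re_sum, Finset.sum_comm]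
  have h2 : ∑ δ ∈ S, ∑ l : Fin K → Fin a0.toNat,
      c δ * e (pr δ (node a0 a1 a2 ξ (List.ofFn fun i => ((l i : ℕ) : ℤ)))) = 0 := by
    apply Finset.sum_eq_zero
    intro δ hδ
    rw [← Finset.mul_sum, h1 δ hδ, mul_zero]
  rw [h2, Complex.zero_re]

end Pool.Agent.R499.GB
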