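import Pool.Agent.R499.GB.Defs

/-! Project GB: exact statements of the pieces (as propositions). -/

set_option autoImplicit false

namespace Pool.Agent.R499.GB

open Filter Topology

/-- SURJ -/
def SURJ : Prop := ∀ a0 a1 a2 : ℤ, Par a0 a1 a2 → ∀ (k : ℕ) (d : ℕ → ℤ),
  ∃ x : ℕ → ℤ, ∀ i < k, a2 * x i + a1 * x (i + 1) + a0 * x (i + 2) = d i

/-- PER -/
def PER : Prop := ∀ a0 a1 a2 : ℤ, Par a0 a1 a2 → ∀ (k i : ℕ), i < k → ∀ N M : ℤ × ℤ,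
  dg a0 a1 a2 ((T a0 a1 a2)^[i] (N + a0 ^ k • M)) = dg a0 a1 a2 ((T a0 a1 a2)^[i] N)

/-- COUNT -/
def COUNT : Prop := ∀ a0 a1 a2 : ℤ, Par a0 a1 a2 → ∀ (k : ℕ) (w : ℕ → ℤ),
  (∀ i, 0 ≤ w i ∧ w i < a0) →
    ((box a0 k).filter (fun N => ∀ i < k, dg a0 a1 a2 ((T a0 a1 a2)^[i] N) = w i)).card =
      a0.toNat ^ k

/-- FIN: every difference lies in a finite set closed under the steps -/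
def FIN : Prop := ∀ a0 a1 a2 : ℤ, Par a0 a1 a2 → ∀ δ : ℤ × ℤ, ∃ F : Finset (ℤ × ℤ), δ ∈ F ∧
  ∀ δ' ∈ F, ∀ d : ℤ, 0 ≤ d → d < a0 → st a0 a1 a2 d δ' ∈ F

/-- REACH -/
def REACH : Prop := ∀ a0 a1 a2 : ℤ, Par a0 a1 a2 → ∀ δ : ℤ × ℤ,
  ∃ (n : ℕ) (d : ℕ → ℤ), (∀ i, 0 ≤ d i ∧ d i < a0) ∧ ch a0 a1 a2 d δ n = 0

/-- MERGE -/
def MERGE : Prop := ∀ a0 a1 a2 : ℤ, Par a0 a1 a2 → ∀ (E : Finset (ℤ × ℤ)) (ε : ℝ), 0 < ε →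
  ∃ j : ℕ, (((box a0 j).filter (fun N => ∃ δ ∈ E,
    (T a0 a1 a2)^[j] (N + δ) ≠ (T a0 a1 a2)^[j] N)).card : ℝ) ≤ ε * (a0 : ℝ) ^ (2 * j)

/-- KER: the kernel identity -/
def KER : Prop := ∀ a0 a1 a2 : ℤ, 0 < a0 → ∀ (δ : ℤ × ℤ) (ξ : ℝ × ℝ),
  (1 / (a0 : ℂ)) * ∑ d ∈ Finset.range a0.toNat, e (pr (st a0 a1 a2 d δ) ξ) =
    ∑ l ∈ Finset.range a0.toNat, (wt a0 (ξ.2 + l) : ℂ) * e (pr δ (nd a0 a1 a2 l ξ))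

/-- OPER -/
def OPER : Prop := ∀ a0 a1 a2 : ℤ, Par a0 a1 a2 → ∀ S : Finset (ℤ × ℤ), Closed0 a0 a1 a2 S →
  ∃ c : ℤ × ℤ → ℂ, (∃ ξ, tp S c ξ ≠ 0) ∧ Inv a0 a1 a2 (tp S c)

/-- AVG -/
def AVG : Prop := ∀ a0 a1 a2 : ℤ, Par a0 a1 a2 → ∀ (S : Finset (ℤ × ℤ)), (0 : ℤ × ℤ) ∉ S →
  ∃ K : ℕ, ∀ (c : ℤ × ℤ → ℂ) (ξ : ℝ × ℝ),
    ∑ l : Fin K → Fin a0.toNat,
      tp S c (node a0 a1 a2 ξ (List.ofFn fun i => ((l i : ℕ) : ℤ))) = 0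

/-- DIST: nodes of different strings differ modulo `ℤ²` -/
def DIST : Prop := ∀ a0 a1 a2 : ℤ, Par a0 a1 a2 → ∀ (s s' : List ℤ) (ξ : ℝ × ℝ) (m : ℤ × ℤ),
  s.length = s'.length → (∀ l ∈ s, 0 ≤ l ∧ l < a0) → (∀ l ∈ s', 0 ≤ l ∧ l < a0) →
    node a0 a1 a2 ξ s - node a0 a1 a2 ξ s' = ((m.1 : ℝ), (m.2 : ℝ)) → s = s'

/-- AXIS: a trigonometric polynomial which takes a value infinitely often on `[0,1) × {0}` is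
constant on the axis -/
def AXIS : Prop := ∀ (S : Finset (ℤ × ℤ)) (c : ℤ × ℤ → ℂ) (v : ℝ),
  {x : ℝ | 0 ≤ x ∧ x < 1 ∧ tp S c (x, 0) = v}.Infinite → ∀ x : ℝ, tp S c (x, 0) = v

/-- TCNT: an abstract counting lemma in the `a`-ary tree (`l :: s` is a child of `s`) -/
def TCNT : Prop := ∀ (a K R : ℕ), 2 ≤ a → ∀ (V H : List (Fin a) → Prop), V [] →
  (∀ s, V s → ¬ H s → ∀ l, V (l :: s)) →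
  (∀ s, V s → H s → ∃ l, V (l :: s) ∧ ¬ H (l :: s)) →
  (∀ (n : ℕ) (F : Finset (List (Fin a))), (∀ s ∈ F, s.length = n ∧ V s ∧ H s) → F.card ≤ R) →
  ∃ s, V s ∧ ∀ t : List (Fin a), t.length ≤ K → V (t ++ s)

/-- TREE: the contradiction -/
def TREE : Prop := ∀ a0 a1 a2 : ℤ, Par a0 a1 a2 → ∀ (S : Finset (ℤ × ℤ)) (c : ℤ × ℤ → ℂ),
  (0 : ℤ × ℤ) ∉ S → (∃ ξ, tp S c ξ ≠ 0) → Inv a0 a1 a2 (tp S c) → False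

/-- AEW: almost everywhere Weyl sums -/
def AEW : Prop := ∀ (α : ℂ), 1 < ‖α‖ → ∀ ζ : ℂ, ζ ≠ 0 → ∀ᵐ x : ℂ,
  Tendsto (fun n : ℕ => (∑ m ∈ Finset.range n, e ((ζ * α ^ m * x).re)) / (n : ℂ)) atTop (𝓝 0)

/-- FLO: from Weyl sums to residue classes of the integer parts -/
def FLO : Prop := ∀ (u v : ℕ → ℝ),
  (∀ (Q : ℕ), 0 < Q → ∀ h k : ℤ, (h, k) ≠ (0, 0) →
    Tendsto (fun n : ℕ => (∑ m ∈ Finset.range n, e ((h * u m + k * v m) / Q)) / (n : ℂ))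
      atTop (𝓝 0)) →
  ∀ (Q : ℕ), 0 < Q → ∀ r s : ℤ,
    Tendsto (fun n : ℕ => (((Finset.range n).filter
      (fun m => (Q : ℤ) ∣ ⌊u m⌋ - r ∧ (Q : ℤ) ∣ ⌊v m⌋ - s)).card : ℝ) / n) atTop
      (𝓝 (1 / (Q : ℝ) ^ 2))

end Pool.Agent.R499.GB
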