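import Mathlib
import Pool.Agent.R499.GB.Stm

/-! Project GB, piece KER: the kernel identity (and basic facts on `e`). -/

set_option autoImplicit false

namespace Pool.Agent.R499.GB

open Filter Topology

namespace K394

theorem e_add (x y : ℝ) : e (x + y) = e x * e y := by
  unfold e
  rw [← Complex.exp_add]
  congr 1
  push_cast
  ring

theorem e_zero : e 0 = 1 := by simp [e]

theorem e_neg_mul (x : ℝ) : e (-x) * e x = 1 := by rw [← e_add, neg_add_cancel, e_zero]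

theorem e_ne_zero (x : ℝ) : e x ≠ 0 := Complex.exp_ne_zero _

theorem e_eq_one_iff (x : ℝ) : e x = 1 ↔ ∃ n : ℤ, x = n := by
  unfold e
  rw [Complex.exp_eq_one_iff]
  have hne : (2 * (Real.pi : ℂ) * Complex.I) ≠ 0 := by
    simp [Real.pi_ne_zero]
  constructor
  · rintro ⟨n, hn⟩
    refine ⟨n, ?_⟩
    have h1 : (2 * (Real.pi : ℂ) * Complex.I) * x = (2 * (Real.pi : ℂ) * Complex.I) * n := by
      rw [hn]
      ring
    have h2 := mul_left_cancel₀ hne h1
    exact_mod_cast h2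
  · rintro ⟨n, rfl⟩
    exact ⟨n, by push_cast; ring⟩

theorem e_int (n : ℤ) : e n = 1 := (e_eq_one_iff _).2 ⟨n, rfl⟩

theorem e_add_int (x : ℝ) (n : ℤ) : e (x + n) = e x := by rw [e_add, e_int, mul_one]

theorem e_nat_mul (n : ℕ) (x : ℝ) : e (n * x) = e x ^ n := by
  unfold e
  rw [← Complex.exp_nat_mul]
  congr 1
  push_cast
  ring

theorem conj_e (x : ℝ) : (starRingEnd ℂ) (e x) = e (-x) := by
  unfold e
  rw [← Complex.exp_conj]
  congr 1
  simp only [map_mul, Complex.conj_ofReal, Complex.conj_I, Complex.ofReal_neg, mul_neg, neg_mul,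
    neg_inj]
  rw [map_ofNat (starRingEnd ℂ) 2]

theorem norm_e (x : ℝ) : ‖e x‖ = 1 := by
  have h : e x = Complex.exp ((2 * Real.pi * x : ℝ) * Complex.I) := by
    unfold e
    congr 1
    push_cast
    ring
  rw [h, Complex.norm_exp_ofReal_mul_I]

/-- the geometric sum -/
theorem sum_e (a : ℕ) (ha : 0 < a) (k : ℤ) :
    ∑ l ∈ Finset.range a, e (k * l / a) = if (a : ℤ) ∣ k then (a : ℂ) else 0 := by
  have ha' : (a : ℝ) ≠ 0 := by positivity
  split_ifs with h
  · obtain ⟨m, rfl⟩ := h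
    have h1 : ∀ l ∈ Finset.range a, e (((a : ℤ) * m : ℤ) * l / a) = 1 := by
      intro l _
      rw [e_eq_one_iff]
      refine ⟨m * l, ?_⟩
      push_cast
      field_simp
    rw [Finset.sum_congr rfl h1]
    simp
  · have h1 : ∀ l ∈ Finset.range a, e (k * l / a) = e (k / a) ^ l := by
      intro l _
      rw [← e_nat_mul]
      congr 1
      ring
    rw [Finset.sum_congr rfl h1]
    have hz : e (k / a) ≠ 1 := by
      rw [Ne, e_eq_one_iff]
      rintro ⟨n, hn⟩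
      apply h
      rw [div_eq_iff ha'] at hn
      refine ⟨n, ?_⟩
      have : (k : ℝ) = ((a : ℤ) * n : ℤ) := by
        rw [hn]
        push_cast
        ring
      exact_mod_cast this
    have hp : e (k / a) ^ a = 1 := by
      rw [← e_nat_mul, mul_div_cancel₀ _ ha', e_int]
    rw [geom_sum_eq hz, hp, sub_self, zero_div]

theorem pr_nd (a0 a1 a2 : ℤ) (l : ℤ) (δ : ℤ × ℤ) (ξ : ℝ × ℝ) :
    pr δ (nd a0 a1 a2 l ξ) = δ.2 * ξ.1 - ((a2 * δ.1 + a1 * δ.2 : ℤ) : ℝ) * (ξ.2 + l) / a0 := by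
  unfold pr nd
  push_cast
  ring

theorem pr_st (a0 a1 a2 : ℤ) (d : ℤ) (δ : ℤ × ℤ) (ξ : ℝ × ℝ) :
    pr (st a0 a1 a2 d δ) ξ = δ.2 * ξ.1 - (((d + (a2 * δ.1 + a1 * δ.2)) / a0 : ℤ) : ℝ) * ξ.2 := by
  unfold pr st
  simp only
  push_cast
  ring

theorem wt_eq (a0 : ℤ) (ha : 0 < a0) (y : ℝ) :
    (wt a0 y : ℂ) = (1 / (a0 : ℂ) ^ 2) * ∑ d ∈ Finset.range a0.toNat, ∑ d' ∈ Finset.range a0.toNat,
      e (((d : ℝ) - d') * y / a0) := by
  unfold wt
  have h1 : ((‖∑ d ∈ Finset.range a0.toNat, e (d * y / a0)‖ ^ 2 : ℝ) : ℂ) =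
      ∑ d ∈ Finset.range a0.toNat, ∑ d' ∈ Finset.range a0.toNat, e (((d : ℝ) - d') * y / a0) := by
    rw [← Complex.normSq_eq_norm_sq, ← Complex.mul_conj, map_sum, Finset.sum_mul_sum]
    refine Finset.sum_congr rfl fun d _ => Finset.sum_congr rfl fun d' _ => ?_
    rw [conj_e, ← e_add]
    congr 1
    ring
  rw [Complex.ofReal_div, h1]
  push_cast
  ring

end K394

open K394 in
theorem t_KER : KER := by
  intro a0 a1 a2 ha δ ξ
  obtain ⟨a, rfl⟩ : ∃ a : ℕ, (a : ℤ) = a0 := ⟨a0.toNat, Int.toNat_of_nonneg ha.le⟩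
  have ha' : 0 < a := by exact_mod_cast ha
  have haR : (a : ℝ) ≠ 0 := by positivity
  have haC : (a : ℂ) ≠ 0 := by exact_mod_cast ha'.ne'
  set E : ℤ := a2 * δ.1 + a1 * δ.2 with hE
  rw [Int.toNat_natCast]
  have hR : ∀ l ∈ Finset.range a, (wt (a : ℤ) (ξ.2 + l) : ℂ) * e (pr δ (nd a a1 a2 l ξ)) =
      (1 / (a : ℂ) ^ 2) * ∑ d ∈ Finset.range a, ∑ d' ∈ Finset.range a,
        e (δ.2 * ξ.1 + (((d : ℤ) - d' - E : ℤ) : ℝ) * ξ.2 / a) *
          e ((((d : ℤ) - d' - E : ℤ) : ℝ) * l / a) := by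
    intro l _
    rw [wt_eq _ ha, pr_nd, Int.toNat_natCast, mul_assoc, Finset.sum_mul]
    push_cast
    congr 1
    refine Finset.sum_congr rfl fun d _ => ?_
    rw [Finset.sum_mul]
    refine Finset.sum_congr rfl fun d' _ => ?_
    rw [← e_add, ← e_add]
    congr 1
    rw [hE]
    push_cast
    field_simp
    ring
  rw [Finset.sum_congr rfl hR, ← Finset.mul_sum]
  have h2 : ∑ l ∈ Finset.range a, ∑ d ∈ Finset.range a, ∑ d' ∈ Finset.range a,
      e (δ.2 * ξ.1 + (((d : ℤ) - d' - E : ℤ) : ℝ) * ξ.2 / a) *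
          e ((((d : ℤ) - d' - E : ℤ) : ℝ) * l / a) =
      ∑ d' ∈ Finset.range a, (a : ℂ) * e (pr (st a a1 a2 d' δ) ξ) := by
    have h3 : ∑ l ∈ Finset.range a, ∑ d ∈ Finset.range a, ∑ d' ∈ Finset.range a,
        e (δ.2 * ξ.1 + (((d : ℤ) - d' - E : ℤ) : ℝ) * ξ.2 / a) *
          e ((((d : ℤ) - d' - E : ℤ) : ℝ) * l / a) =
        ∑ d' ∈ Finset.range a, ∑ d ∈ Finset.range a,
          e (δ.2 * ξ.1 + (((d : ℤ) - d' - E : ℤ) : ℝ) * ξ.2 / a) *
            ∑ l ∈ Finset.range a, e ((((d : ℤ) - d' - E : ℤ) : ℝ) * l / a) := by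
      rw [Finset.sum_comm]
      have : ∀ d ∈ Finset.range a, ∑ l ∈ Finset.range a, ∑ d' ∈ Finset.range a,
          e (δ.2 * ξ.1 + (((d : ℤ) - d' - E : ℤ) : ℝ) * ξ.2 / a) *
            e ((((d : ℤ) - d' - E : ℤ) : ℝ) * l / a) =
          ∑ d' ∈ Finset.range a, e (δ.2 * ξ.1 + (((d : ℤ) - d' - E : ℤ) : ℝ) * ξ.2 / a) *
            ∑ l ∈ Finset.range a, e ((((d : ℤ) - d' - E : ℤ) : ℝ) * l / a) := by
        intro d _
        rw [Finset.sum_comm]
        exact Finset.sum_congr rfl fun d' _ => by rw [Finset.mul_sum]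
      rw [Finset.sum_congr rfl this, Finset.sum_comm]
    rw [h3]
    refine Finset.sum_congr rfl fun d' _ => ?_
    have hmod0 : 0 ≤ ((d' : ℤ) + E) % a := Int.emod_nonneg _ ha.ne'
    have hmod1 : ((d' : ℤ) + E) % a < a := Int.emod_lt_of_pos _ ha
    have hdm : ((d' : ℤ) + E) % a + a * (((d' : ℤ) + E) / a) = (d' : ℤ) + E := Int.emod_add_mul_ediv _ _
    rw [Finset.sum_eq_single (((d' : ℤ) + E) % a).toNat]
    · rw [sum_e a ha', Int.toNat_of_nonneg hmod0]
      have h4 : ((d' : ℤ) + E) % a - d' - E = -((a : ℤ) * (((d' : ℤ) + E) / a)) := by linarith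
      rw [h4, if_pos (dvd_neg.2 (dvd_mul_right _ _)), mul_comm, pr_st]
      congr 2
      push_cast
      field_simp
      ring
    · intro d hd hne
      rw [sum_e a ha', if_neg, mul_zero]
      intro hdvd
      apply hne
      have hd' : (d : ℤ) < a := by exact_mod_cast Finset.mem_range.1 hd
      have h5 : ((d : ℤ)) % a = ((d' : ℤ) + E) % a := by
        refine (Int.emod_emod_of_dvd _ (dvd_refl _)).symm.trans ?_
        have : (d : ℤ) % a = ((d' : ℤ) + E) % a := by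
          refine Int.ModEq.symm ?_
          rw [Int.modEq_iff_dvd]
          rwa [sub_add_eq_sub_sub]
        rw [Int.emod_emod_of_dvd _ (dvd_refl _), this]
      rw [Int.emod_eq_of_lt (by positivity) hd'] at h5
      rw [← h5]
      simp
    · intro hnot
      exfalso
      apply hnot
      rw [Finset.mem_range]
      have : ((((d' : ℤ) + E) % a).toNat : ℤ) < a := by rwa [Int.toNat_of_nonneg hmod0]
      exact_mod_cast this
  rw [h2, ← Finset.mul_sum, ← mul_assoc]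
  congr 1
  push_cast
  field_simp

end Pool.Agent.R499.GB
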