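import Mathlib
import Pool.Agent.R499.GB.Stm
import Pool.Agent.R499.GB.Ker

/-! Project GB, piece AXIS. -/

set_option autoImplicit false

namespace Pool.Agent.R499.GB

open Filter Topology Polynomial

namespace K394

theorem e_int_mul_pos (n : ℤ) (hn : 0 ≤ n) (x : ℝ) : e (n * x) = e x ^ n.toNat := by
  rw [← e_nat_mul]
  congr 2
  have : ((n.toNat : ℤ) : ℝ) = (n : ℝ) := by rw [Int.toNat_of_nonneg hn]
  exact_mod_cast this.symm

end K394

open K394 in
theorem t_AXIS : AXIS := by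
  intro S c v hinf
  obtain ⟨m, hm⟩ : ∃ m : ℕ, ∀ δ ∈ S, |δ.1| ≤ (m : ℤ) := by
    refine ⟨∑ δ ∈ S, (δ.1).natAbs, fun δ hδ => ?_⟩
    rw [Int.abs_eq_natAbs]
    exact_mod_cast Finset.single_le_sum (f := fun δ : ℤ × ℤ => (δ.1).natAbs) (fun _ _ => Nat.zero_le _) hδ
  set P : ℂ[X] := (∑ δ ∈ S, (C (c δ) * X ^ ((m : ℤ) + δ.1).toNat +
    C ((starRingEnd ℂ) (c δ)) * X ^ ((m : ℤ) - δ.1).toNat)) - C (2 * (v : ℂ)) * X ^ m with hP
  have heval : ∀ x : ℝ, P.eval (e x) = 2 * e (m * x) * ((tp S c (x, 0) - v : ℝ) : ℂ) := by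
    intro x
    have h1 : ∀ δ ∈ S, c δ * e x ^ ((m : ℤ) + δ.1).toNat +
        (starRingEnd ℂ) (c δ) * e x ^ ((m : ℤ) - δ.1).toNat =
        e (m * x) * (2 * ((c δ * e (pr δ (x, 0))).re : ℂ)) := by
      intro δ hδ
      have h2 := abs_le.1 (hm δ hδ)
      rw [← e_int_mul_pos _ (by linarith), ← e_int_mul_pos _ (by linarith)]
      have h3 : pr δ (x, 0) = δ.1 * x := by simp [pr]
      have h4 : (((m : ℤ) + δ.1 : ℤ) : ℝ) * x = m * x + δ.1 * x := by push_cast; ring
      have h5 : (((m : ℤ) - δ.1 : ℤ) : ℝ) * x = m * x + -(δ.1 * x) := by push_cast; ring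
      rw [h3, h4, h5, e_add, e_add, ← conj_e (δ.1 * x)]
      have h6 : (2 * ((c δ * e (δ.1 * x)).re : ℂ)) = c δ * e (δ.1 * x) +
          (starRingEnd ℂ) (c δ * e (δ.1 * x)) := by
        rw [Complex.add_conj]
        push_cast
        ring
      rw [h6, map_mul]
      ring
    rw [hP]
    simp only [eval_sub, eval_finsetSum, eval_add, eval_mul, eval_C, eval_pow, eval_X]
    rw [Finset.sum_congr rfl h1, ← Finset.mul_sum, ← Finset.mul_sum, ← e_nat_mul]
    have h7 : (∑ δ ∈ S, ((c δ * e (pr δ (x, 0))).re : ℂ)) = (tp S c (x, 0) : ℂ) := by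
      unfold tp
      rw [Complex.re_sum]
      push_cast
      rfl
    rw [h7]
    push_cast
    ring
  have hP0 : P = 0 := by
    apply eq_zero_of_infinite_isRoot
    have hinj : Set.InjOn e {x : ℝ | 0 ≤ x ∧ x < 1 ∧ tp S c (x, 0) = v} := by
      intro x hx y hy hxy
      have h1 : e (x - y) = 1 := by
        rw [sub_eq_add_neg, e_add, hxy, mul_comm]
        exact e_neg_mul y
      obtain ⟨n, hn⟩ := (e_eq_one_iff _).1 h1
      have h2 : (n : ℝ) < 1 := by rw [← hn]; linarith [hx.2.1, hy.1]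
      have h3 : (-1 : ℝ) < n := by rw [← hn]; linarith [hx.1, hy.2.1]
      have h4 : n < 1 := by exact_mod_cast h2
      have h5 : -1 < n := by exact_mod_cast h3
      have h6 : n = 0 := by omega
      rw [h6] at hn
      push_cast at hn
      linarith
    refine (hinf.image hinj).mono ?_
    rintro z ⟨x, hx, rfl⟩
    show P.IsRoot (e x)
    rw [IsRoot.def, heval, hx.2.2, sub_self]
    simp
  intro x
  have h := heval x
  rw [hP0, eval_zero] at h
  have h1 := (mul_eq_zero.1 h.symm).resolve_left (mul_ne_zero two_ne_zero (e_ne_zero _))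
  have h2 : tp S c (x, 0) - v = 0 := by exact_mod_cast h1
  linarith

end Pool.Agent.R499.GB
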