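import Pool.Agent.R499.GB.Stm

/-! Project GB: pieces PER and COUNT. -/

set_option autoImplicit false

namespace Pool.Agent.R499.GB

open Filter Topology

lemma T_shift {a0 a1 a2 : ℤ} (h0 : 0 < a0) (N M : ℤ × ℤ) (j : ℕ) :
    T a0 a1 a2 (N + a0 ^ (j + 1) • M) =
      T a0 a1 a2 N + a0 ^ j • ((a0 * M.2, -(a2 * M.1 + a1 * M.2)) : ℤ × ℤ) := by
  unfold T
  apply Prod.ext
  · simp only [Prod.fst_add, Prod.snd_add, Prod.smul_snd, Prod.smul_fst, smul_eq_mul]
    ring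
  · simp only [Prod.fst_add, Prod.snd_add, Prod.smul_snd, Prod.smul_fst, smul_eq_mul]
    have : a2 * (N.1 + a0 ^ (j + 1) * M.1) + a1 * (N.2 + a0 ^ (j + 1) * M.2) =
        (a2 * N.1 + a1 * N.2) + a0 * (a0 ^ j * (a2 * M.1 + a1 * M.2)) := by ring
    rw [this, Int.add_mul_ediv_left _ _ h0.ne']
    ring

lemma iter_shift {a0 a1 a2 : ℤ} (h0 : 0 < a0) (k i : ℕ) (hi : i ≤ k) (N M : ℤ × ℤ) :
    ∃ M' : ℤ × ℤ, (T a0 a1 a2)^[i] (N + a0 ^ k • M) = (T a0 a1 a2)^[i] N + a0 ^ (k - i) • M' := by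
  induction i with
  | zero => exact ⟨M, rfl⟩
  | succ i ih =>
    obtain ⟨M', hM'⟩ := ih (by omega)
    rw [Function.iterate_succ_apply', hM', show k - i = (k - (i + 1)) + 1 by omega, T_shift h0,
      ← Function.iterate_succ_apply' (T a0 a1 a2)]
    exact ⟨_, rfl⟩

theorem t_PER : PER := by
  intro a0 a1 a2 h k i hi N M
  have h0 : 0 < a0 := h.pos.trans h.lt
  obtain ⟨M', hM'⟩ := iter_shift (a1 := a1) (a2 := a2) h0 k i hi.le N M
  rw [hM']
  unfold dg
  simp only [Prod.fst_add, Prod.snd_add, Prod.smul_snd, Prod.smul_fst, smul_eq_mul]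
  rw [show k - i = (k - i - 1) + 1 by omega]
  have : a2 * (((T a0 a1 a2)^[i] N).1 + a0 ^ ((k - i - 1) + 1) * M'.1) +
      a1 * (((T a0 a1 a2)^[i] N).2 + a0 ^ ((k - i - 1) + 1) * M'.2) =
      (a2 * ((T a0 a1 a2)^[i] N).1 + a1 * ((T a0 a1 a2)^[i] N).2) +
      a0 * (a0 ^ (k - i - 1) * (a2 * M'.1 + a1 * M'.2)) := by ring
  rw [this, Int.add_mul_emod_self_left]

/-- orbits satisfy the recursion -/
lemma orb_rec {a0 a1 a2 : ℤ} (N : ℤ × ℤ) (i : ℕ) :
    ((T a0 a1 a2)^[i] N).2 = ((T a0 a1 a2)^[i + 1] N).1 ∧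
    a2 * ((T a0 a1 a2)^[i] N).1 + a1 * ((T a0 a1 a2)^[i + 1] N).1 +
      a0 * ((T a0 a1 a2)^[i + 2] N).1 = dg a0 a1 a2 ((T a0 a1 a2)^[i] N) := by
  have h1 : ∀ i : ℕ, ((T a0 a1 a2)^[i] N).2 = ((T a0 a1 a2)^[i + 1] N).1 := by
    intro i
    rw [Function.iterate_succ_apply']
    rfl
  refine ⟨h1 i, ?_⟩
  have h2 : ((T a0 a1 a2)^[i + 2] N).1 = -((a2 * ((T a0 a1 a2)^[i] N).1 +
      a1 * ((T a0 a1 a2)^[i + 1] N).1) / a0) := by
    rw [← h1 (i + 1), ← h1 i, Function.iterate_succ_apply']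
    rfl
  rw [h2]
  unfold dg
  rw [h1 i]
  have := Int.emod_add_mul_ediv (a2 * ((T a0 a1 a2)^[i] N).1 + a1 * ((T a0 a1 a2)^[i + 1] N).1) a0
  linarith

/-- solutions of the recursion are orbits -/
lemma rec_orb {a0 a1 a2 : ℤ} (h0 : 0 < a0) (k : ℕ) (w x : ℕ → ℤ)
    (hw : ∀ i < k, 0 ≤ w i ∧ w i < a0)
    (hx : ∀ i < k, a2 * x i + a1 * x (i + 1) + a0 * x (i + 2) = w i) :
    (∀ i ≤ k, (T a0 a1 a2)^[i] (x 0, x 1) = (x i, x (i + 1))) ∧
    ∀ i < k, dg a0 a1 a2 ((T a0 a1 a2)^[i] (x 0, x 1)) = w i := by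
  have hdiv : ∀ i < k, (a2 * x i + a1 * x (i + 1)) / a0 = - x (i + 2) ∧
      (a2 * x i + a1 * x (i + 1)) % a0 = w i := by
    intro i hi
    have h1 := hx i hi
    have h2 := hw i hi
    have h3 : a2 * x i + a1 * x (i + 1) = w i + a0 * (-x (i + 2)) := by linarith
    rw [h3, Int.add_mul_ediv_left _ _ h0.ne', Int.add_mul_emod_self_left,
      Int.ediv_eq_zero_of_lt h2.1 h2.2, Int.emod_eq_of_lt h2.1 h2.2]
    exact ⟨by ring, rfl⟩
  have h1 : ∀ i ≤ k, (T a0 a1 a2)^[i] (x 0, x 1) = (x i, x (i + 1)) := by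
    intro i
    induction i with
    | zero => intro _; rfl
    | succ i ih =>
      intro hi
      rw [Function.iterate_succ_apply', ih (by omega)]
      unfold T
      rw [(hdiv i (by omega)).1]
      simp
  refine ⟨h1, ?_⟩
  intro i hi
  rw [h1 i hi.le]
  exact (hdiv i hi).2

/-- words attained -/
lemma word_exists (hS : SURJ) {a0 a1 a2 : ℤ} (h : Par a0 a1 a2) (k : ℕ) (w : ℕ → ℤ)
    (hw : ∀ i < k, 0 ≤ w i ∧ w i < a0) :
    ∃ N : ℤ × ℤ, ∀ i < k, dg a0 a1 a2 ((T a0 a1 a2)^[i] N) = w i := by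
  obtain ⟨x, hx⟩ := hS a0 a1 a2 h k w
  exact ⟨(x 0, x 1), (rec_orb (h.pos.trans h.lt) k w x hw hx).2⟩

/-- the affine bijection between word classes -/
lemma word_shift {a0 a1 a2 : ℤ} (h : Par a0 a1 a2) (k : ℕ) (w w' : ℕ → ℤ)
    (hw' : ∀ i < k, 0 ≤ w' i ∧ w' i < a0) (N A B : ℤ × ℤ)
    (hN : ∀ i < k, dg a0 a1 a2 ((T a0 a1 a2)^[i] N) = w i)
    (hA : ∀ i < k, dg a0 a1 a2 ((T a0 a1 a2)^[i] A) = w i)
    (hB : ∀ i < k, dg a0 a1 a2 ((T a0 a1 a2)^[i] B) = w' i) :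
    ∀ i < k, dg a0 a1 a2 ((T a0 a1 a2)^[i] (N - A + B)) = w' i := by
  set x : ℕ → ℤ := fun i => ((T a0 a1 a2)^[i] N).1 - ((T a0 a1 a2)^[i] A).1 +
    ((T a0 a1 a2)^[i] B).1 with hx
  have h2 := (rec_orb (a1 := a1) (a2 := a2) (h.pos.trans h.lt) k w' x hw' (by
    intro i hi
    have e1 := (orb_rec (a0 := a0) (a1 := a1) (a2 := a2) N i).2
    have e2 := (orb_rec (a0 := a0) (a1 := a1) (a2 := a2) A i).2
    have e3 := (orb_rec (a0 := a0) (a1 := a1) (a2 := a2) B i).2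
    rw [hN i hi] at e1
    rw [hA i hi] at e2
    rw [hB i hi] at e3
    simp only [hx]
    linear_combination e1 - e2 + e3)).2
  have h3 : N - A + B = (x 0, x 1) := by
    apply Prod.ext
    · rfl
    · simp only [hx, ← (orb_rec (a0 := a0) (a1 := a1) (a2 := a2) _ 0).1]
      rfl
  rw [h3]
  exact h2

lemma count_le (hS : SURJ) {a0 a1 a2 : ℤ} (h : Par a0 a1 a2) (k : ℕ) (w w' : ℕ → ℤ)
    (hw : ∀ i < k, 0 ≤ w i ∧ w i < a0) (hw' : ∀ i < k, 0 ≤ w' i ∧ w' i < a0) :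
    ((box a0 k).filter (fun N => ∀ i < k, dg a0 a1 a2 ((T a0 a1 a2)^[i] N) = w i)).card ≤
    ((box a0 k).filter (fun N => ∀ i < k, dg a0 a1 a2 ((T a0 a1 a2)^[i] N) = w' i)).card := by
  have h0 : 0 < a0 := h.pos.trans h.lt
  have hB : 0 < a0 ^ k := pow_pos h0 k
  obtain ⟨A, hA⟩ := word_exists hS h k w hw
  obtain ⟨B, hB'⟩ := word_exists hS h k w' hw'
  apply Finset.card_le_card_of_injOn
    (fun N => ((N - A + B).1 % a0 ^ k, (N - A + B).2 % a0 ^ k))
  · intro N hN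
    rw [Finset.mem_coe, Finset.mem_filter] at hN
    rw [Finset.mem_coe, Finset.mem_filter]
    constructor
    · unfold box
      rw [Finset.mem_product, Finset.mem_Ico, Finset.mem_Ico]
      exact ⟨⟨Int.emod_nonneg _ hB.ne', Int.emod_lt_of_pos _ hB⟩,
        ⟨Int.emod_nonneg _ hB.ne', Int.emod_lt_of_pos _ hB⟩⟩
    · intro i hi
      have e1 := word_shift h k w w' hw' N A B hN.2 hA hB' i hi
      have e2 : N - A + B = ((N - A + B).1 % a0 ^ k, (N - A + B).2 % a0 ^ k) +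
          a0 ^ k • (((N - A + B).1 / a0 ^ k, (N - A + B).2 / a0 ^ k) : ℤ × ℤ) := by
        apply Prod.ext
        · exact (Int.emod_add_mul_ediv _ _).symm
        · exact (Int.emod_add_mul_ediv _ _).symm
      rw [e2, t_PER a0 a1 a2 h k i hi] at e1
      exact e1
  · intro N hN N' hN' heq
    rw [Finset.mem_coe, Finset.mem_filter] at hN hN'
    have b1 := hN.1
    have b2 := hN'.1
    unfold box at b1 b2
    rw [Finset.mem_product, Finset.mem_Ico, Finset.mem_Ico] at b1 b2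
    have e1 : (N - A + B).1 % a0 ^ k = (N' - A + B).1 % a0 ^ k := congrArg Prod.fst heq
    have e2 : (N - A + B).2 % a0 ^ k = (N' - A + B).2 % a0 ^ k := congrArg Prod.snd heq
    have key : ∀ x y c : ℤ, (x + c) % a0 ^ k = (y + c) % a0 ^ k → 0 ≤ x → x < a0 ^ k → 0 ≤ y →
        y < a0 ^ k → x = y := by
      intro x y c hxy hx0 hx1 hy0 hy1
      have h1 : x % a0 ^ k = y % a0 ^ k := by
        have : x ≡ y [ZMOD a0 ^ k] := Int.ModEq.add_right_cancel' c hxy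
        exact this
      rwa [Int.emod_eq_of_lt hx0 hx1, Int.emod_eq_of_lt hy0 hy1] at h1
    apply Prod.ext
    · apply key N.1 N'.1 (-A.1 + B.1) _ b1.1.1 b1.1.2 b2.1.1 b2.1.2
      have r1 : (N - A + B).1 = N.1 + (-A.1 + B.1) := by
        show N.1 - A.1 + B.1 = _
        ring
      have r2 : (N' - A + B).1 = N'.1 + (-A.1 + B.1) := by
        show N'.1 - A.1 + B.1 = _
        ring
      rw [← r1, ← r2]
      exact e1
    · apply key N.2 N'.2 (-A.2 + B.2) _ b1.2.1 b1.2.2 b2.2.1 b2.2.2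
      have r1 : (N - A + B).2 = N.2 + (-A.2 + B.2) := by
        show N.2 - A.2 + B.2 = _
        ring
      have r2 : (N' - A + B).2 = N'.2 + (-A.2 + B.2) := by
        show N'.2 - A.2 + B.2 = _
        ring
      rw [← r1, ← r2]
      exact e2

theorem t_COUNT (hS : SURJ) : COUNT := by
  intro a0 a1 a2 h k w hw
  have h0 : 0 < a0 := h.pos.trans h.lt
  set C := ((box a0 k).filter (fun N => ∀ i < k, dg a0 a1 a2 ((T a0 a1 a2)^[i] N) = w i)).card
    with hC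
  set words : Finset (Fin k → ℤ) := Fintype.piFinset (fun _ : Fin k => Finset.Ico 0 a0) with hwords
  set wd : ℤ × ℤ → (Fin k → ℤ) := fun N i => dg a0 a1 a2 ((T a0 a1 a2)^[(i : ℕ)] N) with hwd
  have hmap : ∀ N ∈ box a0 k, wd N ∈ words := by
    intro N _
    rw [hwords, Fintype.mem_piFinset]
    intro i
    rw [Finset.mem_Ico]
    exact ⟨Int.emod_nonneg _ h0.ne', Int.emod_lt_of_pos _ h0⟩
  have h1 := Finset.card_eq_sum_card_fiberwise hmap
  have h2 : ∀ v ∈ words, ((box a0 k).filter (fun N => wd N = v)).card = C := by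
    intro v hv
    rw [hwords, Fintype.mem_piFinset] at hv
    set v' : ℕ → ℤ := fun i => if hi : i < k then v ⟨i, hi⟩ else 0 with hv'
    have hvv : ∀ i < k, 0 ≤ v' i ∧ v' i < a0 := by
      intro i hi
      simp only [hv', dif_pos hi]
      exact Finset.mem_Ico.1 (hv ⟨i, hi⟩)
    have h3 : ((box a0 k).filter (fun N => wd N = v)) =
        ((box a0 k).filter (fun N => ∀ i < k, dg a0 a1 a2 ((T a0 a1 a2)^[i] N) = v' i)) := by
      apply Finset.filter_congr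
      intro N _
      constructor
      · intro hh i hi
        simp only [hv', dif_pos hi]
        exact congrFun hh ⟨i, hi⟩
      · intro hh
        funext i
        have := hh i i.2
        simp only [hv', dif_pos i.2] at this
        exact this
    rw [h3, hC]
    exact le_antisymm (count_le hS h k v' w hvv (fun i _ => hw i))
      (count_le hS h k w v' (fun i _ => hw i) hvv)
  rw [Finset.sum_congr rfl h2, Finset.sum_const, smul_eq_mul] at h1
  have h4 : words.card = a0.toNat ^ k := by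
    rw [hwords, Fintype.card_piFinset]
    simp
  have h5 : (box a0 k).card = a0.toNat ^ k * a0.toNat ^ k := by
    unfold box
    rw [Finset.card_product, Int.card_Ico]
    have : (a0 ^ k - 0).toNat = a0.toNat ^ k := by
      rw [sub_zero]
      obtain ⟨n, hn⟩ := Int.eq_ofNat_of_zero_le h0.le
      rw [hn, ← Nat.cast_pow, Int.toNat_natCast, Int.toNat_natCast]
    rw [this]
  rw [h4, h5] at h1
  have h6 : 0 < a0.toNat ^ k := by
    apply pow_pos
    omega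
  exact (Nat.eq_of_mul_eq_mul_left h6 h1).symm

end Pool.Agent.R499.GB
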