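import Mathlib
import Pool.Agent.R499.GB.Stm

/-! Project GB, piece DIST. -/

set_option autoImplicit false

namespace Pool.Agent.R499.GB

namespace K394

theorem node_append_single (a0 a1 a2 : ℤ) (ξ : ℝ × ℝ) (t : List ℤ) (l : ℤ) :
    node a0 a1 a2 ξ (t ++ [l]) = node a0 a1 a2 (nd a0 a1 a2 l ξ) t := by
  induction t with
  | nil => rfl
  | cons h t ih => simp only [List.cons_append, node, ih]

/-- going down a list along a solution of the recursion -/
theorem pr_node (a0 a1 a2 : ℤ) (ha : 0 < a0) (t : List ℤ) : ∀ (x : ℕ → ℤ) (η : ℝ × ℝ),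
    (∀ i < t.length, a2 * x i + a1 * x (i + 1) + a0 * x (i + 2) = 0) →
    ∃ z : ℤ, pr (x 0, x 1) (node a0 a1 a2 η t) = pr (x t.length, x (t.length + 1)) η + z := by
  have ha' : (a0 : ℝ) ≠ 0 := by exact_mod_cast ha.ne'
  induction t with
  | nil =>
    intro x η _
    exact ⟨0, by simp [node]⟩
  | cons h t ih =>
    intro x η hx
    obtain ⟨z, hz⟩ := ih (fun i => x (i + 1)) η (fun i hi => by
      have := hx (i + 1) (by simpa using hi)
      exact this)
    refine ⟨z + x 2 * h, ?_⟩
    have h0 := hx 0 (by simp)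
    have h0' : (a2 : ℝ) * x 0 + a1 * x 1 + a0 * x 2 = 0 := by exact_mod_cast h0
    have h1 : pr (x 0, x 1) (node a0 a1 a2 η (h :: t)) =
        pr (x 1, x 2) (node a0 a1 a2 η t) + x 2 * h := by
      simp only [node, pr, nd]
      set ζ := node a0 a1 a2 η t with hζ
      have h2 : (x 0 : ℝ) * -(a2 * (ζ.2 + h) / a0) + x 1 * (ζ.1 - a1 * (ζ.2 + h) / a0) =
          x 1 * ζ.1 - ((a2 : ℝ) * x 0 + a1 * x 1) / a0 * (ζ.2 + h) := by
        ring
      rw [h2]
      have h3 : (a2 : ℝ) * x 0 + a1 * x 1 = -(a0 * x 2) := by linarith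
      rw [h3]
      field_simp
      ring
    rw [h1]
    simp only [zero_add, Nat.reduceAdd] at hz
    rw [hz]
    push_cast
    simp only [List.length_cons]
    ring

end K394

open K394 in
theorem t_DIST (hs : SURJ) : DIST := by
  intro a0 a1 a2 hP s s'
  have ha : 0 < a0 := lt_trans hP.pos hP.lt
  have ha' : (a0 : ℝ) ≠ 0 := by exact_mod_cast ha.ne'
  obtain ⟨n, hn⟩ : ∃ n, s.length = n := ⟨_, rfl⟩
  induction n generalizing s s' with
  | zero =>
    intro ξ m hlen _ _ _
    rw [List.length_eq_zero_iff] at hn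
    subst hn
    have : s'.length = 0 := by rw [← hlen]; rfl
    rw [List.length_eq_zero_iff] at this
    exact this.symm
  | succ n ih =>
    intro ξ m hlen hs1 hs2 hm
    rcases List.eq_nil_or_concat s with h | ⟨t, l, h⟩
    · rw [h] at hn
      simp at hn
    rcases List.eq_nil_or_concat s' with h' | ⟨t', l', h'⟩
    · rw [h', hn] at hlen
      simp at hlen
    subst h h'
    rw [List.concat_eq_append] at hn hs1 hlen hm ⊢
    rw [List.concat_eq_append] at hs2 hlen hm ⊢
    have ht : t.length = n := by simpa using hn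
    have ht' : t'.length = n := by
      have : t.length = t'.length := by simpa using hlen
      rw [← this, ht]
    have hl : 0 ≤ l ∧ l < a0 := hs1 l (by simp)
    have hl' : 0 ≤ l' ∧ l' < a0 := hs2 l' (by simp)
    rw [node_append_single, node_append_single] at hm
    have hll : l = l' := by
      obtain ⟨x, hx⟩ := hs a0 a1 a2 hP (n + 1) (fun i => if i = n then 1 else 0)
      have hx0 : ∀ i < n, a2 * x i + a1 * x (i + 1) + a0 * x (i + 2) = 0 := fun i hi => by
        rw [hx i (by omega), if_neg (by omega)]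
      have hxn : a2 * x n + a1 * x (n + 1) + a0 * x (n + 2) = 1 := by
        rw [hx n (by omega), if_pos rfl]
      obtain ⟨z, hz⟩ := pr_node a0 a1 a2 ha t x (nd a0 a1 a2 l ξ) (by rw [ht]; exact hx0)
      obtain ⟨z', hz'⟩ := pr_node a0 a1 a2 ha t' x (nd a0 a1 a2 l' ξ) (by rw [ht']; exact hx0)
      rw [ht] at hz
      rw [ht'] at hz'
      have h1 : pr (x 0, x 1) (node a0 a1 a2 (nd a0 a1 a2 l ξ) t) -
          pr (x 0, x 1) (node a0 a1 a2 (nd a0 a1 a2 l' ξ) t') = x 0 * m.1 + x 1 * m.2 := by
        have e1 := congrArg Prod.fst hm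
        have e2 := congrArg Prod.snd hm
        simp only [Prod.fst_sub, Prod.snd_sub] at e1 e2
        simp only [pr]
        rw [← e1, ← e2]
        ring
      rw [hz, hz'] at h1
      have h2 : pr (x n, x (n + 1)) (nd a0 a1 a2 l ξ) - pr (x n, x (n + 1)) (nd a0 a1 a2 l' ξ) =
          -((a2 : ℝ) * x n + a1 * x (n + 1)) * (l - l') / a0 := by
        simp only [pr, nd]
        ring
      have h3 : (a2 : ℝ) * x n + a1 * x (n + 1) = 1 - a0 * x (n + 2) := by
        have : (a2 : ℝ) * x n + a1 * x (n + 1) + a0 * x (n + 2) = 1 := by exact_mod_cast hxn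
        linarith
      rw [h3] at h2
      have h4 : ((l - l' : ℤ) : ℝ) = a0 * ((x (n + 2) * (l - l') - (x 0 * m.1 + x 1 * m.2 - z + z') : ℤ) : ℝ) := by
        push_cast
        have h5 : -(1 - (a0 : ℝ) * x (n + 2)) * (l - l') / a0 = x 0 * m.1 + x 1 * m.2 - z + z' := by
          rw [← h2]
          linarith
        rw [div_eq_iff ha'] at h5
        linarith
      have h6 : l - l' = a0 * (x (n + 2) * (l - l') - (x 0 * m.1 + x 1 * m.2 - z + z')) := by
        exact_mod_cast h4
      have h7 : a0 ∣ l - l' := ⟨_, h6⟩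
      have h8 : l - l' = 0 := by
        apply Int.eq_zero_of_abs_lt_dvd h7
        rw [abs_lt]
        constructor <;> linarith [hl.1, hl.2, hl'.1, hl'.2]
      linarith
    subst hll
    have := ih t t' ht (nd a0 a1 a2 l ξ) m (by rw [ht, ht'])
      (fun y hy => hs1 y (by simp [hy])) (fun y hy => hs2 y (by simp [hy])) hm
    rw [this]

end Pool.Agent.R499.GB
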