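import Pool.Agent.R499.GB.Stm

/-! Project GB: piece FIN (finite closed set of differences). -/

set_option autoImplicit false

namespace Pool.Agent.R499.GB

namespace H874

/-- the quadratic form of the lattice -/
def QE (a0 a1 a2 : ℤ) (δ : ℤ × ℤ) : ℤ := a2 * δ.1 ^ 2 + a1 * δ.1 * δ.2 + a0 * δ.2 ^ 2

lemma QE_bound1 {a0 a1 a2 : ℤ} (h : Par a0 a1 a2) (δ : ℤ × ℤ) :
    δ.1 ^ 2 ≤ 4 * a0 * QE a0 a1 a2 δ := by
  have hd := h.disc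
  have e : 4 * a0 * QE a0 a1 a2 δ =
      (2 * a0 * δ.2 + a1 * δ.1) ^ 2 + (4 * a0 * a2 - a1 ^ 2) * δ.1 ^ 2 := by
    unfold QE
    ring
  rw [e]
  nlinarith [sq_nonneg (2 * a0 * δ.2 + a1 * δ.1), sq_nonneg δ.1]

lemma QE_bound2 {a0 a1 a2 : ℤ} (h : Par a0 a1 a2) (δ : ℤ × ℤ) :
    δ.2 ^ 2 ≤ 4 * a2 * QE a0 a1 a2 δ := by
  have hd := h.disc
  have e : 4 * a2 * QE a0 a1 a2 δ =
      (2 * a2 * δ.1 + a1 * δ.2) ^ 2 + (4 * a0 * a2 - a1 ^ 2) * δ.2 ^ 2 := by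
    unfold QE
    ring
  rw [e]
  nlinarith [sq_nonneg (2 * a2 * δ.1 + a1 * δ.2), sq_nonneg δ.2]

lemma QE_nonneg {a0 a1 a2 : ℤ} (h : Par a0 a1 a2) (δ : ℤ × ℤ) : 0 ≤ QE a0 a1 a2 δ := by
  have h1 := QE_bound1 h δ
  have h0 : 0 < 4 * a0 := by have := h.pos; have := h.lt; linarith
  by_contra hneg
  push Not at hneg
  nlinarith [sq_nonneg δ.1]

/-- one step of the quadratic form -/
lemma QE_st {a0 a1 a2 : ℤ} (δ : ℤ × ℤ) (d : ℤ) :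
    a0 * QE a0 a1 a2 (st a0 a1 a2 d δ) = a2 * QE a0 a1 a2 δ
      - ((d + (a2 * δ.1 + a1 * δ.2)) % a0 - d) * (2 * a2 * δ.1 + a1 * δ.2)
      + ((d + (a2 * δ.1 + a1 * δ.2)) % a0 - d) ^ 2 := by
  have h1 := Int.mul_ediv_add_emod (d + (a2 * δ.1 + a1 * δ.2)) a0
  set z := (d + (a2 * δ.1 + a1 * δ.2)) / a0 with hz
  set r := (d + (a2 * δ.1 + a1 * δ.2)) % a0 with hr
  have h2 : r = d + (a2 * δ.1 + a1 * δ.2) - a0 * z := by linarith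
  unfold QE st
  simp only [← hz]
  rw [h2]
  ring

end H874

open H874

theorem t_FIN : FIN := by
  intro a0 a1 a2 h δ
  have hp := h.pos
  have hl := h.lt
  set C0 : ℤ := 2 * a2 * a0 ^ 2 + a0 ^ 2 with hC0
  set R : ℤ := QE a0 a1 a2 δ + 2 * C0 with hR
  have hE := QE_nonneg h δ
  have hC : 0 ≤ C0 := by positivity
  set N : ℤ := 4 * a0 * R with hN
  have hmem : ∀ δ' : ℤ × ℤ, QE a0 a1 a2 δ' ≤ R →
      δ' ∈ ((Finset.Icc (-N) N) ×ˢ (Finset.Icc (-N) N)).filter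
        (fun δ' => QE a0 a1 a2 δ' ≤ R) := by
    intro δ' hδ'
    have b1 := QE_bound1 h δ'
    have b2 := QE_bound2 h δ'
    have hE' := QE_nonneg h δ'
    have c1 : δ'.1 ^ 2 ≤ N := b1.trans (by
      rw [hN]
      exact mul_le_mul_of_nonneg_left hδ' (by linarith))
    have c2 : δ'.2 ^ 2 ≤ N := b2.trans (by
      rw [hN]
      nlinarith)
    rw [Finset.mem_filter, Finset.mem_product, Finset.mem_Icc, Finset.mem_Icc]
    refine ⟨⟨⟨?_, ?_⟩, ⟨?_, ?_⟩⟩, hδ'⟩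
    · nlinarith [sq_nonneg (δ'.1 + 1), sq_nonneg (δ'.1 - 1), Int.le_self_sq (-δ'.1)]
    · nlinarith [Int.le_self_sq δ'.1]
    · nlinarith [sq_nonneg (δ'.2 + 1), sq_nonneg (δ'.2 - 1), Int.le_self_sq (-δ'.2)]
    · nlinarith [Int.le_self_sq δ'.2]
  refine ⟨_, hmem δ (by linarith), ?_⟩
  intro δ' hδ' d hd0 hd1
  rw [Finset.mem_filter] at hδ'
  apply hmem
  have hle := hδ'.2
  have h1 := QE_st (a0 := a0) (a1 := a1) (a2 := a2) δ' d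
  set θ := (d + (a2 * δ'.1 + a1 * δ'.2)) % a0 - d with hθ
  set u := 2 * a2 * δ'.1 + a1 * δ'.2 with hu
  have ht1 : 0 ≤ (d + (a2 * δ'.1 + a1 * δ'.2)) % a0 := Int.emod_nonneg _ (by linarith)
  have ht2 : (d + (a2 * δ'.1 + a1 * δ'.2)) % a0 < a0 := Int.emod_lt_of_pos _ (by linarith)
  have ht3 : θ ^ 2 ≤ a0 ^ 2 := by
    apply sq_le_sq'
    · linarith
    · linarith
  have hu2 : u ^ 2 ≤ 4 * a2 * QE a0 a1 a2 δ' := by
    have e : 4 * a2 * QE a0 a1 a2 δ' = u ^ 2 + (4 * a0 * a2 - a1 ^ 2) * δ'.2 ^ 2 := by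
      rw [hu]
      unfold QE
      ring
    rw [e]
    have := h.disc
    nlinarith [sq_nonneg δ'.2]
  -- `8 a₂ θ u` is controlled
  have h3 : 8 * a2 * (-(θ * u)) ≤ u ^ 2 + 16 * a2 ^ 2 * θ ^ 2 := by
    nlinarith [sq_nonneg (u + 4 * a2 * θ)]
  have h4 : 8 * a2 * (a0 * QE a0 a1 a2 (st a0 a1 a2 d δ')) ≤ 8 * a2 * (a0 * R) := by
    rw [h1]
    have e5 : 8 * a2 * (a2 * QE a0 a1 a2 δ' - θ * u + θ ^ 2) ≤
        8 * a2 * (a2 * QE a0 a1 a2 δ') + (4 * a2 * QE a0 a1 a2 δ' + 16 * a2 ^ 2 * a0 ^ 2)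
          + 8 * a2 * a0 ^ 2 := by
      have k1 : 16 * a2 ^ 2 * θ ^ 2 ≤ 16 * a2 ^ 2 * a0 ^ 2 :=
        mul_le_mul_of_nonneg_left ht3 (by positivity)
      have k2 : 8 * a2 * θ ^ 2 ≤ 8 * a2 * a0 ^ 2 :=
        mul_le_mul_of_nonneg_left ht3 (by linarith)
      nlinarith
    refine e5.trans ?_
    have k3 : a2 * QE a0 a1 a2 δ' ≤ a2 * R := mul_le_mul_of_nonneg_left hle hp.le
    have k4 : a2 * (a2 * QE a0 a1 a2 δ') ≤ a2 * (a2 * R) := mul_le_mul_of_nonneg_left k3 hp.le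
    have k5 : a2 * (a2 + 1) ≤ a2 * a0 := mul_le_mul_of_nonneg_left (by linarith) hp.le
    have hR0 : 0 ≤ R := by linarith
    have k6 : (a2 * (a2 + 1)) * R ≤ (a2 * a0) * R := mul_le_mul_of_nonneg_right k5 hR0
    have k7 : a2 * (2 * C0) ≤ a2 * R := mul_le_mul_of_nonneg_left (by linarith) hp.le
    nlinarith
  have h5 : 0 < 8 * a2 := by linarith
  have h6 := le_of_mul_le_mul_left h4 h5
  exact le_of_mul_le_mul_left h6 (by linarith)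

end Pool.Agent.R499.GB
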