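import Pool.Agent.R499.GB.Fin2

/-! Project GB: final assembly. -/

set_option autoImplicit false

namespace Pool.Agent.R499.GB

open Filter Topology

section Shift

variable {a0 a1 a2 : ℤ}

/-- linear part of the shift -/
def ShF (a0 a1 a2 : ℤ) (M : ℤ × ℤ) : ℤ × ℤ := (a0 * M.2, -(a2 * M.1 + a1 * M.2))

theorem TF_shift (ha0 : 0 < a0) (k : ℕ) (N M : ℤ × ℤ) :
    T a0 a1 a2 (N + a0 ^ (k + 1) • M) = T a0 a1 a2 N + a0 ^ k • ShF a0 a1 a2 M := by
  unfold T ShF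
  ext
  · simp only [Prod.fst_add, Prod.snd_add, Prod.smul_fst, Prod.smul_snd, smul_eq_mul]
    ring
  · simp only [Prod.fst_add, Prod.snd_add, Prod.smul_fst, Prod.smul_snd, smul_eq_mul]
    have e1 : a2 * (N.1 + a0 ^ (k + 1) * M.1) + a1 * (N.2 + a0 ^ (k + 1) * M.2) =
        (a2 * N.1 + a1 * N.2) + a0 * (a0 ^ k * (a2 * M.1 + a1 * M.2)) := by ring
    rw [e1, Int.add_mul_ediv_left _ _ ha0.ne']
    ring

theorem TF_iter_shift (ha0 : 0 < a0) (i k : ℕ) (N M : ℤ × ℤ) :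
    (T a0 a1 a2)^[i] (N + a0 ^ (k + i) • M) =
      (T a0 a1 a2)^[i] N + a0 ^ k • (ShF a0 a1 a2)^[i] M := by
  induction i generalizing N M with
  | zero => simp
  | succ i ih =>
    rw [Function.iterate_succ_apply, Function.iterate_succ_apply, Function.iterate_succ_apply,
      ← add_assoc, TF_shift ha0, ih]

/-- the bad set -/
def BadF (a0 a1 a2 : ℤ) (E : Finset (ℤ × ℤ)) (j : ℕ) (N : ℤ × ℤ) : Prop :=
  ∃ δ ∈ E, (T a0 a1 a2)^[j] (N + δ) ≠ (T a0 a1 a2)^[j] N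

theorem Bad_per (ha0 : 0 < a0) (E : Finset (ℤ × ℤ)) (j : ℕ) (N M : ℤ × ℤ) :
    BadF a0 a1 a2 E j (N + a0 ^ j • M) ↔ BadF a0 a1 a2 E j N := by
  unfold BadF
  have h (N : ℤ × ℤ) : (T a0 a1 a2)^[j] (N + a0 ^ j • M) =
      (T a0 a1 a2)^[j] N + (ShF a0 a1 a2)^[j] M := by
    have := TF_iter_shift (a1 := a1) (a2 := a2) ha0 j 0 N M
    rwa [zero_add, pow_zero, one_smul] at this
  constructor
  · rintro ⟨δ, hδ, hne⟩
    refine ⟨δ, hδ, fun he => hne ?_⟩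
    rw [add_right_comm, h, h, he]
  · rintro ⟨δ, hδ, hne⟩
    refine ⟨δ, hδ, fun he => hne ?_⟩
    rw [add_right_comm, h, h] at he
    exact add_right_cancel he

/-- the word condition -/
def WdF (a0 a1 a2 : ℤ) (ℓ j : ℕ) (w : Fin ℓ → ℤ) (N : ℤ × ℤ) : Prop :=
  ∀ i : Fin ℓ, dg a0 a1 a2 ((T a0 a1 a2)^[(ℓ - 1 - i) + j] N) = w i

theorem Wd_per (hPER : PER) (hP : Par a0 a1 a2) (ℓ j : ℕ) (w : Fin ℓ → ℤ) (N M : ℤ × ℤ) :
    WdF a0 a1 a2 ℓ j w (N + a0 ^ (j + ℓ) • M) ↔ WdF a0 a1 a2 ℓ j w N := by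
  unfold WdF
  refine forall_congr' fun i => ?_
  have hi := i.2
  rw [hPER a0 a1 a2 hP (j + ℓ) ((ℓ - 1 - i) + j) (by omega) N M]

open Classical in
theorem Wd_card (hCOUNT : COUNT) (hP : Par a0 a1 a2) (ℓ j : ℕ) (w : Fin ℓ → ℤ)
    (hw : ∀ i, 0 ≤ w i ∧ w i < a0) :
    (((box a0 (j + ℓ)).filter (WdF a0 a1 a2 ℓ j w)).card : ℝ) / (a0 : ℝ) ^ (2 * (j + ℓ)) =
      1 / (a0 : ℝ) ^ ℓ := by
  have ha0 : 0 < a0 := hP.pos.trans hP.lt
  have h1 : ((box a0 (j + ℓ)).filter (WdF a0 a1 a2 ℓ j w)).card =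
      a0.toNat ^ j * a0.toNat ^ (j + ℓ) := by
    rw [Finset.card_eq_sum_card_fiberwise (f := fun N => fun i : Fin j =>
      dg a0 a1 a2 ((T a0 a1 a2)^[(i : ℕ)] N))
      (t := Fintype.piFinset (fun _ : Fin j => Finset.Ico (0 : ℤ) a0)) ?_]
    · have h2 : ∀ u ∈ Fintype.piFinset (fun _ : Fin j => Finset.Ico (0 : ℤ) a0),
          (((box a0 (j + ℓ)).filter (WdF a0 a1 a2 ℓ j w)).filter (fun N => (fun i : Fin j =>
            dg a0 a1 a2 ((T a0 a1 a2)^[(i : ℕ)] N)) = u)).card = a0.toNat ^ (j + ℓ) := by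
        intro u hu
        have hu' := Fintype.mem_piFinset.1 hu
        let v : ℕ → ℤ := fun i => if h : i < j then u ⟨i, h⟩ else
          if h' : (ℓ - 1 - (i - j)) < ℓ then w ⟨ℓ - 1 - (i - j), h'⟩ else 0
        have hv : ∀ i, 0 ≤ v i ∧ v i < a0 := by
          intro i
          simp only [v]
          split_ifs with h h'
          · exact Finset.mem_Ico.1 (hu' _)
          · exact hw _
          · exact ⟨le_rfl, ha0⟩
        rw [← hCOUNT a0 a1 a2 hP (j + ℓ) v hv, Finset.filter_filter]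
        congr 1
        refine Finset.filter_congr fun N _ => ?_
        constructor
        · rintro ⟨h3, h4⟩ i hi
          simp only [v]
          by_cases hij : i < j
          · rw [dif_pos hij, ← h4]
          · have h5 : ℓ - 1 - (i - j) < ℓ := by omega
            rw [dif_neg hij, dif_pos h5, ← h3 ⟨ℓ - 1 - (i - j), h5⟩]
            congr 2
            simp only
            omega
        · intro h3
          constructor
          · intro i
            have hi := i.2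
            rw [h3 ((ℓ - 1 - i) + j) (by omega)]
            simp only [v]
            have h4 : ¬ (ℓ - 1 - (i : ℕ) + j < j) := by omega
            have h5 : ℓ - 1 - (ℓ - 1 - (i : ℕ) + j - j) < ℓ := by omega
            rw [dif_neg h4, dif_pos h5]
            congr 1
            ext
            simp only
            omega
          · funext i
            rw [h3 i (by omega)]
            simp only [v]
            rw [dif_pos i.2]
      rw [Finset.sum_congr rfl h2, Finset.sum_const, Fintype.card_piFinset]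
      simp
    · intro N _
      refine Finset.mem_coe.2 (Fintype.mem_piFinset.2 fun i => ?_)
      unfold dg
      exact Finset.mem_Ico.2 ⟨Int.emod_nonneg _ ha0.ne', Int.emod_lt_of_pos _ ha0⟩
  rw [h1]
  have h2 : ((a0.toNat : ℕ) : ℝ) = (a0 : ℝ) := by
    have : ((a0.toNat : ℕ) : ℤ) = a0 := Int.toNat_of_nonneg ha0.le
    exact_mod_cast this
  push_cast
  rw [h2]
  have h3 : (a0 : ℝ) ≠ 0 := by exact_mod_cast ha0.ne'
  have h4 : (a0 : ℝ) ^ (2 * (j + ℓ)) = (a0 : ℝ) ^ ℓ * ((a0 : ℝ) ^ j * (a0 : ℝ) ^ (j + ℓ)) := by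
    rw [← pow_add, ← pow_add]
    congr 1
    omega
  rw [h4]
  field_simp

end Shift

section Main

variable {a0 a1 a2 : ℤ} {α x : ℂ} {k : ℤ} {N : ℕ → ℂ} {d : ℕ → ℤ}

theorem closeF (h2 : 0 < a2) (him : α.im ≠ 0) (hα : 1 < ‖α‖) :
    ∃ E : Finset (ℤ × ℤ), ∀ (y : ℂ) (n : ℤ × ℤ),
      ‖y - toC a1 a2 α n‖ ≤ |(a0 : ℝ)| / (‖α‖ - 1) → n - fl a1 a2 α y ∈ E := by
  set B : ℝ := |(a0 : ℝ)| / (‖α‖ - 1) with hB
  set K1 : ℝ := 1 / |a2 * α.im| with hK1
  set K2 : ℝ := (1 + (1 / |a2 * α.im|) * |a2 * α.re + a1|) / a2 with hK2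
  have h2' : (0 : ℝ) < a2 := by exact_mod_cast h2
  have hB0 : 0 ≤ B := div_nonneg (abs_nonneg _) (by linarith)
  have hK1' : 0 ≤ K1 := by positivity
  have hK2' : 0 ≤ K2 := by positivity
  obtain ⟨R, hR⟩ := exists_nat_gt (K1 * B + K2 * B + 1)
  refine ⟨Finset.Icc (-(R : ℤ)) R ×ˢ Finset.Icc (-(R : ℤ)) R, fun y n hy => ?_⟩
  have key : ∀ (c : ℝ) (m : ℤ), |c - m| ≤ K1 * B + K2 * B →
      m - ⌊c⌋ ∈ Finset.Icc (-(R : ℤ)) R := by
    intro c m hc
    have h3 := abs_le.1 hc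
    have h4 := Int.floor_le c
    have h5 := Int.lt_floor_add_one c
    rw [Finset.mem_Icc]
    constructor
    · have : (-(R : ℝ)) ≤ ((m - ⌊c⌋ : ℤ) : ℝ) := by
        push_cast
        linarith [h3.2]
      exact_mod_cast this
    · have : ((m - ⌊c⌋ : ℤ) : ℝ) ≤ (R : ℝ) := by
        push_cast
        linarith [h3.1]
      exact_mod_cast this
  refine Finset.mem_product.2 ⟨?_, ?_⟩
  · refine key (cU a1 a2 α y) n.1 ?_
    have h3 := cU_bd (a1 := a1) (α := α) h2 (y - toC a1 a2 α n)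
    rw [cU_sub, cU_toC h2 him] at h3
    refine h3.trans ?_
    have h4 : K2 * ‖y - toC a1 a2 α n‖ ≤ K2 * B := mul_le_mul_of_nonneg_left hy hK2'
    have h5 : 0 ≤ K1 * B := mul_nonneg hK1' hB0
    linarith
  · refine key (cV a2 α y) n.2 ?_
    have h3 := cV_bd (a2 := a2) (α := α) (y - toC a1 a2 α n)
    rw [cV_sub, cV_toC h2 him] at h3
    refine h3.trans ?_
    have h4 : K1 * ‖y - toC a1 a2 α n‖ ≤ K1 * B := mul_le_mul_of_nonneg_left hy hK1'
    have h5 : 0 ≤ K2 * B := mul_nonneg hK2' hB0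
    linarith

theorem TF_iter_n {n : ℕ → ℤ × ℤ} (h : ∀ t, T a0 a1 a2 (n (t + 1)) = n t) (j t : ℕ) :
    (T a0 a1 a2)^[j] (n (t + j)) = n t := by
  induction j with
  | zero => rfl
  | succ j ih =>
    rw [Function.iterate_succ_apply, ← add_assoc, h, ih]

theorem mainF_gen (hPER : PER) (hCOUNT : COUNT) (hMERGE : MERGE) (h2 : 0 < a2)
    (hP : Par a0 a1 a2) (hroot : (a2 : ℂ) * α ^ 2 + a1 * α + a0 = 0) (him : α.im ≠ 0)
    (hα : 1 < ‖α‖) (hx : Gnr a1 a2 α x) (h : IsGenExp a0 a1 a2 α x k N d) (ℓ : ℕ)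
    (w : Fin ℓ → ℤ) (hw : ∀ i, 0 ≤ w i ∧ w i < |a0|) :
    HasFreq d ℓ w (1 / (|a0| : ℝ) ^ ℓ) := by
  classical
  have ha0 : 0 < a0 := hP.pos.trans hP.lt
  have ha0' : (0 : ℝ) < a0 := by exact_mod_cast ha0
  rw [abs_of_pos ha0] at hw
  rw [abs_of_pos ha0']
  have hdig : ∀ t, 0 ≤ d t ∧ d t < a0 := by
    intro t
    have := h.digit t
    rwa [abs_of_pos ha0] at this
  -- coordinates
  have hn : ∀ t, ∃ n : ℤ × ℤ, N t = toC a1 a2 α n := by
    intro t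
    obtain ⟨u, v, huv⟩ := h.mem t
    exact ⟨(u, v), huv⟩
  choose n hn using hn
  have hT : ∀ t, T a0 a1 a2 (n (t + 1)) = n t ∧ dg a0 a1 a2 (n (t + 1)) = d t := by
    intro t
    refine step_eq h2 him hroot (n t) (n (t + 1)) (d t) (hdig t).1 (hdig t).2 ?_
    rw [← hn, ← hn, h.step]
  obtain ⟨E, hE⟩ := closeF (a0 := a0) (a1 := a1) h2 him hα
  have hclose : ∀ t : ℕ, n t - fl a1 a2 α (α ^ ((t : ℤ) - k - 1) * x) ∈ E := by
    intro t
    refine hE _ _ ?_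
    rw [← hn]
    exact h.dist hα t
  unfold HasFreq
  rw [Metric.tendsto_atTop]
  intro ε hε
  obtain ⟨j, hj⟩ := hMERGE a0 a1 a2 hP E (ε / 4) (by linarith)
  set r : ℤ := (ℓ : ℤ) + j - k - 1 with hr
  set P : ℕ → ℤ × ℤ := fun t => fl a1 a2 α (α ^ ((t : ℤ) + r) * x) with hPdef
  have fW := freq_per hx a0 ha0 (j + ℓ) (WdF a0 a1 a2 ℓ j w)
    (fun N M => Wd_per hPER hP ℓ j w N M) r
  rw [Wd_card hCOUNT hP ℓ j w hw] at fW
  have fB := freq_per hx a0 ha0 j (BadF a0 a1 a2 E j) (fun N M => Bad_per ha0 E j N M) r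
  have hB : (((box a0 j).filter (BadF a0 a1 a2 E j)).card : ℝ) / (a0 : ℝ) ^ (2 * j) ≤ ε / 4 := by
    rw [div_le_iff₀ (by positivity)]
    refine le_trans (le_of_eq ?_) hj
    congr 2
    ext N
    simp only [Finset.mem_filter, BadF]
  -- the comparison
  have hcmp : ∀ t : ℕ, ¬ BadF a0 a1 a2 E j (P t) →
      ((∀ i : Fin ℓ, d (t + i) = w i) ↔ WdF a0 a1 a2 ℓ j w (P t)) := by
    intro t hb
    have hδ := hclose (t + ℓ + j)
    have hPt : fl a1 a2 α (α ^ (((t + ℓ + j : ℕ) : ℤ) - k - 1) * x) = P t := by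
      simp only [hPdef]
      congr 3
      rw [hr]
      push_cast
      ring
    rw [hPt] at hδ
    have h3 : (T a0 a1 a2)^[j] (P t) = n (t + ℓ) := by
      by_contra hne
      apply hb
      refine ⟨_, hδ, fun he => hne ?_⟩
      rw [← he, add_sub_cancel, TF_iter_n (fun t => (hT t).1)]
    unfold WdF
    refine forall_congr' fun i => ?_
    have hi := i.2
    have h4 : d (t + i) = dg a0 a1 a2 ((T a0 a1 a2)^[(ℓ - 1 - i) + j] (P t)) := by
      rw [Function.iterate_add_apply, h3]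
      have h5 : t + ℓ = (t + i + 1) + (ℓ - 1 - i) := by omega
      rw [h5, TF_iter_n (fun t => (hT t).1), (hT _).2]
    rw [h4]
  rw [Metric.tendsto_atTop] at fW fB
  obtain ⟨n1, hn1⟩ := fW (ε / 4) (by linarith)
  obtain ⟨n2, hn2⟩ := fB (ε / 4) (by linarith)
  refine ⟨max (max n1 n2) 1, fun m hm => ?_⟩
  have hm1 := hn1 m (le_trans (le_trans (le_max_left _ _) (le_max_left _ _)) hm)
  have hm2 := hn2 m (le_trans (le_trans (le_max_right _ _) (le_max_left _ _)) hm)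
  have hm3 : 0 < m := lt_of_lt_of_le one_pos (le_trans (le_max_right _ _) hm)
  have hm3' : (0 : ℝ) < m := by exact_mod_cast hm3
  rw [Real.dist_eq] at hm1 hm2 ⊢
  set cw := ((Finset.range m).filter (fun t => ∀ i : Fin ℓ, d (t + i) = w i)).card with hcw
  set cW := ((Finset.range m).filter (fun t : ℕ => WdF a0 a1 a2 ℓ j w
    (fl a1 a2 α (α ^ ((t : ℤ) + r) * x)))).card with hcW
  set cB := ((Finset.range m).filter (fun t : ℕ => BadF a0 a1 a2 E j
    (fl a1 a2 α (α ^ ((t : ℤ) + r) * x)))).card with hcB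
  have i1 : cw ≤ cW + cB := by
    rw [hcw, hcW, hcB]
    refine le_trans (Finset.card_le_card ?_) (Finset.card_union_le _ _)
    intro t ht
    have ht' := Finset.mem_filter.1 ht
    by_cases hb : BadF a0 a1 a2 E j (P t)
    · exact Finset.mem_union_right _ (Finset.mem_filter.2 ⟨ht'.1, hb⟩)
    · exact Finset.mem_union_left _ (Finset.mem_filter.2 ⟨ht'.1, (hcmp t hb).1 ht'.2⟩)
  have i2 : cW ≤ cw + cB := by
    rw [hcw, hcW, hcB]
    refine le_trans (Finset.card_le_card ?_) (Finset.card_union_le _ _)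
    intro t ht
    have ht' := Finset.mem_filter.1 ht
    by_cases hb : BadF a0 a1 a2 E j (P t)
    · exact Finset.mem_union_right _ (Finset.mem_filter.2 ⟨ht'.1, hb⟩)
    · exact Finset.mem_union_left _ (Finset.mem_filter.2 ⟨ht'.1, (hcmp t hb).2 ht'.2⟩)
  have i3 : |(cw : ℝ) / m - (cW : ℝ) / m| ≤ (cB : ℝ) / m := by
    rw [← sub_div, abs_div, abs_of_pos hm3']
    refine div_le_div_of_nonneg_right ?_ hm3'.le
    have j1 : (cw : ℝ) ≤ cW + cB := by exact_mod_cast i1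
    have j2 : (cW : ℝ) ≤ cw + cB := by exact_mod_cast i2
    rw [abs_le]
    constructor <;> linarith
  have k1 := abs_lt.1 hm1
  have k2 := abs_lt.1 hm2
  have k3 := abs_le.1 i3
  rw [abs_lt]
  constructor <;> linarith [k1.1, k1.2, k2.1, k2.2, k3.1, k3.2]

/-- the main theorem, from the pieces -/
theorem mainF (hPER : PER) (hCOUNT : COUNT) (hMERGE : MERGE) (hA : AEW) (hF : FLO)
    (a0 a1 a2 : ℤ) (α : ℂ)
    (h2 : 0 < a2) (hg : ∀ c : ℤ, c ∣ a0 → c ∣ a1 → c ∣ a2 → IsUnit c)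
    (hroot : (a2 : ℂ) * α ^ 2 + a1 * α + a0 = 0) (him : α.im ≠ 0) (hα : 1 < ‖α‖) :
    ∀ᵐ x : ℂ,
      (∀ (k : ℤ) (d : ℕ → ℤ), IsExp a0 a1 a2 α x k d →
        ∀ (ℓ : ℕ) (w : Fin ℓ → ℤ), (∀ i, 0 ≤ w i ∧ w i < |a0|) →
          HasFreq d ℓ w (1 / (|a0| : ℝ) ^ ℓ)) ∧
      (∀ (k : ℤ) (N : ℕ → ℂ) (d : ℕ → ℤ), IsGenExp a0 a1 a2 α x k N d →
        ∀ (ℓ : ℕ) (w : Fin ℓ → ℤ), (∀ i, 0 ≤ w i ∧ w i < |a0|) →
          HasFreq d ℓ w (1 / (|a0| : ℝ) ^ ℓ)) := by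
  have hP := par_of h2 hg hroot him hα
  have hα0 : α ≠ 0 := by
    intro h0
    rw [h0, norm_zero] at hα
    linarith
  filter_upwards [ae_gnr hA hF (a1 := a1) h2 him hα] with x hx
  refine ⟨fun k d h ℓ w hw => ?_, fun k N d h ℓ w hw => ?_⟩
  · exact mainF_gen hPER hCOUNT hMERGE h2 hP hroot him hα hx (h.gen hα0) ℓ w hw
  · exact mainF_gen hPER hCOUNT hMERGE h2 hP hroot him hα hx h ℓ w hw

end Main

end Pool.Agent.R499.GB
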