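import Pool.Agent.R499.GB.Stm

/-! Project GB: piece FLO (from Weyl sums to residue classes of the integer parts). -/

set_option autoImplicit false

namespace Pool.Agent.R499.GB

open Filter Topology MeasureTheory

namespace Flo

/-- Haar measure on the circle -/
noncomputable abbrev hm : Measure UnitAddCircle := AddCircle.haarAddCircle (T := 1)

lemma cint (f : C(UnitAddCircle, ℂ)) : Integrable (fun z => f z) hm :=
  (map_continuous f).integrable_of_hasCompactSupport (HasCompactSupport.of_compactSpace _)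

lemma int_fourier (m : ℤ) : ∫ z, (fourier m : C(UnitAddCircle, ℂ)) z ∂hm = if m = 0 then 1 else 0 := by
  have e1 : fourierCoeff (T := 1) (fourier m : C(UnitAddCircle, ℂ)) 0 =
      ∫ z, (fourier m : C(UnitAddCircle, ℂ)) z ∂AddCircle.haarAddCircle := by
    simp [fourierCoeff]
  rw [← e1, fourierCoeff_fourier]
  by_cases hm : m = 0
  · rw [if_pos hm, hm, Pi.single_eq_same]
  · rw [if_neg hm, Pi.single_eq_of_ne (Ne.symm hm)]

/-- convergence of bounded linear functionals from convergence on characters -/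
lemma dens (L : ℕ → (C(UnitAddCircle, ℂ) →ₗ[ℂ] ℂ)) (I : C(UnitAddCircle, ℂ) →ₗ[ℂ] ℂ) (K : ℝ)
    (hK : 0 ≤ K) (hL : ∀ n f, ‖L n f‖ ≤ K * ‖f‖) (hI : ∀ f, ‖I f‖ ≤ K * ‖f‖)
    (h : ∀ k : ℤ, Tendsto (fun n => L n (fourier k)) atTop (𝓝 (I (fourier k)))) :
    ∀ f, Tendsto (fun n => L n f) atTop (𝓝 (I f)) := by
  intro f
  have hspan : ∀ p ∈ Submodule.span ℂ (Set.range (fourier (T := 1))),
      Tendsto (fun n => L n p) atTop (𝓝 (I p)) := by
    intro p hp
    induction hp using Submodule.span_induction with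
    | mem p hp =>
      obtain ⟨m, rfl⟩ := hp
      exact h m
    | zero => simp
    | add p q _ _ hp hq =>
      simp_rw [map_add]
      exact hp.add hq
    | smul c p _ hp =>
      simp_rw [map_smul]
      exact hp.const_smul c
  rw [Metric.tendsto_atTop]
  intro ε hε
  have h3 : f ∈ (Submodule.span ℂ (Set.range (fourier (T := 1)))).topologicalClosure := by
    rw [span_fourier_closure_eq_top]
    trivial
  have h4 : f ∈ closure ((Submodule.span ℂ (Set.range (fourier (T := 1))) : Submodule ℂ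
      C(UnitAddCircle, ℂ)) : Set C(UnitAddCircle, ℂ)) := h3
  rw [Metric.mem_closure_iff] at h4
  obtain ⟨p, hp, hFp⟩ := h4 (ε / (3 * (K + 1))) (by positivity)
  obtain ⟨N₀, hN₀⟩ := Metric.tendsto_atTop.1 (hspan p hp) (ε / 3) (by positivity)
  refine ⟨N₀, fun N hN => ?_⟩
  have h5 := hN₀ N hN
  rw [dist_eq_norm] at h5 hFp ⊢
  have h6 : K * ‖f - p‖ ≤ ε / 3 := by
    have : K * ‖f - p‖ ≤ (K + 1) * (ε / (3 * (K + 1))) := by
      apply mul_le_mul (by linarith) hFp.le (norm_nonneg _) (by linarith)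
    have h7 : (K + 1) * (ε / (3 * (K + 1))) = ε / 3 := by
      have : K + 1 ≠ 0 := by linarith
      field_simp
    linarith
  have h8 : ‖L N f - L N p‖ ≤ ε / 3 := by
    rw [← map_sub]
    exact (hL N _).trans h6
  have h9 : ‖I f - I p‖ ≤ ε / 3 := by
    rw [← map_sub]
    exact (hI _).trans h6
  calc ‖L N f - I f‖ = ‖(L N f - L N p) + (L N p - I p) - (I f - I p)‖ := by congr 1; ring
    _ ≤ ‖(L N f - L N p) + (L N p - I p)‖ + ‖I f - I p‖ := norm_sub_le _ _
    _ ≤ ‖L N f - L N p‖ + ‖L N p - I p‖ + ‖I f - I p‖ := by gcongr; exact norm_add_le _ _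
    _ < ε := by linarith

/-- the averages in the first variable -/
noncomputable def LM (x y : ℕ → ℝ) (g : C(UnitAddCircle, ℂ)) (n : ℕ) :
    C(UnitAddCircle, ℂ) →ₗ[ℂ] ℂ where
  toFun := fun f => (∑ m ∈ Finset.range n, f (x m : UnitAddCircle) * g (y m : UnitAddCircle)) / (n : ℂ)
  map_add' := by
    intro f f'
    simp only [ContinuousMap.add_apply, add_mul, Finset.sum_add_distrib, add_div]
  map_smul' := by
    intro c f
    simp only [ContinuousMap.smul_apply, smul_eq_mul, RingHom.id_apply, mul_assoc, ← Finset.mul_sum,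
      mul_div_assoc]

/-- the limit functional -/
noncomputable def IM (c : ℂ) : C(UnitAddCircle, ℂ) →ₗ[ℂ] ℂ where
  toFun := fun f => (∫ z, f z ∂hm) * c
  map_add' := by
    intro f f'
    simp only [ContinuousMap.add_apply]
    rw [integral_add (cint f) (cint f'), add_mul]
  map_smul' := by
    intro a f
    simp only [ContinuousMap.smul_apply, smul_eq_mul, RingHom.id_apply]
    rw [integral_const_mul, mul_assoc]

lemma norm_int (f : C(UnitAddCircle, ℂ)) : ‖∫ z, f z ∂hm‖ ≤ ‖f‖ := by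
  refine (norm_integral_le_of_norm_le_const (C := ‖f‖)
    (ae_of_all _ fun z => f.norm_coe_le_norm z)).trans ?_
  simp

lemma norm_LM (x y : ℕ → ℝ) (g f : C(UnitAddCircle, ℂ)) (n : ℕ) : ‖LM x y g n f‖ ≤ ‖g‖ * ‖f‖ := by
  show ‖(∑ m ∈ Finset.range n, f (x m : UnitAddCircle) * g (y m : UnitAddCircle)) / (n : ℂ)‖ ≤ _
  rw [norm_div, Complex.norm_natCast]
  rcases Nat.eq_zero_or_pos n with h0 | h0
  · subst h0
    simp only [Nat.cast_zero, div_zero]
    positivity
  · have h1 : (0 : ℝ) < n := by exact_mod_cast h0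
    rw [div_le_iff₀ h1]
    refine (norm_sum_le _ _).trans ?_
    calc ∑ m ∈ Finset.range n, ‖f (x m : UnitAddCircle) * g (y m : UnitAddCircle)‖ ≤
        ∑ _m ∈ Finset.range n, ‖g‖ * ‖f‖ := by
          apply Finset.sum_le_sum
          intro m _
          rw [norm_mul, mul_comm]
          exact mul_le_mul (g.norm_coe_le_norm _) (f.norm_coe_le_norm _) (norm_nonneg _)
            (norm_nonneg _)
      _ = ‖g‖ * ‖f‖ * n := by
        rw [Finset.sum_const, Finset.card_range, nsmul_eq_mul]; ring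

lemma norm_IM (c : ℂ) (f : C(UnitAddCircle, ℂ)) : ‖IM c f‖ ≤ ‖c‖ * ‖f‖ := by
  show ‖(∫ z, f z ∂hm) * c‖ ≤ _
  rw [norm_mul, mul_comm]
  exact mul_le_mul_of_nonneg_left (norm_int f) (norm_nonneg _)

/-- the two-dimensional Weyl criterion for product functions -/
lemma prod_mean (x y : ℕ → ℝ)
    (hW : ∀ h k : ℤ, (h, k) ≠ (0, 0) → Tendsto (fun n : ℕ => (∑ m ∈ Finset.range n,
      (fourier h : C(UnitAddCircle, ℂ)) (x m : UnitAddCircle) *
      (fourier k : C(UnitAddCircle, ℂ)) (y m : UnitAddCircle)) / (n : ℂ)) atTop (𝓝 0))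
    (f g : C(UnitAddCircle, ℂ)) :
    Tendsto (fun n : ℕ => (∑ m ∈ Finset.range n, f (x m : UnitAddCircle) * g (y m : UnitAddCircle)) /
      (n : ℂ)) atTop (𝓝 ((∫ z, f z ∂hm) * ∫ z, g z ∂hm)) := by
  have h1 : ∀ (k : ℤ) (f : C(UnitAddCircle, ℂ)), Tendsto (fun n : ℕ => (∑ m ∈ Finset.range n,
      f (x m : UnitAddCircle) * (fourier k : C(UnitAddCircle, ℂ)) (y m : UnitAddCircle)) /
      (n : ℂ)) atTop (𝓝 ((∫ z, f z ∂hm) * ∫ z, (fourier k : C(UnitAddCircle, ℂ)) z ∂hm)) := by
    intro k f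
    have := dens (fun n => LM x y (fourier k) n)
      (IM (∫ z, (fourier k : C(UnitAddCircle, ℂ)) z ∂hm)) ‖(fourier k : C(UnitAddCircle, ℂ))‖
      (norm_nonneg _) (fun n f => norm_LM x y _ f n)
      (fun f => (norm_IM _ f).trans (mul_le_mul_of_nonneg_right (norm_int _) (norm_nonneg _))) (by
        intro h
        show Tendsto (fun n : ℕ => (∑ m ∈ Finset.range n,
          (fourier h : C(UnitAddCircle, ℂ)) (x m : UnitAddCircle) *
          (fourier k : C(UnitAddCircle, ℂ)) (y m : UnitAddCircle)) / (n : ℂ)) atTop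
          (𝓝 ((∫ z, (fourier h : C(UnitAddCircle, ℂ)) z ∂hm) *
            ∫ z, (fourier k : C(UnitAddCircle, ℂ)) z ∂hm))
        rw [int_fourier, int_fourier]
        by_cases hhk : (h, k) = (0, 0)
        · have hh : h = 0 := congrArg Prod.fst hhk
          have hk : k = 0 := congrArg Prod.snd hhk
          subst hh
          subst hk
          simp only [if_true, mul_one]
          refine tendsto_const_nhds.congr' ?_
          filter_upwards [eventually_gt_atTop 0] with N hN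
          have : (N : ℂ) ≠ 0 := by exact_mod_cast hN.ne'
          simp [this]
        · have : (if h = 0 then (1 : ℂ) else 0) * (if k = 0 then 1 else 0) = 0 := by
            by_cases hh : h = 0
            · by_cases hk : k = 0
              · exact absurd (by rw [hh, hk]) hhk
              · rw [if_neg hk, mul_zero]
            · rw [if_neg hh, zero_mul]
          rw [this]
          exact hW h k hhk) f
    exact this
  have h2 := dens (fun n => LM y x f n) (IM (∫ z, f z ∂hm)) ‖f‖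
      (norm_nonneg _) (fun n g => norm_LM y x _ g n)
      (fun g => (norm_IM _ g).trans (mul_le_mul_of_nonneg_right (norm_int _) (norm_nonneg _))) (by
        intro k
        show Tendsto (fun n : ℕ => (∑ m ∈ Finset.range n,
          (fourier k : C(UnitAddCircle, ℂ)) (y m : UnitAddCircle) * f (x m : UnitAddCircle)) /
          (n : ℂ)) atTop (𝓝 ((∫ z, (fourier k : C(UnitAddCircle, ℂ)) z ∂hm) * ∫ z, f z ∂hm))
        have := h1 k f
        rw [mul_comm] at this
        refine this.congr ?_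
        intro n
        congr 1
        apply Finset.sum_congr rfl
        intro m _
        ring) g
  have h3 : Tendsto (fun n : ℕ => (∑ m ∈ Finset.range n, g (y m : UnitAddCircle) *
      f (x m : UnitAddCircle)) / (n : ℂ)) atTop (𝓝 ((∫ z, g z ∂hm) * ∫ z, f z ∂hm)) := h2
  rw [mul_comm] at h3
  refine h3.congr ?_
  intro n
  congr 1
  apply Finset.sum_congr rfl
  intro m _
  ring

theorem dist_coe (x c : ℝ) : dist (x : UnitAddCircle) (c : UnitAddCircle) ≤ |Int.fract x - c| := by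
  have h1 : (x : UnitAddCircle) = (Int.fract x : ℝ) := by
    have h2 : x = Int.fract x + (⌊x⌋ : ℝ) := (Int.fract_add_floor x).symm
    have h3 : ((⌊x⌋ : ℝ) : UnitAddCircle) = 0 := by
      rw [AddCircle.coe_eq_zero_iff]
      exact ⟨⌊x⌋, by simp⟩
    conv_lhs => rw [h2]
    rw [AddCircle.coe_add, h3, add_zero]
  rw [h1, dist_eq_norm, ← AddCircle.coe_sub]
  exact (QuotientAddGroup.norm_mk_le_norm (S := AddSubgroup.zmultiples (1 : ℝ))).trans
    (le_of_eq (Real.norm_eq_abs _))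

/-- a continuous majorant of an arc -/
lemma tent (s t η : ℝ) (hst : s ≤ t) (hη : 0 < η) : ∃ f : UnitAddCircle → ℝ, Continuous f ∧
    (∀ z, 0 ≤ f z) ∧ (∫ z, f z ∂hm ≤ t - s + η) ∧
    ∀ x : ℝ, s ≤ Int.fract x → Int.fract x < t → 1 ≤ f (x : UnitAddCircle) := by
  set c : ℝ := (s + t) / 2 with hc
  set r : ℝ := (t - s) / 2 with hr
  set η' : ℝ := η / 4 with hη'
  have hη'0 : 0 < η' := by positivity
  set f : UnitAddCircle → ℝ := fun z => max 0 (min 1 (1 + (r - dist z (c : UnitAddCircle)) / η')) with hf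
  have hfc : Continuous f := by
    refine continuous_const.max (continuous_const.min ?_)
    exact continuous_const.add ((continuous_const.sub (continuous_id.dist continuous_const)).div_const _)
  have hf0 : ∀ z, 0 ≤ f z := fun z => le_max_left _ _
  have hf1 : ∀ z, f z ≤ 1 := fun z => max_le zero_le_one (min_le_left _ _)
  refine ⟨f, hfc, hf0, ?_, ?_⟩
  · have h1 : ∀ z, f z ≤ Set.indicator (Metric.closedBall (c : UnitAddCircle) (r + η')) (fun _ => (1 : ℝ)) z := by
      intro z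
      by_cases hz : z ∈ Metric.closedBall (c : UnitAddCircle) (r + η')
      · rw [Set.indicator_of_mem hz]
        exact hf1 z
      · rw [Set.indicator_of_notMem hz]
        rw [Metric.mem_closedBall, not_le] at hz
        refine max_le le_rfl ((min_le_right _ _).trans ?_)
        have h2 : (r - dist z (c : UnitAddCircle)) / η' ≤ -1 := by
          rw [div_le_iff₀ hη'0]
          linarith
        linarith
    have h2 : ∫ z, f z ∂(AddCircle.haarAddCircle (T := 1)) ≤
        ∫ z, Set.indicator (Metric.closedBall (c : UnitAddCircle) (r + η')) (fun _ => (1 : ℝ)) z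
          ∂(AddCircle.haarAddCircle (T := 1)) := by
      refine integral_mono ?_ ?_ h1
      · exact hfc.integrable_of_hasCompactSupport (HasCompactSupport.of_compactSpace _)
      · exact (integrable_const 1).indicator measurableSet_closedBall
    have h4 : ∫ z, Set.indicator (Metric.closedBall (c : UnitAddCircle) (r + η')) (fun _ => (1 : ℝ)) z
          ∂(AddCircle.haarAddCircle (T := 1)) ≤ 2 * (r + η') := by
      rw [integral_indicator measurableSet_closedBall, setIntegral_const, smul_eq_mul, mul_one]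
      have h3 : (AddCircle.haarAddCircle (T := 1)) = (volume : Measure UnitAddCircle) := by
        rw [AddCircle.volume_eq_smul_haarAddCircle]
        simp
      rw [h3, Measure.real, AddCircle.volume_closedBall]
      rw [ENNReal.toReal_ofReal]
      · exact min_le_right _ _
      · refine le_min zero_le_one ?_
        have : 0 ≤ r := by rw [hr]; linarith
        positivity
    refine (h2.trans h4).trans ?_
    rw [hr, hη']
    linarith
  · intro x hx1 hx2
    have h1 : dist (x : UnitAddCircle) (c : UnitAddCircle) ≤ r := by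
      refine (dist_coe _ _).trans ?_
      rw [abs_le, hc, hr]
      constructor <;> linarith
    have h2 : 1 ≤ 1 + (r - dist (x : UnitAddCircle) (c : UnitAddCircle)) / η' := by
      have : 0 ≤ (r - dist (x : UnitAddCircle) (c : UnitAddCircle)) / η' :=
        div_nonneg (by linarith) hη'0.le
      linarith
    exact le_max_of_le_right (le_min le_rfl h2)

/-- upper bound for the frequency of a product of arcs -/
lemma upper2 (x y : ℕ → ℝ)
    (hW : ∀ h k : ℤ, (h, k) ≠ (0, 0) → Tendsto (fun n : ℕ => (∑ m ∈ Finset.range n,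
      (fourier h : C(UnitAddCircle, ℂ)) (x m : UnitAddCircle) *
      (fourier k : C(UnitAddCircle, ℂ)) (y m : UnitAddCircle)) / (n : ℂ)) atTop (𝓝 0))
    (s t s' t' : ℝ) (hst : s ≤ t) (hst' : s' ≤ t') (A : ℝ) (hA : (t - s) * (t' - s') < A) :
    ∀ᶠ n : ℕ in atTop, (((Finset.range n).filter (fun m => (s ≤ Int.fract (x m) ∧
      Int.fract (x m) < t) ∧ (s' ≤ Int.fract (y m) ∧ Int.fract (y m) < t'))).card : ℝ) ≤ A * n := by
  obtain ⟨η, hη, hηA⟩ : ∃ η : ℝ, 0 < η ∧ (t - s + η) * (t' - s' + η) < A := by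
    have hc : ContinuousAt (fun η : ℝ => (t - s + η) * (t' - s' + η)) 0 := by fun_prop
    have h1 : ∀ᶠ η in 𝓝 (0 : ℝ), (t - s + η) * (t' - s' + η) < A := by
      apply hc.eventually (gt_mem_nhds _)
      simpa using hA
    obtain ⟨ε, hε, h2⟩ := Metric.eventually_nhds_iff.1 h1
    refine ⟨ε / 2, by positivity, h2 ?_⟩
    rw [Real.dist_eq, sub_zero, abs_of_pos (by positivity)]
    linarith
  obtain ⟨f, hfc, hf0, hfi, hf1⟩ := tent s t η hst hη
  obtain ⟨g, hgc, hg0, hgi, hg1⟩ := tent s' t' η hst' hη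
  set F : C(UnitAddCircle, ℂ) := ⟨fun z => (f z : ℂ), Complex.continuous_ofReal.comp hfc⟩ with hF
  set G : C(UnitAddCircle, ℂ) := ⟨fun z => (g z : ℂ), Complex.continuous_ofReal.comp hgc⟩ with hG
  have hm1 := prod_mean x y hW F G
  have hintF : ∫ z, F z ∂hm = ((∫ z, f z ∂hm : ℝ) : ℂ) := integral_ofReal
  have hintG : ∫ z, G z ∂hm = ((∫ z, g z ∂hm : ℝ) : ℂ) := integral_ofReal
  have hm2 : Tendsto (fun n : ℕ => (∑ m ∈ Finset.range n, f (x m : UnitAddCircle) *
      g (y m : UnitAddCircle)) / (n : ℝ)) atTop (𝓝 ((∫ z, f z ∂hm) * ∫ z, g z ∂hm)) := by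
    rw [hintF, hintG] at hm1
    have h1 := (Complex.continuous_re.tendsto _).comp hm1
    rw [← Complex.ofReal_mul, Complex.ofReal_re] at h1
    refine h1.congr fun n => ?_
    simp only [Function.comp_apply, hF, hG, ContinuousMap.coe_mk]
    have : (∑ m ∈ Finset.range n, (f (x m : UnitAddCircle) : ℂ) * (g (y m : UnitAddCircle) : ℂ)) / (n : ℂ) =
        (((∑ m ∈ Finset.range n, f (x m : UnitAddCircle) * g (y m : UnitAddCircle)) / (n : ℝ) : ℝ) : ℂ) := by
      push_cast
      rfl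
    rw [this, Complex.ofReal_re]
  have hlim : (∫ z, f z ∂hm) * ∫ z, g z ∂hm < A := by
    refine lt_of_le_of_lt ?_ hηA
    apply mul_le_mul hfi hgi (integral_nonneg hg0)
    linarith
  have hev := hm2.eventually (gt_mem_nhds hlim)
  filter_upwards [hev, eventually_gt_atTop 0] with n hn hn0
  have hn0' : (0 : ℝ) < n := by exact_mod_cast hn0
  rw [div_lt_iff₀ hn0'] at hn
  refine le_trans ?_ hn.le
  rw [Finset.card_filter]
  push_cast
  refine Finset.sum_le_sum fun m _ => ?_
  split_ifs with h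
  · have h1 := hf1 (x m) h.1.1 h.1.2
    have h2 := hg1 (y m) h.2.1 h.2.2
    nlinarith
  · exact mul_nonneg (hf0 _) (hg0 _)

lemma fract_class (Q : ℕ) (hQ : 0 < Q) (w : ℝ) :
    ((⌊w⌋ % (Q : ℤ) : ℤ) : ℝ) / Q ≤ Int.fract (w / Q) ∧
    Int.fract (w / Q) < (((⌊w⌋ % (Q : ℤ) : ℤ) : ℝ) + 1) / Q := by
  have hQ' : (0 : ℝ) < Q := by exact_mod_cast hQ
  have hQz : (0 : ℤ) < Q := by exact_mod_cast hQ
  set r := ⌊w⌋ % (Q : ℤ) with hr
  have hr0 : 0 ≤ r := Int.emod_nonneg _ hQz.ne'
  have hr1 : r + 1 ≤ Q := Int.emod_lt_of_pos _ hQz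
  have h1 : (⌊w⌋ : ℝ) = r + Q * ((⌊w⌋ / (Q : ℤ) : ℤ) : ℝ) := by
    have := Int.emod_add_mul_ediv ⌊w⌋ (Q : ℤ)
    exact_mod_cast this.symm
  have h2 : w = ⌊w⌋ + Int.fract w := (Int.floor_add_fract w).symm
  have hf0 := Int.fract_nonneg w
  have hf1 := Int.fract_lt_one w
  have hr0' : (0 : ℝ) ≤ r := by exact_mod_cast hr0
  have hr1' : (r : ℝ) + 1 ≤ Q := by exact_mod_cast hr1
  have h3 : Int.fract (w / Q) = (r + Int.fract w) / Q := by
    rw [Int.fract_eq_iff]
    refine ⟨by positivity, ?_, ⌊w⌋ / (Q : ℤ), ?_⟩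
    · rw [div_lt_one hQ']
      linarith
    · rw [← sub_div, div_eq_iff hQ'.ne']
      linarith
  rw [h3]
  constructor
  · gcongr
    linarith
  · gcongr

end Flo

open Flo

theorem t_FLO : FLO := by
  intro u v hW Q hQ r s
  have hQ' : (0 : ℝ) < Q := by exact_mod_cast hQ
  have hQz : (0 : ℤ) < Q := by exact_mod_cast hQ
  have hWQ : ∀ h k : ℤ, (h, k) ≠ (0, 0) → Tendsto (fun n : ℕ => (∑ m ∈ Finset.range n,
      (fourier h : C(UnitAddCircle, ℂ)) ((u m / Q : ℝ) : UnitAddCircle) *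
      (fourier k : C(UnitAddCircle, ℂ)) ((v m / Q : ℝ) : UnitAddCircle)) / (n : ℂ)) atTop (𝓝 0) := by
    intro h k hhk
    refine (hW Q hQ h k hhk).congr ?_
    intro n
    congr 1
    apply Finset.sum_congr rfl
    intro m _
    rw [fourier_coe_apply, fourier_coe_apply, ← Complex.exp_add]
    unfold e
    congr 1
    push_cast
    ring
  set cl : ℕ → ℤ × ℤ := fun m => (⌊u m⌋ % (Q : ℤ), ⌊v m⌋ % (Q : ℤ)) with hcl
  set P : Finset (ℤ × ℤ) := Finset.Ico 0 (Q : ℤ) ×ˢ Finset.Ico 0 (Q : ℤ) with hP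
  have hmap : ∀ n, ∀ m ∈ Finset.range n, cl m ∈ P := by
    intro n m _
    rw [hP, Finset.mem_product, Finset.mem_Ico, Finset.mem_Ico]
    exact ⟨⟨Int.emod_nonneg _ hQz.ne', Int.emod_lt_of_pos _ hQz⟩,
      ⟨Int.emod_nonneg _ hQz.ne', Int.emod_lt_of_pos _ hQz⟩⟩
  set c : ℤ × ℤ → ℕ → ℕ := fun p n => ((Finset.range n).filter (fun m => cl m = p)).card with hcdef
  have hsum : ∀ n, n = ∑ p ∈ P, c p n := by
    intro n
    have := Finset.card_eq_sum_card_fiberwise (hmap n)
    rwa [Finset.card_range] at this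
  have hup : ∀ p ∈ P, ∀ A : ℝ, 1 / (Q : ℝ) ^ 2 < A → ∀ᶠ n : ℕ in atTop, (c p n : ℝ) ≤ A * n := by
    intro p hp A hA
    have h1 := upper2 (fun m => u m / Q) (fun m => v m / Q) hWQ ((p.1 : ℝ) / Q) (((p.1 : ℝ) + 1) / Q)
      ((p.2 : ℝ) / Q) (((p.2 : ℝ) + 1) / Q) (by gcongr; linarith) (by gcongr; linarith) A (by
        have : (((p.1 : ℝ) + 1) / Q - (p.1 : ℝ) / Q) * (((p.2 : ℝ) + 1) / Q - (p.2 : ℝ) / Q) =
            1 / (Q : ℝ) ^ 2 := by
          field_simp
          ring
        rw [this]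
        exact hA)
    filter_upwards [h1] with n hn
    refine le_trans ?_ hn
    have : c p n ≤ ((Finset.range n).filter (fun m => ((p.1 : ℝ) / Q ≤ Int.fract (u m / Q) ∧
      Int.fract (u m / Q) < ((p.1 : ℝ) + 1) / Q) ∧ ((p.2 : ℝ) / Q ≤ Int.fract (v m / Q) ∧
      Int.fract (v m / Q) < ((p.2 : ℝ) + 1) / Q))).card := by
      apply Finset.card_le_card
      intro m hm
      rw [Finset.mem_filter] at hm ⊢
      refine ⟨hm.1, ?_⟩
      have e1 : ⌊u m⌋ % (Q : ℤ) = p.1 := congrArg Prod.fst hm.2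
      have e2 : ⌊v m⌋ % (Q : ℤ) = p.2 := congrArg Prod.snd hm.2
      have f1 := fract_class Q hQ (u m)
      have f2 := fract_class Q hQ (v m)
      rw [e1] at f1
      rw [e2] at f2
      exact ⟨f1, f2⟩
    exact_mod_cast this
  have hcard : (P.card : ℝ) = (Q : ℝ) ^ 2 := by
    rw [hP, Finset.card_product, Int.card_Ico]
    simp
    ring
  have hmain : ∀ p ∈ P, Tendsto (fun n : ℕ => (c p n : ℝ) / n) atTop (𝓝 (1 / (Q : ℝ) ^ 2)) := by
    intro p hp
    rw [Metric.tendsto_atTop']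
    intro ε hε
    have hη : 0 < ε / (2 * (Q : ℝ) ^ 2) := by positivity
    have hall : ∀ᶠ n : ℕ in atTop, ∀ p' ∈ P, (c p' n : ℝ) ≤
        (1 / (Q : ℝ) ^ 2 + ε / (2 * (Q : ℝ) ^ 2)) * n := by
      rw [Filter.eventually_all_finset]
      intro p' hp'
      exact hup p' hp' _ (by linarith)
    obtain ⟨N0, hN0⟩ := eventually_atTop.1 (hall.and (eventually_gt_atTop 0))
    refine ⟨N0, fun n hn => ?_⟩
    obtain ⟨h1, h2⟩ := hN0 n hn.le
    have hn0 : (0 : ℝ) < n := by exact_mod_cast h2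
    have hQ1 : (1 : ℝ) ≤ (Q : ℝ) ^ 2 := by
      have : (1 : ℝ) ≤ Q := by exact_mod_cast hQ
      nlinarith
    have h3 : (n : ℝ) = c p n + ∑ p' ∈ P.erase p, (c p' n : ℝ) := by
      rw [Finset.add_sum_erase P (fun p' => (c p' n : ℝ)) hp]
      exact_mod_cast hsum n
    have h4 : ∑ p' ∈ P.erase p, (c p' n : ℝ) ≤
        ((Q : ℝ) ^ 2 - 1) * ((1 / (Q : ℝ) ^ 2 + ε / (2 * (Q : ℝ) ^ 2)) * n) := by
      refine (Finset.sum_le_sum fun p' hp' => h1 p' (Finset.mem_of_mem_erase hp')).trans ?_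
      rw [Finset.sum_const, Finset.card_erase_of_mem hp, nsmul_eq_mul]
      have : ((P.card - 1 : ℕ) : ℝ) = (Q : ℝ) ^ 2 - 1 := by
        have hpos : 1 ≤ P.card := Finset.card_pos.2 ⟨p, hp⟩
        push_cast [Nat.cast_sub hpos]
        rw [hcard]
      rw [this]
    have h5 := h1 p hp
    rw [Real.dist_eq, abs_lt]
    have hexp : ((Q : ℝ) ^ 2 - 1) * ((1 / (Q : ℝ) ^ 2 + ε / (2 * (Q : ℝ) ^ 2)) * n) =
        (n : ℝ) - (1 / (Q : ℝ) ^ 2) * n + (ε / 2 - ε / (2 * (Q : ℝ) ^ 2)) * n := by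
      field_simp
    have h6 : ε / (2 * (Q : ℝ) ^ 2) ≤ ε / 2 := by
      apply div_le_div_of_nonneg_left hε.le (by norm_num)
      linarith
    constructor
    · rw [neg_lt_sub_iff_lt_add, ← sub_lt_iff_lt_add', lt_div_iff₀ hn0]
      have h7 : (0 : ℝ) < ε * n := by positivity
      have h8 : (0 : ℝ) < ε / (2 * (Q : ℝ) ^ 2) * n := by positivity
      nlinarith
    · rw [sub_lt_iff_lt_add', div_lt_iff₀ hn0]
      have h7 : (0 : ℝ) < ε * n := by positivity
      have h8 : ε / (2 * (Q : ℝ) ^ 2) * n ≤ ε / 2 * n := mul_le_mul_of_nonneg_right h6 hn0.le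
      nlinarith
  have hp0 : (r % (Q : ℤ), s % (Q : ℤ)) ∈ P := by
    rw [hP, Finset.mem_product, Finset.mem_Ico, Finset.mem_Ico]
    exact ⟨⟨Int.emod_nonneg _ hQz.ne', Int.emod_lt_of_pos _ hQz⟩,
      ⟨Int.emod_nonneg _ hQz.ne', Int.emod_lt_of_pos _ hQz⟩⟩
  refine (hmain _ hp0).congr ?_
  intro n
  congr 2
  simp only [hcdef, hcl]
  congr 1
  apply Finset.filter_congr
  intro m _
  rw [Prod.mk.injEq]
  have key : ∀ a b : ℤ, (a % (Q : ℤ) = b % (Q : ℤ)) ↔ (Q : ℤ) ∣ a - b := by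
    intro a b
    rw [eq_comm]
    exact Int.modEq_iff_dvd
  rw [key, key]

end Pool.Agent.R499.GB
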