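import Pool.Agent.R499.GB.Stm

/-! Project GB, piece MERGE: merging of orbits, from COUNT, FIN and REACH. -/

set_option autoImplicit false

namespace Pool.Agent.R499.GB

open Filter Topology

namespace Merge

variable {a0 a1 a2 : ℤ}

theorem T_add (h : 0 < a0) (N δ : ℤ × ℤ) :
    T a0 a1 a2 (N + δ) = T a0 a1 a2 N + st a0 a1 a2 (dg a0 a1 a2 N) δ := by
  unfold T st dg
  refine Prod.ext ?_ ?_
  · simp
  · simp only [Prod.fst_add, Prod.snd_add]
    have e1 : a2 * (N.1 + δ.1) + a1 * (N.2 + δ.2) =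
        ((a2 * N.1 + a1 * N.2) % a0 + (a2 * δ.1 + a1 * δ.2)) +
          a0 * ((a2 * N.1 + a1 * N.2) / a0) := by
      have := Int.emod_add_mul_ediv (a2 * N.1 + a1 * N.2) a0
      linarith
    rw [e1, Int.add_mul_ediv_left _ _ h.ne']
    ring

theorem iter_add (h : 0 < a0) (N δ : ℤ × ℤ) (j : ℕ) :
    (T a0 a1 a2)^[j] (N + δ) = (T a0 a1 a2)^[j] N +
      ch a0 a1 a2 (fun i => dg a0 a1 a2 ((T a0 a1 a2)^[i] N)) δ j := by
  induction j with
  | zero => rfl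
  | succ j ih =>
    rw [Function.iterate_succ_apply', ih, T_add h, Function.iterate_succ_apply']
    rfl

theorem ch_congr (d d' : ℕ → ℤ) (δ : ℤ × ℤ) (n : ℕ) (h : ∀ i < n, d i = d' i) :
    ch a0 a1 a2 d δ n = ch a0 a1 a2 d' δ n := by
  induction n with
  | zero => rfl
  | succ n ih =>
    simp only [ch]
    rw [ih (fun i hi => h i (by omega)), h n (by omega)]

theorem ch_succ' (d : ℕ → ℤ) (δ : ℤ × ℤ) (n : ℕ) :
    ch a0 a1 a2 d δ (n + 1) = ch a0 a1 a2 (fun i => d (i + 1)) (st a0 a1 a2 (d 0) δ) n := by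
  induction n with
  | zero => rfl
  | succ n ih =>
    rw [ch, ih]
    rfl

theorem st_zero {d : ℤ} (h1 : 0 ≤ d) (h2 : d < a0) : st a0 a1 a2 d 0 = 0 := by
  unfold st
  refine Prod.ext rfl ?_
  simp only [Prod.fst_zero, Prod.snd_zero, mul_zero, add_zero]
  rw [Int.ediv_eq_zero_of_lt h1 h2]
  rfl

theorem ch_absorb (d : ℕ → ℤ) (hd : ∀ i, 0 ≤ d i ∧ d i < a0) (δ : ℤ × ℤ) (n m : ℕ)
    (h : ch a0 a1 a2 d δ n = 0) : ch a0 a1 a2 d δ (n + m) = 0 := by
  induction m with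
  | zero => exact h
  | succ m ih =>
    rw [← add_assoc, ch, ih, st_zero (hd _).1 (hd _).2]

theorem ch_mem {F : Finset (ℤ × ℤ)}
    (hF : ∀ δ' ∈ F, ∀ d : ℤ, 0 ≤ d → d < a0 → st a0 a1 a2 d δ' ∈ F)
    (d : ℕ → ℤ) (hd : ∀ i, 0 ≤ d i ∧ d i < a0) (δ : ℤ × ℤ) (hδ : δ ∈ F) (n : ℕ) :
    ch a0 a1 a2 d δ n ∈ F := by
  induction n with
  | zero => exact hδ
  | succ n ih => exact hF _ ih _ (hd n).1 (hd n).2

/-- extension of a finite word by zeros -/
def ex {m a : ℕ} (w : Fin m → Fin a) (i : ℕ) : ℤ :=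
  if h : i < m then ((w ⟨i, h⟩ : ℕ) : ℤ) else 0

theorem ex_digit (h : 0 < a0) {m : ℕ} (w : Fin m → Fin a0.toNat) (i : ℕ) :
    0 ≤ ex w i ∧ ex w i < a0 := by
  unfold ex
  split_ifs with hi
  · refine ⟨Int.natCast_nonneg _, ?_⟩
    have := (w ⟨i, hi⟩).2
    omega
  · exact ⟨le_rfl, h⟩

/-- the sum over the digits -/
def Aop (a0 a1 a2 : ℤ) (f : ℤ × ℤ → ℕ) (δ : ℤ × ℤ) : ℕ :=
  ∑ d : Fin a0.toNat, f (st a0 a1 a2 ((d : ℕ) : ℤ) δ)

theorem rep (f : ℤ × ℤ → ℕ) (m : ℕ) : ∀ δ : ℤ × ℤ, (Aop a0 a1 a2)^[m] f δ =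
    ∑ w : Fin m → Fin a0.toNat, f (ch a0 a1 a2 (ex w) δ m) := by
  induction m with
  | zero =>
    intro δ
    simp [ch]
  | succ m ih =>
    intro δ
    rw [Function.iterate_succ_apply']
    have h1 : Aop a0 a1 a2 ((Aop a0 a1 a2)^[m] f) δ =
        ∑ d : Fin a0.toNat, ∑ w : Fin m → Fin a0.toNat,
          f (ch a0 a1 a2 (ex w) (st a0 a1 a2 ((d : ℕ) : ℤ) δ) m) := by
      unfold Aop
      exact Finset.sum_congr rfl fun d _ => ih _
    rw [h1, ← (Fin.consEquiv (fun _ : Fin (m + 1) => Fin a0.toNat)).sum_comp,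
      Fintype.sum_prod_type]
    refine Finset.sum_congr rfl fun d _ => Finset.sum_congr rfl fun w _ => ?_
    rw [ch_succ']
    congr 1
    have e0 : ex ((Fin.consEquiv (fun _ : Fin (m + 1) => Fin a0.toNat)) (d, w)) 0 =
        ((d : ℕ) : ℤ) := by
      simp [ex, Fin.consEquiv]
    rw [e0]
    refine ch_congr _ _ _ _ fun i hi => ?_
    have hi' : i + 1 < m + 1 := by omega
    simp only [ex, Fin.consEquiv, hi, hi', dif_pos]
    rfl

/-- the indicator of the nonzero vectors -/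
def f0 (δ : ℤ × ℤ) : ℕ := if δ = 0 then 0 else 1

theorem iter_zero (h : 0 < a0) (m : ℕ) : (Aop a0 a1 a2)^[m] f0 0 = 0 := by
  induction m with
  | zero => simp [f0]
  | succ m ih =>
    rw [Function.iterate_succ_apply']
    unfold Aop
    refine Finset.sum_eq_zero fun d _ => ?_
    rw [st_zero (Int.natCast_nonneg _) (by have := d.2; omega)]
    exact ih

end Merge

open Merge

theorem t_MERGE (hC : COUNT) (hF : FIN) (hR : REACH) : MERGE := by
  classical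
  intro a0 a1 a2 hP E ε hε
  have ha0 : 0 < a0 := hP.pos.trans hP.lt
  have haN : 0 < a0.toNat := by omega
  have haR : ((a0.toNat : ℕ) : ℝ) = (a0 : ℝ) := by
    have h1 : ((a0.toNat : ℕ) : ℤ) = a0 := Int.toNat_of_nonneg ha0.le
    exact_mod_cast congrArg (fun z : ℤ => (z : ℝ)) h1
  choose G hG1 hG2 using hF a0 a1 a2 hP
  obtain ⟨F, hEF, hFc⟩ : ∃ F : Finset (ℤ × ℤ), E ⊆ F ∧
      ∀ δ' ∈ F, ∀ d : ℤ, 0 ≤ d → d < a0 → st a0 a1 a2 d δ' ∈ F := by
    refine ⟨E.biUnion G, fun δ hδ => Finset.mem_biUnion.2 ⟨δ, hδ, hG1 δ⟩, ?_⟩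
    intro δ' hδ' d hd1 hd2
    obtain ⟨δ, hδ, h2⟩ := Finset.mem_biUnion.1 hδ'
    exact Finset.mem_biUnion.2 ⟨δ, hδ, hG2 δ δ' h2 d hd1 hd2⟩
  choose nn dd hdd hnn using hR a0 a1 a2 hP
  set n : ℕ := F.sup nn with hn
  have hreach : ∀ δ ∈ F, ∃ w : Fin n → Fin a0.toNat, ch a0 a1 a2 (ex w) δ n = 0 := by
    intro δ hδ
    have hle : nn δ ≤ n := Finset.le_sup (f := nn) hδ
    refine ⟨fun i => ⟨(dd δ i).toNat, by have := hdd δ i; omega⟩, ?_⟩
    have h1 : ch a0 a1 a2 (dd δ) δ n = 0 := by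
      have := ch_absorb (a0 := a0) (a1 := a1) (a2 := a2) (dd δ) (hdd δ) δ (nn δ) (n - nn δ) (hnn δ)
      rwa [Nat.add_sub_cancel' hle] at this
    rw [← h1]
    refine ch_congr _ _ _ _ fun i hi => ?_
    simp only [ex, hi, dif_pos]
    exact Int.toNat_of_nonneg (hdd δ i).1
  have hbad : ∀ t : ℕ, ∀ δ ∈ F, (Aop a0 a1 a2)^[n * t] f0 δ ≤ (a0.toNat ^ n - 1) ^ t := by
    intro t
    induction t with
    | zero =>
      intro δ _
      simp only [Nat.mul_zero, Function.iterate_zero, id, pow_zero, f0]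
      split_ifs <;> simp
    | succ t ih =>
      intro δ hδ
      have e1 : n * (t + 1) = n + n * t := by ring
      rw [e1, Function.iterate_add_apply, rep]
      obtain ⟨w0, hw0⟩ := hreach δ hδ
      rw [← Finset.add_sum_erase _ _ (Finset.mem_univ w0), hw0, iter_zero ha0, zero_add]
      calc _ ≤ ∑ w ∈ Finset.univ.erase w0, (a0.toNat ^ n - 1) ^ t :=
            Finset.sum_le_sum fun w _ => ih _ (ch_mem hFc _ (ex_digit ha0 w) δ hδ n)
        _ = (a0.toNat ^ n - 1) ^ (t + 1) := by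
            rw [Finset.sum_const, Finset.card_erase_of_mem (Finset.mem_univ _), smul_eq_mul,
              Finset.card_univ, Fintype.card_fun, Fintype.card_fin, Fintype.card_fin, pow_succ]
            ring
  -- counting
  have hcount : ∀ j : ℕ, ((box a0 j).filter (fun N => ∃ δ ∈ E,
      (T a0 a1 a2)^[j] (N + δ) ≠ (T a0 a1 a2)^[j] N)).card ≤
      (∑ δ ∈ E, (Aop a0 a1 a2)^[j] f0 δ) * a0.toNat ^ j := by
    intro j
    set W : Finset (Fin j → Fin a0.toNat) :=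
      Finset.univ.filter (fun w => ∃ δ ∈ E, ch a0 a1 a2 (ex w) δ j ≠ 0) with hW
    have hsub : (box a0 j).filter (fun N => ∃ δ ∈ E,
        (T a0 a1 a2)^[j] (N + δ) ≠ (T a0 a1 a2)^[j] N) ⊆
        W.biUnion (fun w => (box a0 j).filter
          (fun N => ∀ i < j, dg a0 a1 a2 ((T a0 a1 a2)^[i] N) = ex w i)) := by
      intro N hN
      rw [Finset.mem_filter] at hN
      obtain ⟨hNb, δ, hδ, hne⟩ := hN
      have hdgN : ∀ i, 0 ≤ dg a0 a1 a2 ((T a0 a1 a2)^[i] N) ∧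
          dg a0 a1 a2 ((T a0 a1 a2)^[i] N) < a0 := fun i =>
        ⟨Int.emod_nonneg _ ha0.ne', Int.emod_lt_of_pos _ ha0⟩
      have hex : ∀ i < j, dg a0 a1 a2 ((T a0 a1 a2)^[i] N) =
          ex (fun i : Fin j => (⟨(dg a0 a1 a2 ((T a0 a1 a2)^[(i : ℕ)] N)).toNat, by
            have := hdgN i; omega⟩ : Fin a0.toNat)) i := by
        intro i hi
        simp only [ex, hi, dif_pos]
        exact (Int.toNat_of_nonneg (hdgN i).1).symm
      rw [Finset.mem_biUnion]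
      refine ⟨_, ?_, Finset.mem_filter.2 ⟨hNb, hex⟩⟩
      rw [hW, Finset.mem_filter]
      refine ⟨Finset.mem_univ _, δ, hδ, ?_⟩
      intro h0
      apply hne
      rw [iter_add ha0, ch_congr _ _ _ _ hex, h0, add_zero]
    refine (Finset.card_le_card hsub).trans ?_
    refine Finset.card_biUnion_le.trans ?_
    have hc : ∀ w ∈ W, ((box a0 j).filter
          (fun N => ∀ i < j, dg a0 a1 a2 ((T a0 a1 a2)^[i] N) = ex w i)).card =
          a0.toNat ^ j := fun w _ => hC a0 a1 a2 hP j (ex w) (ex_digit ha0 w)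
    rw [Finset.sum_congr rfl hc, Finset.sum_const, smul_eq_mul]
    refine Nat.mul_le_mul_right _ ?_
    have h2 : W ⊆ E.biUnion (fun δ => Finset.univ.filter
        (fun w : Fin j → Fin a0.toNat => ch a0 a1 a2 (ex w) δ j ≠ 0)) := by
      intro w hw
      rw [hW, Finset.mem_filter] at hw
      obtain ⟨_, δ, hδ, h⟩ := hw
      exact Finset.mem_biUnion.2 ⟨δ, hδ, Finset.mem_filter.2 ⟨Finset.mem_univ _, h⟩⟩
    refine (Finset.card_le_card h2).trans (Finset.card_biUnion_le.trans ?_)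
    refine Finset.sum_le_sum fun δ _ => ?_
    rw [rep, Finset.card_filter]
    refine Finset.sum_le_sum fun w _ => ?_
    unfold f0
    split_ifs <;> simp_all
  -- the limit
  have hq0 : 0 ≤ 1 - 1 / (a0 : ℝ) ^ n ∧ 1 - 1 / (a0 : ℝ) ^ n < 1 := by
    have h1 : (1 : ℝ) ≤ (a0 : ℝ) ^ n := by
      refine one_le_pow₀ ?_
      exact_mod_cast ha0
    have h2 : 0 < 1 / (a0 : ℝ) ^ n := by positivity
    have h3 : 1 / (a0 : ℝ) ^ n ≤ 1 := by
      rw [div_le_one (by linarith)]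
      exact h1
    exact ⟨by linarith, by linarith⟩
  have hlim : Tendsto (fun t : ℕ => (E.card : ℝ) * (1 - 1 / (a0 : ℝ) ^ n) ^ t) atTop (𝓝 0) := by
    have := (tendsto_pow_atTop_nhds_zero_of_lt_one hq0.1 hq0.2).const_mul (E.card : ℝ)
    rwa [mul_zero] at this
  obtain ⟨t, ht⟩ := (hlim.eventually (gt_mem_nhds hε)).exists
  refine ⟨n * t, ?_⟩
  have hsum : ∑ δ ∈ E, (Aop a0 a1 a2)^[n * t] f0 δ ≤ E.card * (a0.toNat ^ n - 1) ^ t := by
    refine (Finset.sum_le_sum fun δ hδ => hbad t δ (hEF hδ)).trans ?_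
    rw [Finset.sum_const, smul_eq_mul]
  have hfin := (hcount (n * t)).trans (Nat.mul_le_mul_right _ hsum)
  have hpos : (0 : ℝ) < (a0 : ℝ) ^ n := by
    have : (0 : ℝ) < a0 := by exact_mod_cast ha0
    positivity
  have hcast : (((a0.toNat ^ n - 1 : ℕ)) : ℝ) = (a0 : ℝ) ^ n - 1 := by
    rw [Nat.cast_sub (Nat.one_le_iff_ne_zero.2 (by positivity))]
    push_cast
    rw [haR]
  calc (((box a0 (n * t)).filter (fun N => ∃ δ ∈ E,
        (T a0 a1 a2)^[n * t] (N + δ) ≠ (T a0 a1 a2)^[n * t] N)).card : ℝ)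
      ≤ ((E.card * (a0.toNat ^ n - 1) ^ t * a0.toNat ^ (n * t) : ℕ) : ℝ) := by
        exact_mod_cast hfin
    _ = ((E.card : ℝ) * (1 - 1 / (a0 : ℝ) ^ n) ^ t) * (a0 : ℝ) ^ (2 * (n * t)) := by
        rw [Nat.cast_mul, Nat.cast_mul, Nat.cast_pow, hcast, Nat.cast_pow, haR]
        have e2 : (1 : ℝ) - 1 / (a0 : ℝ) ^ n = ((a0 : ℝ) ^ n - 1) / (a0 : ℝ) ^ n := by
          field_simp
        rw [e2, div_pow, ← pow_mul]
        have hp2 : (0 : ℝ) < (a0 : ℝ) ^ (n * t) := by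
          have : (0 : ℝ) < a0 := by exact_mod_cast ha0
          positivity
        have e3 : (a0 : ℝ) ^ (2 * (n * t)) = (a0 : ℝ) ^ (n * t) * (a0 : ℝ) ^ (n * t) := by
          rw [two_mul, pow_add]
        rw [e3]
        field_simp
    _ ≤ ε * (a0 : ℝ) ^ (2 * (n * t)) := by
        refine mul_le_mul_of_nonneg_right ht.le ?_
        have : (0 : ℝ) < a0 := by exact_mod_cast ha0
        positivity

end Pool.Agent.R499.GB
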