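import Mathlib
import Pool.Agent.R499.GB.Stm
import Pool.Agent.R499.GB.Ker

/-! Project GB, piece OPER: an invariant trigonometric polynomial. -/

set_option autoImplicit false

namespace Pool.Agent.R499.GB

open Filter Topology

namespace K394

/-- the complex trigonometric polynomial -/
noncomputable def ctp (S : Finset (ℤ × ℤ)) (c : ℤ × ℤ → ℂ) (ξ : ℝ × ℝ) : ℂ :=
  ∑ δ ∈ S, c δ * e (pr δ ξ)

/-- independence of characters -/
theorem ctp_ne_zero (S : Finset (ℤ × ℤ)) (c : ℤ × ℤ → ℂ) (δ₀ : ℤ × ℤ) (hδ₀ : δ₀ ∈ S) (hc : c δ₀ ≠ 0) :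
    ∃ ξ, ctp S c ξ ≠ 0 := by
  by_contra hcon
  push Not at hcon
  obtain ⟨n, hn⟩ : ∃ n : ℕ, ∀ δ ∈ S, |δ.1 - δ₀.1| < (n : ℤ) ∧ |δ.2 - δ₀.2| < (n : ℤ) := by
    refine ⟨∑ δ ∈ S, ((δ.1 - δ₀.1).natAbs + (δ.2 - δ₀.2).natAbs) + 1, fun δ hδ => ?_⟩
    have h := Finset.single_le_sum
      (f := fun δ : ℤ × ℤ => ((δ.1 - δ₀.1).natAbs + (δ.2 - δ₀.2).natAbs)) (fun _ _ => Nat.zero_le _) hδ
    rw [Int.abs_eq_natAbs, Int.abs_eq_natAbs]
    constructor
    · have : (δ.1 - δ₀.1).natAbs < ∑ δ ∈ S, ((δ.1 - δ₀.1).natAbs + (δ.2 - δ₀.2).natAbs) + 1 := by omega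
      exact_mod_cast this
    · have : (δ.2 - δ₀.2).natAbs < ∑ δ ∈ S, ((δ.1 - δ₀.1).natAbs + (δ.2 - δ₀.2).natAbs) + 1 := by omega
      exact_mod_cast this
  have hn0 : 0 < n := by
    have := (hn δ₀ hδ₀).1
    simp at this
    exact this
  have hnR : (n : ℝ) ≠ 0 := by positivity
  have h1 : ∑ j ∈ Finset.range n, ∑ k ∈ Finset.range n,
      ctp S c ((j : ℝ) / n, (k : ℝ) / n) * e (-((δ₀.1 * j + δ₀.2 * k) / n)) = (n : ℂ) ^ 2 * c δ₀ := by
    have h2 : ∀ j ∈ Finset.range n, ∀ k ∈ Finset.range n,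
        ctp S c ((j : ℝ) / n, (k : ℝ) / n) * e (-((δ₀.1 * j + δ₀.2 * k) / n)) =
        ∑ δ ∈ S, c δ * (e (((δ.1 - δ₀.1 : ℤ) : ℝ) * j / n) * e (((δ.2 - δ₀.2 : ℤ) : ℝ) * k / n)) := by
      intro j _ k _
      unfold ctp
      rw [Finset.sum_mul]
      refine Finset.sum_congr rfl fun δ _ => ?_
      rw [mul_assoc, ← e_add, ← e_add]
      congr 2
      unfold pr
      push_cast
      ring
    rw [Finset.sum_congr rfl fun j hj => Finset.sum_congr rfl fun k hk => h2 j hj k hk]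
    have h3 : ∑ j ∈ Finset.range n, ∑ k ∈ Finset.range n, ∑ δ ∈ S,
        c δ * (e (((δ.1 - δ₀.1 : ℤ) : ℝ) * j / n) * e (((δ.2 - δ₀.2 : ℤ) : ℝ) * k / n)) =
        ∑ δ ∈ S, c δ * ((∑ j ∈ Finset.range n, e (((δ.1 - δ₀.1 : ℤ) : ℝ) * j / n)) *
          ∑ k ∈ Finset.range n, e (((δ.2 - δ₀.2 : ℤ) : ℝ) * k / n)) := by
      rw [Finset.sum_congr rfl fun j _ => Finset.sum_comm, Finset.sum_comm]
      refine Finset.sum_congr rfl fun δ _ => ?_
      rw [Finset.sum_mul_sum, Finset.mul_sum]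
      refine Finset.sum_congr rfl fun j _ => ?_
      rw [Finset.mul_sum]
    rw [h3, Finset.sum_eq_single δ₀]
    · rw [sum_e n hn0, sum_e n hn0, sub_self, sub_self, if_pos (dvd_zero _)]
      ring
    · intro δ hδ hne
      rw [sum_e n hn0, sum_e n hn0]
      by_cases h4 : δ.1 = δ₀.1
      · have h5 : δ.2 ≠ δ₀.2 := fun h => hne (Prod.ext h4 h)
        rw [if_neg (c := (n : ℤ) ∣ δ.2 - δ₀.2)]
        · ring
        · intro hd
          exact h5 (sub_eq_zero.1 (Int.eq_zero_of_abs_lt_dvd hd (hn δ hδ).2))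
      · rw [if_neg (c := (n : ℤ) ∣ δ.1 - δ₀.1)]
        · ring
        · intro hd
          exact h4 (sub_eq_zero.1 (Int.eq_zero_of_abs_lt_dvd hd (hn δ hδ).1))
    · intro h
      exact absurd hδ₀ h
  have h2 : ∑ j ∈ Finset.range n, ∑ k ∈ Finset.range n,
      ctp S c ((j : ℝ) / n, (k : ℝ) / n) * e (-((δ₀.1 * j + δ₀.2 * k) / n)) = 0 := by
    refine Finset.sum_eq_zero fun j _ => Finset.sum_eq_zero fun k _ => ?_
    rw [hcon, zero_mul]
  rw [h2] at h1
  have h3 := h1.symm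
  rw [mul_eq_zero] at h3
  rcases h3 with h3 | h3
  · have : (n : ℂ) = 0 := by simpa using h3
    exact hn0.ne' (by exact_mod_cast this)
  · exact hc h3

end K394

open K394 in
theorem t_OPER (hK : KER) : OPER := by
  intro a0 a1 a2 hP S hS
  classical
  have ha : 0 < a0 := lt_trans hP.pos hP.lt
  obtain ⟨hne, -, hclosed⟩ := hS
  set a : ℕ := a0.toNat with haN
  have haZ : (a : ℤ) = a0 := Int.toNat_of_nonneg ha.le
  have haC : (a : ℂ) ≠ 0 := by
    have : a ≠ 0 := by omega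
    exact_mod_cast this
  have haC' : (a0 : ℂ) = (a : ℂ) := by
    rw [← haZ]
    push_cast
    rfl
  have hst : ∀ δ : S, ∀ d ∈ Finset.range a, st a0 a1 a2 (d : ℤ) δ.1 ∈ S := fun δ d hd =>
    hclosed δ.1 δ.2 d (by positivity) (by
      rw [← haZ]
      exact_mod_cast Finset.mem_range.1 hd)
  let M : Matrix S S ℂ := fun δ δ' =>
    (((Finset.range a).filter fun d : ℕ => st a0 a1 a2 (d : ℤ) δ.1 = δ'.1).card : ℂ) / a
  -- sums against the rows
  have hrow : ∀ (f : ℤ × ℤ → ℂ) (δ : S), ∑ δ' : S, M δ δ' * f δ'.1 =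
      (1 / (a : ℂ)) * ∑ d ∈ Finset.range a, f (st a0 a1 a2 (d : ℤ) δ.1) := by
    intro f δ
    have h1 : ∑ d ∈ Finset.range a, f (st a0 a1 a2 (d : ℤ) δ.1) =
        ∑ δ' : S, (((Finset.range a).filter fun d : ℕ => st a0 a1 a2 (d : ℤ) δ.1 = δ'.1).card : ℂ) * f δ'.1 := by
      have h2 : ∀ d ∈ Finset.range a, f (st a0 a1 a2 (d : ℤ) δ.1) =
          ∑ δ' : S, if st a0 a1 a2 (d : ℤ) δ.1 = δ'.1 then f δ'.1 else 0 := by
        intro d hd
        rw [Finset.sum_eq_single (⟨_, hst δ d hd⟩ : S)]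
        · simp
        · intro δ' _ hne'
          rw [if_neg]
          intro h
          exact hne' (Subtype.ext h.symm)
        · intro h
          exact absurd (Finset.mem_univ _) h
      rw [Finset.sum_congr rfl h2, Finset.sum_comm]
      refine Finset.sum_congr rfl fun δ' _ => ?_
      rw [← Finset.sum_filter, Finset.sum_const, nsmul_eq_mul]
    rw [h1, Finset.mul_sum]
    refine Finset.sum_congr rfl fun δ' _ => ?_
    simp only [M]
    ring
  have hdet : (M - 1).det = 0 := by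
    rw [← Matrix.exists_mulVec_eq_zero_iff]
    refine ⟨fun _ => 1, ?_, ?_⟩
    · obtain ⟨δ, hδ⟩ := hne
      intro h
      have := congrFun h ⟨δ, hδ⟩
      simp at this
    · funext δ
      have h1 := hrow (fun _ => 1) δ
      rw [Matrix.sub_mulVec, Matrix.one_mulVec, Pi.sub_apply, Pi.zero_apply]
      have h2 : (M.mulVec fun _ => 1) δ = ∑ δ' : S, M δ δ' * 1 := rfl
      rw [h2, h1]
      simp [haC]
  obtain ⟨v, hv, hvM⟩ := Matrix.exists_vecMul_eq_zero_iff.2 hdet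
  have hvM' : ∀ δ' : S, ∑ δ : S, v δ * M δ δ' = v δ' := by
    intro δ'
    have h1 := congrFun hvM δ'
    rw [Matrix.vecMul_sub, Matrix.vecMul_one, Pi.sub_apply, Pi.zero_apply, sub_eq_zero] at h1
    exact h1
  let c : ℤ × ℤ → ℂ := fun δ => if h : δ ∈ S then v ⟨δ, h⟩ else 0
  have hcS : ∀ δ : S, c δ.1 = v δ := fun δ => by simp [c]
  have hinv : ∀ ξ, ctp S c ξ = ∑ l ∈ Finset.range a, (wt a0 (ξ.2 + l) : ℂ) * ctp S c (nd a0 a1 a2 l ξ) := by
    intro ξ
    have hsum : ∀ ζ, ctp S c ζ = ∑ δ : S, v δ * e (pr δ.1 ζ) := by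
      intro ζ
      unfold ctp
      rw [← Finset.sum_coe_sort]
      exact Finset.sum_congr rfl fun δ _ => by rw [hcS]
    rw [hsum]
    have h1 : ∑ δ : S, v δ * e (pr δ.1 ξ) = ∑ δ : S, v δ * ∑ δ' : S, M δ δ' * e (pr δ'.1 ξ) := by
      have h2 : ∑ δ' : S, v δ' * e (pr δ'.1 ξ) = ∑ δ' : S, (∑ δ : S, v δ * M δ δ') * e (pr δ'.1 ξ) :=
        Finset.sum_congr rfl fun δ' _ => by rw [hvM']
      rw [h2]
      simp only [Finset.sum_mul, Finset.mul_sum]
      rw [Finset.sum_comm]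
      exact Finset.sum_congr rfl fun δ _ => Finset.sum_congr rfl fun δ' _ => by ring
    rw [h1]
    have h3 : ∀ δ : S, ∑ δ' : S, M δ δ' * e (pr δ'.1 ξ) =
        ∑ l ∈ Finset.range a, (wt a0 (ξ.2 + l) : ℂ) * e (pr δ.1 (nd a0 a1 a2 l ξ)) := by
      intro δ
      rw [hrow (fun δ' => e (pr δ' ξ)) δ]
      have := hK a0 a1 a2 ha δ.1 ξ
      rw [haC'] at this
      exact this
    simp only [h3]
    simp only [hsum, Finset.mul_sum]
    rw [Finset.sum_comm]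
    exact Finset.sum_congr rfl fun l _ => Finset.sum_congr rfl fun δ _ => by ring
  obtain ⟨δ₀, hδ₀⟩ : ∃ δ, v δ ≠ 0 := by
    by_contra hcon
    push Not at hcon
    exact hv (funext hcon)
  obtain ⟨ξ₀, hξ₀⟩ := ctp_ne_zero S c δ₀.1 δ₀.2 (by rwa [hcS])
  have hre : ∀ c' : ℤ × ℤ → ℂ, (∀ ξ, ctp S c' ξ = ∑ l ∈ Finset.range a,
      (wt a0 (ξ.2 + l) : ℂ) * ctp S c' (nd a0 a1 a2 l ξ)) → Inv a0 a1 a2 (tp S c') := by
    intro c' h ξ
    have h1 := congrArg Complex.re (h ξ)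
    rw [Complex.re_sum] at h1
    simp only [Complex.re_ofReal_mul] at h1
    exact h1
  by_cases h0 : (ctp S c ξ₀).re = 0
  · refine ⟨fun δ => -Complex.I * c δ, ⟨ξ₀, ?_⟩, ?_⟩
    · have h1 : tp S (fun δ => -Complex.I * c δ) ξ₀ = (ctp S c ξ₀).im := by
        have h2 : ∑ δ ∈ S, -Complex.I * c δ * e (pr δ ξ₀) = -Complex.I * ctp S c ξ₀ := by
          unfold ctp
          rw [Finset.mul_sum]
          exact Finset.sum_congr rfl fun δ _ => by ring
        unfold tp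
        rw [h2]
        simp
      rw [h1]
      intro h2
      exact hξ₀ (Complex.ext h0 h2)
    · apply hre
      have h2 : ∀ ζ, ctp S (fun δ => -Complex.I * c δ) ζ = -Complex.I * ctp S c ζ := by
        intro ζ
        unfold ctp
        rw [Finset.mul_sum]
        exact Finset.sum_congr rfl fun δ _ => by ring
      intro ξ
      rw [h2, hinv ξ, Finset.mul_sum]
      exact Finset.sum_congr rfl fun l _ => by rw [h2]; ring
  · exact ⟨c, ⟨ξ₀, h0⟩, hre c hinv⟩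

end Pool.Agent.R499.GB
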