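import Pool.Agent.R499.GB.Stm

/-! Project GB, piece TCNT: a counting lemma in the `a`-ary tree. -/

set_option autoImplicit false

namespace Pool.Agent.R499.GB

theorem t_TCNT : TCNT := by
  intro a K R ha V H hV0 h1 h2 hR
  classical
  have key : ∀ s, V s → ∃ g : Fin a → Fin a × Fin a, Function.Injective g ∧
      ∀ i, V ((g i).1 :: (g i).2 :: s) := by
    intro s hs
    by_cases hH : H s
    · obtain ⟨l, hl1, hl2⟩ := h2 s hs hH
      exact ⟨fun i => (i, l), fun i j hij => (Prod.mk.inj hij).1, fun i => h1 _ hl1 hl2 i⟩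
    · have hc : ∀ l, ∃ x, V (x :: l :: s) := by
        intro l
        by_cases hH2 : H (l :: s)
        · obtain ⟨x, hx, _⟩ := h2 _ (h1 s hs hH l) hH2
          exact ⟨x, hx⟩
        · exact ⟨⟨0, by omega⟩, h1 _ (h1 s hs hH l) hH2 _⟩
      choose x hx using hc
      exact ⟨fun i => (x i, i), fun i j hij => (Prod.mk.inj hij).2, fun i => hx i⟩
  have big : ∀ k : ℕ, ∃ A : Finset (List (Fin a)), (∀ s ∈ A, V s) ∧
      (∀ s ∈ A, s.length = 2 * k) ∧ A.card = a ^ k := by
    intro k
    induction k with
    | zero => exact ⟨{[]}, by simpa using hV0, by simp, by simp⟩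
    | succ k ih =>
      obtain ⟨A, hA1, hA2, hA3⟩ := ih
      have hex : ∀ s, ∃ g : Fin a → Fin a × Fin a, V s → (Function.Injective g ∧
          ∀ i, V ((g i).1 :: (g i).2 :: s)) := by
        intro s
        by_cases hs : V s
        · obtain ⟨g, hg⟩ := key s hs
          exact ⟨g, fun _ => hg⟩
        · exact ⟨fun i => (i, i), fun h => absurd h hs⟩
      choose g hg using hex
      refine ⟨(A ×ˢ (Finset.univ : Finset (Fin a))).image
        (fun p => (g p.1 p.2).1 :: (g p.1 p.2).2 :: p.1), ?_, ?_, ?_⟩
      · intro s hs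
        rw [Finset.mem_image] at hs
        obtain ⟨p, hp, rfl⟩ := hs
        rw [Finset.mem_product] at hp
        exact (hg p.1 (hA1 _ hp.1)).2 p.2
      · intro s hs
        rw [Finset.mem_image] at hs
        obtain ⟨p, hp, rfl⟩ := hs
        rw [Finset.mem_product] at hp
        have := hA2 _ hp.1
        simp only [List.length_cons]
        omega
      · rw [Finset.card_image_of_injOn, Finset.card_product, hA3, Finset.card_univ,
          Fintype.card_fin, pow_succ]
        intro p hp q hq hpq
        rw [Finset.mem_coe, Finset.mem_product] at hp hq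
        simp only [List.cons.injEq] at hpq
        obtain ⟨e1, e2, e3⟩ := hpq
        obtain ⟨s, i⟩ := p
        obtain ⟨s', j⟩ := q
        simp only at e1 e2 e3 hp hq
        subst e3
        have := (hg s (hA1 _ hp.1)).1 (Prod.ext e1 e2)
        rw [this]
  obtain ⟨k, hk⟩ : ∃ k : ℕ, K * R < a ^ k := pow_unbounded_of_one_lt _ (by omega)
  obtain ⟨A, hA1, hA2, hA3⟩ := big k
  by_contra hno
  push Not at hno
  -- the first failure below each valid node
  have hf : ∀ s, ∃ t : List (Fin a), V s → (t.length < K ∧ V (t ++ s) ∧ H (t ++ s)) := by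
    intro s
    by_cases hs : V s
    · obtain ⟨t, ht1, ht2⟩ := hno s hs
      have hex : ∃ n : ℕ, ∃ t : List (Fin a), t.length = n ∧ ¬ V (t ++ s) := ⟨_, t, rfl, ht2⟩
      obtain ⟨t0, ht0, hn0⟩ := Nat.find_spec hex
      have hmin : ∀ t : List (Fin a), t.length < Nat.find hex → V (t ++ s) := by
        intro u hu
        by_contra hcon
        exact Nat.find_min hex hu ⟨u, rfl, hcon⟩
      have hle : Nat.find hex ≤ K := (Nat.find_min' hex ⟨t, rfl, ht2⟩).trans ht1
      cases t0 with
      | nil => exact absurd hs hn0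
      | cons l u =>
        refine ⟨u, fun _ => ?_⟩
        rw [List.length_cons] at ht0
        have hVu : V (u ++ s) := hmin u (by omega)
        refine ⟨by omega, hVu, ?_⟩
        by_contra hH
        exact hn0 (h1 _ hVu hH l)
    · exact ⟨[], fun h => absurd h hs⟩
  choose f hf using hf
  have hcov : A = (Finset.range K).biUnion (fun i => A.filter (fun s => (f s).length = i)) := by
    ext s
    simp only [Finset.mem_biUnion, Finset.mem_range, Finset.mem_filter]
    constructor
    · intro hs
      exact ⟨_, (hf s (hA1 s hs)).1, hs, rfl⟩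
    · rintro ⟨i, _, hs, _⟩
      exact hs
  have hcard : A.card ≤ K * R := by
    rw [hcov]
    refine Finset.card_biUnion_le.trans ?_
    refine (Finset.sum_le_sum (g := fun _ => R) fun i _ => ?_).trans (by simp)
    have hinj : Set.InjOn (fun s => f s ++ s) (A.filter (fun s => (f s).length = i)) := by
      intro s hs s' hs' hss
      rw [Finset.mem_coe, Finset.mem_filter] at hs hs'
      have := List.append_inj hss (by rw [hs.2, hs'.2])
      exact this.2
    rw [← Finset.card_image_of_injOn hinj]
    refine hR (i + 2 * k) _ ?_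
    intro u hu
    rw [Finset.mem_image] at hu
    obtain ⟨s, hs, rfl⟩ := hu
    rw [Finset.mem_filter] at hs
    have h3 := hf s (hA1 s hs.1)
    exact ⟨by rw [List.length_append, hs.2, hA2 s hs.1], h3.2⟩
  omega

end Pool.Agent.R499.GB
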