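import Pool.Agent.R499.GB.Stm

/-! Project GB, piece TREE. -/

set_option autoImplicit false

namespace Pool.Agent.R499.GB

open Filter Topology

namespace TreeP

theorem e_zero : e 0 = 1 := by unfold e; simp

theorem e_add (x y : ℝ) : e (x + y) = e x * e y := by
  unfold e; rw [← Complex.exp_add]; congr 1; push_cast; ring

theorem e_int (n : ℤ) : e (n : ℝ) = 1 := by
  unfold e
  rw [Complex.exp_eq_one_iff]
  exact ⟨n, by push_cast; ring⟩

theorem e_ne_one {y : ℝ} (hy : ∀ z : ℤ, y ≠ z) : e y ≠ 1 := by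
  intro h
  unfold e at h
  rw [Complex.exp_eq_one_iff] at h
  obtain ⟨n, hn⟩ := h
  have h2 : (2 * Real.pi * Complex.I : ℂ) ≠ 0 := by
    simp [Real.pi_ne_zero, Complex.I_ne_zero]
  have h3 : (y : ℂ) = n := by
    have : (2 * Real.pi * Complex.I : ℂ) * y = (2 * Real.pi * Complex.I : ℂ) * n := by
      rw [hn]; ring
    exact mul_left_cancel₀ h2 this
  exact hy n (by exact_mod_cast h3)

theorem e_nat_mul (n : ℕ) (x : ℝ) : e (n * x) = e x ^ n := by
  unfold e
  rw [← Complex.exp_nat_mul]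
  congr 1; push_cast; ring

theorem continuous_e : Continuous e := by
  unfold e
  exact Complex.continuous_exp.comp (continuous_const.mul Complex.continuous_ofReal)

theorem wt_nonneg (a0 : ℤ) (y : ℝ) : 0 ≤ wt a0 y := by unfold wt; positivity

theorem wt_pos {a0 : ℤ} (ha : 0 < a0) {y : ℝ} (hy : ∀ z : ℤ, y ≠ z) : 0 < wt a0 y := by
  unfold wt
  have h1 : ∑ d ∈ Finset.range a0.toNat, e (d * y / a0) ≠ 0 := by
    intro h
    have h2 : ∀ d : ℕ, e (d * y / a0) = e (y / a0) ^ d := by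
      intro d; rw [← e_nat_mul]; congr 1; ring
    simp_rw [h2] at h
    have h3 := mul_geom_sum (e (y / a0)) a0.toNat
    rw [h, mul_zero, ← e_nat_mul] at h3
    have h4 : (a0.toNat : ℝ) * (y / a0) = y := by
      have : ((a0.toNat : ℤ) : ℝ) = (a0 : ℝ) := by rw [Int.toNat_of_nonneg ha.le]
      have h5 : (a0.toNat : ℝ) = (a0 : ℝ) := by exact_mod_cast this
      rw [h5]
      have : (a0 : ℝ) ≠ 0 := by exact_mod_cast ha.ne'
      field_simp
    rw [h4] at h3
    exact e_ne_one hy (sub_eq_zero.1 h3.symm)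
  have h2 : 0 < ‖∑ d ∈ Finset.range a0.toNat, e (d * y / a0)‖ := norm_pos_iff.2 h1
  have h3 : (0 : ℝ) < a0 := by exact_mod_cast ha
  positivity

theorem wt_pos' {a0 : ℤ} (ha : 0 < a0) {j : ℤ} : 0 < wt a0 ((a0 * j : ℤ) : ℝ) := by
  unfold wt
  have h3 : (0 : ℝ) < a0 := by exact_mod_cast ha
  have h1 : ∀ d : ℕ, e (d * ((a0 * j : ℤ) : ℝ) / a0) = 1 := by
    intro d
    have : (d * ((a0 * j : ℤ) : ℝ) / a0) = ((d * j : ℤ) : ℝ) := by
      push_cast; field_simp
    rw [this, e_int]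
  simp_rw [h1]
  have h4 : 0 < a0.toNat := by omega
  simp only [Finset.sum_const, Finset.card_range, nsmul_eq_mul, mul_one, Complex.norm_natCast]
  positivity

theorem wt_sum (hK : KER) {a0 a1 a2 : ℤ} (ha : 0 < a0) (y : ℝ) :
    ∑ l ∈ Finset.range a0.toNat, wt a0 (y + l) = 1 := by
  have h1 := hK a0 a1 a2 ha 0 (0, y)
  have h2 : ∀ ξ, e (pr 0 ξ) = 1 := by
    intro ξ; unfold pr; simp [e_zero]
  have h3 : ∀ d ∈ Finset.range a0.toNat, e (pr (st a0 a1 a2 d 0) (0, y)) = 1 := by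
    intro d hd
    have h4 : st a0 a1 a2 d 0 = 0 := by
      unfold st
      have h5 : (d : ℤ) < a0 := by have := Finset.mem_range.1 hd; omega
      have h6 : ((d : ℤ) + (a2 * (0 : ℤ × ℤ).1 + a1 * (0 : ℤ × ℤ).2)) / a0 = 0 := by
        simp only [Prod.fst_zero, Prod.snd_zero, mul_zero, add_zero]
        exact Int.ediv_eq_zero_of_lt (Int.natCast_nonneg d) h5
      rw [h6]; rfl
    rw [h4, h2]
  rw [Finset.sum_congr rfl h3] at h1
  simp_rw [h2] at h1
  simp only [Finset.sum_const, Finset.card_range, nsmul_eq_mul, mul_one] at h1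
  have h5 : (a0.toNat : ℂ) = (a0 : ℂ) := by
    have : ((a0.toNat : ℤ) : ℂ) = (a0 : ℂ) := by rw [Int.toNat_of_nonneg ha.le]
    exact_mod_cast this
  have h6 : (a0 : ℂ) ≠ 0 := by exact_mod_cast ha.ne'
  rw [h5, one_div, inv_mul_cancel₀ h6] at h1
  exact_mod_cast h1.symm

theorem tp_periodic (S : Finset (ℤ × ℤ)) (c : ℤ × ℤ → ℂ) (x y : ℝ) (m n : ℤ) :
    tp S c (x + m, y + n) = tp S c (x, y) := by
  unfold tp
  congr 1
  refine Finset.sum_congr rfl fun δ _ => ?_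
  congr 1
  have : pr δ (x + m, y + n) = pr δ (x, y) + ((δ.1 * m + δ.2 * n : ℤ) : ℝ) := by
    unfold pr; push_cast; ring
  rw [this, e_add, e_int, mul_one]

theorem continuous_tp (S : Finset (ℤ × ℤ)) (c : ℤ × ℤ → ℂ) : Continuous (tp S c) := by
  unfold tp
  refine Complex.continuous_re.comp (continuous_finsetSum _ fun δ _ => ?_)
  refine continuous_const.mul (continuous_e.comp ?_)
  unfold pr
  fun_prop

theorem tp_neg (S : Finset (ℤ × ℤ)) (c : ℤ × ℤ → ℂ) (ξ : ℝ × ℝ) :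
    tp S (fun δ => -c δ) ξ = -tp S c ξ := by
  unfold tp
  simp only [neg_mul, Finset.sum_neg_distrib, Complex.neg_re]

theorem exists_min (S : Finset (ℤ × ℤ)) (c : ℤ × ℤ → ℂ) :
    ∃ ξ0, ∀ ξ, tp S c ξ0 ≤ tp S c ξ := by
  obtain ⟨ξ0, -, h0⟩ := (isCompact_Icc (a := ((0, 0) : ℝ × ℝ)) (b := (1, 1))).exists_isMinOn
    ⟨(0, 0), by simp⟩ (continuous_tp S c).continuousOn
  refine ⟨ξ0, fun ξ => ?_⟩
  have h1 : tp S c ξ = tp S c (Int.fract ξ.1, Int.fract ξ.2) := by
    rw [← tp_periodic S c (Int.fract ξ.1) (Int.fract ξ.2) ⌊ξ.1⌋ ⌊ξ.2⌋]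
    rw [Int.fract_add_floor, Int.fract_add_floor]
  rw [h1]
  refine h0 ⟨⟨Int.fract_nonneg _, Int.fract_nonneg _⟩, ⟨(Int.fract_lt_one _).le,
    (Int.fract_lt_one _).le⟩⟩

theorem node_append (a0 a1 a2 : ℤ) (ξ : ℝ × ℝ) (t s : List ℤ) :
    node a0 a1 a2 ξ (t ++ s) = node a0 a1 a2 (node a0 a1 a2 ξ s) t := by
  induction t with
  | nil => rfl
  | cons l t ih => simp only [List.cons_append, node, ih]

theorem nd_surj {a0 a1 a2 : ℤ} (h0 : 0 < a0) (h2 : 0 < a2) (η : ℝ × ℝ) :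
    ∃ ξ, nd a0 a1 a2 0 ξ = η := by
  have h0' : (a0 : ℝ) ≠ 0 := by exact_mod_cast h0.ne'
  have h2' : (a2 : ℝ) ≠ 0 := by exact_mod_cast h2.ne'
  refine ⟨(η.2 + a1 * (-(a0 * η.1 / a2)) / a0, -(a0 * η.1 / a2)), ?_⟩
  unfold nd
  ext
  · simp only [Int.cast_zero, add_zero]; field_simp
  · simp only [Int.cast_zero, add_zero]; ring

theorem node_surj {a0 a1 a2 : ℤ} (h0 : 0 < a0) (h2 : 0 < a2) (K : ℕ) :
    ∀ η : ℝ × ℝ, ∃ ξ, node a0 a1 a2 ξ (List.replicate K 0) = η := by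
  induction K with
  | zero => intro η; exact ⟨η, rfl⟩
  | succ K ih =>
    intro η
    obtain ⟨ξ', h'⟩ := nd_surj (a1 := a1) h0 h2 η
    obtain ⟨ξ, h⟩ := ih ξ'
    exact ⟨ξ, by rw [List.replicate_succ, node, h, h']⟩

/-- a point of the minimum: the children with positive weight are also minimum points -/
theorem child_min (hK : KER) {a0 a1 a2 : ℤ} (ha : 0 < a0) {g : ℝ × ℝ → ℝ}
    (hI : Inv a0 a1 a2 g) {ξ0 : ℝ × ℝ} (hmin : ∀ ξ, g ξ0 ≤ g ξ) {ξ : ℝ × ℝ} (hξ : g ξ = g ξ0)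
    {l : ℕ} (hl : l < a0.toNat) (hw : 0 < wt a0 (ξ.2 + l)) : g (nd a0 a1 a2 l ξ) = g ξ0 := by
  have h1 := hI ξ
  have h2 := wt_sum (a1 := a1) (a2 := a2) hK ha ξ.2
  have h3 : ∑ l ∈ Finset.range a0.toNat, wt a0 (ξ.2 + l) * (g (nd a0 a1 a2 l ξ) - g ξ0) = 0 := by
    simp only [mul_sub, Finset.sum_sub_distrib]
    rw [← h1, ← Finset.sum_mul, h2, hξ]; ring
  have h4 := (Finset.sum_eq_zero_iff_of_nonneg (fun l _ => mul_nonneg (wt_nonneg a0 _)
    (sub_nonneg.2 (hmin _)))).1 h3 l (Finset.mem_range.2 hl)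
  rcases mul_eq_zero.1 h4 with h | h
  · exact absurd h hw.ne'
  · exact sub_eq_zero.1 h

/-- casting a string -/
def cs {a : ℕ} (s : List (Fin a)) : List ℤ := List.map (fun l : Fin a => ((l : ℕ) : ℤ)) s

theorem core (hK : KER) (hA : AVG) (hD : DIST) (hX : AXIS) (hT : TCNT) {a0 a1 a2 : ℤ}
    (h : Par a0 a1 a2) (S : Finset (ℤ × ℤ)) (c : ℤ × ℤ → ℂ) (h0 : (0 : ℤ × ℤ) ∉ S)
    (hI : Inv a0 a1 a2 (tp S c)) (ξ0 : ℝ × ℝ) (hmin : ∀ ξ, tp S c ξ0 ≤ tp S c ξ)
    (hneg : tp S c ξ0 < 0) (hne : tp S c (0, 0) ≠ tp S c ξ0) : False := by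
  classical
  have ha : 0 < a0 := h.pos.trans h.lt
  have ha2 : 2 ≤ a0.toNat := by have := h.pos; have := h.lt; omega
  set g := tp S c with hg
  obtain ⟨K, hKa⟩ := hA a0 a1 a2 h S h0
  -- the exceptional set on the axis
  have hfin : {x : ℝ | 0 ≤ x ∧ x < 1 ∧ g (x, 0) = g ξ0}.Finite := by
    by_contra hinf
    exact hne (hX S c (g ξ0) hinf 0)
  obtain ⟨s, hs, hst⟩ := hT a0.toNat K hfin.toFinset.card ha2
    (fun s => g (node a0 a1 a2 ξ0 (cs s)) = g ξ0)
    (fun s => ∃ z : ℤ, (node a0 a1 a2 ξ0 (cs s)).2 = z) rfl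
    (by
      intro s hV hH l
      have hH' : ∀ z : ℤ, (node a0 a1 a2 ξ0 (cs s)).2 ≠ z := by
        intro z hz; exact hH ⟨z, hz⟩
      have hw : 0 < wt a0 ((node a0 a1 a2 ξ0 (cs s)).2 + ((l : ℕ) : ℝ)) := by
        refine wt_pos ha fun z hz => hH' (z - (l : ℕ)) ?_
        push_cast
        push_cast at hz
        linarith
      exact child_min hK ha hI hmin hV l.2 hw)
    (by
      intro s hV ⟨z, hz⟩
      -- the child
      have hl1 : 0 ≤ (-z) % a0 := Int.emod_nonneg _ ha.ne'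
      have hl2 : (-z) % a0 < a0 := Int.emod_lt_of_pos _ ha
      obtain ⟨j, hj⟩ : ∃ j : ℤ, z + (-z) % a0 = a0 * j := by
        refine ⟨-((-z) / a0), ?_⟩
        have := Int.emod_add_mul_ediv (-z) a0
        linarith
      have hl3 : ((-z) % a0).toNat < a0.toNat := by omega
      refine ⟨⟨((-z) % a0).toNat, hl3⟩, ?_⟩
      have hcast : ((((-z) % a0).toNat : ℕ) : ℤ) = (-z) % a0 := Int.toNat_of_nonneg hl1
      have hcastR : ((((-z) % a0).toNat : ℕ) : ℝ) = (((-z) % a0 : ℤ) : ℝ) := by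
        exact_mod_cast congrArg (fun t : ℤ => (t : ℝ)) hcast
      have hy : (node a0 a1 a2 ξ0 (cs s)).2 + ((((-z) % a0).toNat : ℕ) : ℝ) =
          ((a0 * j : ℤ) : ℝ) := by
        rw [hz, hcastR, ← hj]; push_cast; ring
      refine ⟨?_, ?_⟩
      · refine child_min hK ha hI hmin hV hl3 ?_
        rw [hy]; exact wt_pos' ha
      · rintro ⟨z', hz'⟩
        have h5 : (node a0 a1 a2 ξ0 (cs (⟨((-z) % a0).toNat, hl3⟩ :: s))).2 =
            (node a0 a1 a2 ξ0 (cs s)).1 - a1 * ((node a0 a1 a2 ξ0 (cs s)).2 +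
              ((((-z) % a0).toNat : ℕ) : ℝ)) / a0 := by
          simp only [cs, List.map_cons, node, nd]
          push_cast
          rfl
        rw [h5, hy] at hz'
        have ha0 : (a0 : ℝ) ≠ 0 := by exact_mod_cast ha.ne'
        have h6 : (node a0 a1 a2 ξ0 (cs s)).1 = ((z' + a1 * j : ℤ) : ℝ) := by
          have : a1 * ((a0 * j : ℤ) : ℝ) / a0 = a1 * j := by push_cast; field_simp
          rw [this] at hz'
          push_cast; linarith
        apply hne
        rw [← hV]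
        have h7 : node a0 a1 a2 ξ0 (cs s) = (0 + ((z' + a1 * j : ℤ) : ℝ), 0 + (z : ℝ)) := by
          ext
          · rw [h6]; simp
          · rw [hz]; simp
        rw [h7, hg, tp_periodic])
    (by
      intro n F hF
      refine Finset.card_le_card_of_injOn
        (fun s => Int.fract (node a0 a1 a2 ξ0 (cs s)).1) ?_ ?_
      · intro s hs
        obtain ⟨-, hV, z, hz⟩ := hF s hs
        rw [Finset.mem_coe, Set.Finite.mem_toFinset]
        refine ⟨Int.fract_nonneg _, Int.fract_lt_one _, ?_⟩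
        have e1 : tp S c (Int.fract (node a0 a1 a2 ξ0 (cs s)).1, 0) =
            tp S c (node a0 a1 a2 ξ0 (cs s)) := by
          rw [← tp_periodic S c _ 0 ⌊(node a0 a1 a2 ξ0 (cs s)).1⌋ z]
          rw [Int.fract_add_floor, zero_add, ← hz]
        exact e1.trans hV
      · intro s hs s' hs' hss
        obtain ⟨hn, hV, z, hz⟩ := hF s hs
        obtain ⟨hn', hV', z', hz'⟩ := hF s' hs'
        have hss' : Int.fract (node a0 a1 a2 ξ0 (cs s)).1 =
          Int.fract (node a0 a1 a2 ξ0 (cs s')).1 := hss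
        rw [Int.fract_eq_fract] at hss'
        obtain ⟨m, hm⟩ := hss'
        have hmem : ∀ t : List (Fin a0.toNat), ∀ l ∈ cs t, 0 ≤ l ∧ l < a0 := by
          intro t l hl
          rw [cs, List.mem_map] at hl
          obtain ⟨i, -, rfl⟩ := hl
          have := i.2
          omega
        have h8 := hD a0 a1 a2 h (cs s) (cs s') ξ0 (m, z - z')
          (by simp only [cs, List.length_map]; rw [hn, hn']) (hmem s) (hmem s') (by
            ext
            · simpa using hm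
            · simp only [Prod.snd_sub]
              rw [hz, hz']; push_cast; ring)
        refine List.map_injective_iff.2 ?_ h8
        intro i j hij
        have hij' : ((i : ℕ) : ℤ) = ((j : ℕ) : ℤ) := hij
        exact Fin.ext (by exact_mod_cast hij'))
  -- the average at the node
  have h9 := hKa c (node a0 a1 a2 ξ0 (cs s))
  have h10 : ∀ l : Fin K → Fin a0.toNat, tp S c (node a0 a1 a2 (node a0 a1 a2 ξ0 (cs s))
      (List.ofFn fun i => ((l i : ℕ) : ℤ))) = g ξ0 := by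
    intro l
    have h11 : (List.ofFn fun i => ((l i : ℕ) : ℤ)) = cs (List.ofFn l) := by
      rw [cs, List.map_ofFn]; rfl
    rw [h11, ← node_append]
    have h12 : cs (List.ofFn l) ++ cs s = cs (List.ofFn l ++ s) := by
      rw [cs, cs, cs, List.map_append]
    rw [h12]
    exact hst (List.ofFn l) (by rw [List.length_ofFn])
  rw [Finset.sum_congr rfl (fun l _ => h10 l)] at h9
  rw [Finset.sum_const, nsmul_eq_mul, Finset.card_univ, Fintype.card_fun, Fintype.card_fin,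
    Fintype.card_fin] at h9
  have h13 : (0 : ℝ) < ((a0.toNat ^ K : ℕ) : ℝ) := by
    have : 0 < a0.toNat ^ K := by positivity
    exact_mod_cast this
  nlinarith

end TreeP

open TreeP

theorem t_TREE (hK : KER) (hA : AVG) (hD : DIST) (hX : AXIS) (hT : TCNT) : TREE := by
  intro a0 a1 a2 h S c h0 hne hI
  have ha : 0 < a0 := h.pos.trans h.lt
  obtain ⟨K, hKa⟩ := hA a0 a1 a2 h S h0
  -- negative and positive values
  have hval : ∀ c : ℤ × ℤ → ℂ, (∃ ξ, tp S c ξ ≠ 0) → ∃ ξ, tp S c ξ < 0 := by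
    intro c ⟨ξ1, h1⟩
    by_contra hcon
    push Not at hcon
    obtain ⟨ξ, hξ⟩ := node_surj (a1 := a1) ha h.pos K ξ1
    have h2 := hKa c ξ
    have h3 := (Finset.sum_eq_zero_iff_of_nonneg (fun l _ => hcon _)).1 h2
      (fun _ => ⟨0, by omega⟩) (Finset.mem_univ _)
    have h4 : (List.ofFn fun _ : Fin K => (((⟨0, by omega⟩ : Fin a0.toNat) : ℕ) : ℤ)) =
        List.replicate K 0 := by
      rw [List.ofFn_const]; rfl
    rw [h4, hξ] at h3
    exact h1 h3
  obtain ⟨ξ0, hmin⟩ := exists_min S c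
  obtain ⟨ξ1, hmax⟩ := exists_min S (fun δ => -c δ)
  obtain ⟨ξ2, h2⟩ := hval c hne
  obtain ⟨ξ3, h3⟩ := hval (fun δ => -c δ) (by
    obtain ⟨ξ, hξ⟩ := hne
    exact ⟨ξ, by rw [tp_neg]; exact neg_ne_zero.2 hξ⟩)
  by_cases hc : tp S c (0, 0) = tp S c ξ0
  · refine core hK hA hD hX hT h S (fun δ => -c δ) h0 ?_ ξ1 hmax ((hmax ξ3).trans_lt h3) ?_
    · intro ξ
      simp only [tp_neg]
      rw [hI ξ]
      simp only [mul_neg, Finset.sum_neg_distrib]
    · rw [tp_neg, hc]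
      have h4 := (hmin ξ2).trans_lt h2
      have h5 := (hmax ξ3).trans_lt h3
      linarith
  · exact core hK hA hD hX hT h S c h0 hI ξ0 hmin ((hmin ξ2).trans_lt h2) hc

end Pool.Agent.R499.GB
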