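import Pool.Agent.R499.GB.Surj
import Pool.Agent.R499.GB.Count
import Pool.Agent.R499.GB.Fin
import Pool.Agent.R499.GB.Merge
import Pool.Agent.R499.GB.Ker
import Pool.Agent.R499.GB.Oper
import Pool.Agent.R499.GB.Avg
import Pool.Agent.R499.GB.Dist
import Pool.Agent.R499.GB.Axis
import Pool.Agent.R499.GB.Tcnt
import Pool.Agent.R499.GB.Tree
import Pool.Agent.R499.GB.Aew
import Pool.Agent.R499.GB.Flo
import Pool.Agent.R499.GB.Reach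
import Pool.Agent.R499.GB.Fin3

/-! Project GB: all pieces together. -/

set_option autoImplicit false

namespace Pool.Agent.R499.GB

theorem final (a0 a1 a2 : ℤ) (α : ℂ)
    (h2 : 0 < a2) (hg : ∀ c : ℤ, c ∣ a0 → c ∣ a1 → c ∣ a2 → IsUnit c)
    (hroot : (a2 : ℂ) * α ^ 2 + a1 * α + a0 = 0) (him : α.im ≠ 0) (hα : 1 < ‖α‖) :
    ∀ᵐ x : ℂ,
      (∀ (k : ℤ) (d : ℕ → ℤ), IsExp a0 a1 a2 α x k d →
        ∀ (ℓ : ℕ) (w : Fin ℓ → ℤ), (∀ i, 0 ≤ w i ∧ w i < |a0|) →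
          HasFreq d ℓ w (1 / (|a0| : ℝ) ^ ℓ)) ∧
      (∀ (k : ℤ) (N : ℕ → ℂ) (d : ℕ → ℤ), IsGenExp a0 a1 a2 α x k N d →
        ∀ (ℓ : ℕ) (w : Fin ℓ → ℤ), (∀ i, 0 ≤ w i ∧ w i < |a0|) →
          HasFreq d ℓ w (1 / (|a0| : ℝ) ^ ℓ)) :=
  mainF t_PER (t_COUNT t_SURJ)
    (t_MERGE (t_COUNT t_SURJ) t_FIN
      (t_REACH t_FIN (t_OPER t_KER) (t_TREE t_KER t_AVG (t_DIST t_SURJ) t_AXIS t_TCNT)))
    t_AEW t_FLO a0 a1 a2 α h2 hg hroot him hα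

end Pool.Agent.R499.GB
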