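import Mathlib

/-!
# Project GB (MP_cdbd41_nt): digit frequencies in a complex quadratic rational base

Coordinates: the lattice `Λ = a₂ ℤ + (a₂ α + a₁) ℤ`, a point `u a₂ + v (a₂ α + a₁)` is `(u, v)`.
-/

set_option autoImplicit false

namespace Pool.Agent.R499.GB

open Filter Topology

/-- the digit of a lattice point -/
def dg (a0 a1 a2 : ℤ) (N : ℤ × ℤ) : ℤ := (a2 * N.1 + a1 * N.2) % a0

/-- the map `N ↦ (N - d) / α` in coordinates -/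
def T (a0 a1 a2 : ℤ) (N : ℤ × ℤ) : ℤ × ℤ := (N.2, -((a2 * N.1 + a1 * N.2) / a0))

/-- the step of a difference `δ` when the digit is `d` -/
def st (a0 a1 a2 d : ℤ) (δ : ℤ × ℤ) : ℤ × ℤ := (δ.2, -((d + (a2 * δ.1 + a1 * δ.2)) / a0))

/-- the chain of differences, driven by the digits `d 0, d 1, …` -/
def ch (a0 a1 a2 : ℤ) (d : ℕ → ℤ) (δ : ℤ × ℤ) : ℕ → ℤ × ℤ
  | 0 => δ
  | n + 1 => st a0 a1 a2 (d n) (ch a0 a1 a2 d δ n)

/-- the standing assumptions: `P = a₂ X² + a₁ X + a₀` is primitive, has non-real roots of modulus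
`> 1` -/
structure Par (a0 a1 a2 : ℤ) : Prop where
  pos : 0 < a2
  lt : a2 < a0
  disc : a1 ^ 2 < 4 * a0 * a2
  cop : ∀ p : ℕ, p.Prime → ¬ ((p : ℤ) ∣ a0 ∧ (p : ℤ) ∣ a1 ∧ (p : ℤ) ∣ a2)

/-- the box `[0, a₀^k)²` -/
noncomputable def box (a0 : ℤ) (k : ℕ) : Finset (ℤ × ℤ) :=
  Finset.Ico 0 (a0 ^ k) ×ˢ Finset.Ico 0 (a0 ^ k)

/-- `e(x) = exp(2 π i x)` -/
noncomputable def e (x : ℝ) : ℂ := Complex.exp (2 * Real.pi * Complex.I * x)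

/-- the pairing of an integer vector with a real vector -/
noncomputable def pr (δ : ℤ × ℤ) (ξ : ℝ × ℝ) : ℝ := δ.1 * ξ.1 + δ.2 * ξ.2

/-- the child number `l` of a point `ξ` -/
noncomputable def nd (a0 a1 a2 : ℤ) (l : ℤ) (ξ : ℝ × ℝ) : ℝ × ℝ :=
  (-(a2 * (ξ.2 + l) / a0), ξ.1 - a1 * (ξ.2 + l) / a0)

/-- the node reached from `ξ` along a list; the head of the list is the LAST step -/
noncomputable def node (a0 a1 a2 : ℤ) (ξ : ℝ × ℝ) : List ℤ → ℝ × ℝ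
  | [] => ξ
  | l :: s => nd a0 a1 a2 l (node a0 a1 a2 ξ s)

/-- the weight of a child -/
noncomputable def wt (a0 : ℤ) (y : ℝ) : ℝ :=
  ‖∑ d ∈ Finset.range a0.toNat, e (d * y / a0)‖ ^ 2 / (a0 : ℝ) ^ 2

/-- trigonometric polynomial with spectrum in `S` -/
noncomputable def tp (S : Finset (ℤ × ℤ)) (c : ℤ × ℤ → ℂ) (ξ : ℝ × ℝ) : ℝ :=
  (∑ δ ∈ S, c δ * e (pr δ ξ)).re

/-- a finite closed set of differences, not containing `0` -/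
def Closed0 (a0 a1 a2 : ℤ) (S : Finset (ℤ × ℤ)) : Prop :=
  S.Nonempty ∧ (0 : ℤ × ℤ) ∉ S ∧ ∀ δ ∈ S, ∀ d : ℤ, 0 ≤ d → d < a0 → st a0 a1 a2 d δ ∈ S

/-- a real function invariant under the weighted children average -/
def Inv (a0 a1 a2 : ℤ) (g : ℝ × ℝ → ℝ) : Prop :=
  ∀ ξ, g ξ = ∑ l ∈ Finset.range a0.toNat, wt a0 (ξ.2 + l) * g (nd a0 a1 a2 l ξ)

end Pool.Agent.R499.GB
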