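import Pool.Agent.R499.GB.Stm

/-! Project GB: coordinates, generalised expansions, distance estimate. -/

set_option autoImplicit false

namespace Pool.Agent.R499.GB

open Filter Topology

/-- the lattice `Λ_α = a₂ ℤ + (a₂ α + a₁) ℤ` -/
def Lam (a1 a2 : ℤ) (α : ℂ) : Set ℂ :=
  {z | ∃ u v : ℤ, z = u * a2 + v * (a2 * α + a1)}

/-- `d 0, d 1, d 2, …` (that is `d_k, d_{k-1}, …`) is an `α`-expansion of `x` starting at the
position `k` -/
structure IsExp (a0 a1 a2 : ℤ) (α x : ℂ) (k : ℤ) (d : ℕ → ℤ) : Prop where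
  digit : ∀ t, 0 ≤ d t ∧ d t < |a0|
  sum : HasSum (fun t : ℕ => (d t : ℂ) * α ^ (k - (t : ℤ))) x
  pre : ∀ t : ℕ, ∑ i ∈ Finset.range (t + 1), (d i : ℂ) * α ^ (t - i) ∈ Lam a1 a2 α

/-- a generalised expansion: `N 0` may be any point of the lattice -/
structure IsGenExp (a0 a1 a2 : ℤ) (α x : ℂ) (k : ℤ) (N : ℕ → ℂ) (d : ℕ → ℤ) : Prop where
  digit : ∀ t, 0 ≤ d t ∧ d t < |a0|
  mem : ∀ t, N t ∈ Lam a1 a2 α
  step : ∀ t, N (t + 1) = α * N t + d t
  lim : Tendsto (fun t : ℕ => α ^ (k + 1 - (t : ℤ)) * N t) atTop (𝓝 x)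

/-- the word `w` has the frequency `c` in the infinite word `d` -/
def HasFreq (d : ℕ → ℤ) (ℓ : ℕ) (w : Fin ℓ → ℤ) (c : ℝ) : Prop :=
  Tendsto (fun n : ℕ =>
    (((Finset.range n).filter (fun t => ∀ i : Fin ℓ, d (t + i) = w i)).card : ℝ) / n)
    atTop (𝓝 c)

theorem IsExp.gen {a0 a1 a2 : ℤ} {α x : ℂ} {k : ℤ} {d : ℕ → ℤ} (hα : α ≠ 0)
    (h : IsExp a0 a1 a2 α x k d) :
    IsGenExp a0 a1 a2 α x k (fun t => ∑ i ∈ Finset.range t, (d i : ℂ) * α ^ (t - 1 - i)) d := by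
  refine ⟨h.digit, ?_, ?_, ?_⟩
  · intro t
    rcases t with _ | t
    · exact ⟨0, 0, by simp⟩
    · exact h.pre t
  · intro t
    rw [Finset.sum_range_succ, Finset.mul_sum]
    have h1 : t + 1 - 1 - t = 0 := by omega
    rw [h1, pow_zero, mul_one]
    congr 1
    refine Finset.sum_congr rfl fun i hi => ?_
    have hi' := Finset.mem_range.1 hi
    have h2 : t + 1 - 1 - i = (t - 1 - i) + 1 := by omega
    rw [h2, pow_succ]
    ring
  · have h1 := h.sum.tendsto_sum_nat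
    refine h1.congr fun t => ?_
    rw [Finset.mul_sum]
    refine Finset.sum_congr rfl fun i hi => ?_
    have hi' := Finset.mem_range.1 hi
    have h2 : ((t - 1 - i : ℕ) : ℤ) = (t : ℤ) - 1 - i := by omega
    rw [← zpow_natCast α (t - 1 - i), h2, mul_left_comm, ← zpow_add₀ hα]
    congr 2
    ring

section Coord

variable {a0 a1 a2 : ℤ} {α : ℂ}

theorem root_re_im (hroot : (a2 : ℂ) * α ^ 2 + a1 * α + a0 = 0) (him : α.im ≠ 0) :
    (a1 : ℝ) = -2 * a2 * α.re ∧ (a0 : ℝ) = a2 * (α.re ^ 2 + α.im ^ 2) := by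
  have h1 := congrArg Complex.im hroot
  have h2 := congrArg Complex.re hroot
  simp only [Complex.add_im, Complex.add_re, Complex.mul_im, Complex.mul_re, Complex.intCast_re,
    Complex.intCast_im, pow_two, Complex.zero_re, Complex.zero_im] at h1 h2
  have h3 : (a1 : ℝ) = -2 * a2 * α.re := by
    have : α.im * ((a1 : ℝ) + 2 * a2 * α.re) = 0 := by linarith
    rcases mul_eq_zero.1 this with h | h
    · exact absurd h him
    · linarith
  refine ⟨h3, ?_⟩
  rw [h3] at h2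
  nlinarith [h2]

theorem par_of (h2 : 0 < a2) (hg : ∀ c : ℤ, c ∣ a0 → c ∣ a1 → c ∣ a2 → IsUnit c)
    (hroot : (a2 : ℂ) * α ^ 2 + a1 * α + a0 = 0) (him : α.im ≠ 0) (hα : 1 < ‖α‖) :
    Par a0 a1 a2 := by
  obtain ⟨e1, e0⟩ := root_re_im hroot him
  have hn : 1 < α.re ^ 2 + α.im ^ 2 := by
    have h := Complex.sq_norm α
    rw [Complex.normSq_apply] at h
    nlinarith [hα, norm_nonneg α]
  have h2' : (0 : ℝ) < a2 := by exact_mod_cast h2
  refine ⟨h2, ?_, ?_, ?_⟩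
  · have : (a2 : ℝ) < a0 := by
      rw [e0]
      nlinarith
    exact_mod_cast this
  · have : ((a1 : ℝ)) ^ 2 < 4 * a0 * a2 := by
      rw [e0, e1]
      have : 0 < (a2 : ℝ) ^ 2 * α.im ^ 2 := by positivity
      nlinarith
    exact_mod_cast this
  · rintro p hp ⟨h, h', h''⟩
    have := hg p h h' h''
    have h3 : IsUnit (p : ℤ) ↔ p = 1 := by
      rw [Int.isUnit_iff]
      constructor
      · rintro (h | h) <;> omega
      · intro h
        left
        exact_mod_cast h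
    exact hp.one_lt.ne' (h3.1 this)

/-- coordinates -/
noncomputable def cV (a2 : ℤ) (α y : ℂ) : ℝ := y.im / (a2 * α.im)

/-- coordinates -/
noncomputable def cU (a1 a2 : ℤ) (α y : ℂ) : ℝ := (y.re - cV a2 α y * (a2 * α.re + a1)) / a2

/-- the point with given coordinates -/
noncomputable def toC (a1 a2 : ℤ) (α : ℂ) (N : ℤ × ℤ) : ℂ := N.1 * a2 + N.2 * (a2 * α + a1)

theorem cV_toC (h2 : 0 < a2) (him : α.im ≠ 0) (N : ℤ × ℤ) : cV a2 α (toC a1 a2 α N) = N.2 := by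
  have h2' : (a2 : ℝ) ≠ 0 := by exact_mod_cast h2.ne'
  unfold cV toC
  simp only [Complex.add_im, Complex.mul_im, Complex.intCast_re, Complex.intCast_im,
    Complex.add_re, Complex.mul_re]
  field_simp
  ring

theorem cU_toC (h2 : 0 < a2) (him : α.im ≠ 0) (N : ℤ × ℤ) :
    cU a1 a2 α (toC a1 a2 α N) = N.1 := by
  have h2' : (a2 : ℝ) ≠ 0 := by exact_mod_cast h2.ne'
  unfold cU
  rw [cV_toC h2 him]
  unfold toC
  simp only [Complex.add_im, Complex.mul_im, Complex.intCast_re, Complex.intCast_im,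
    Complex.add_re, Complex.mul_re]
  field_simp
  ring

theorem cV_sub (y z : ℂ) : cV a2 α (y - z) = cV a2 α y - cV a2 α z := by
  unfold cV
  rw [Complex.sub_im]
  ring

theorem cU_sub (y z : ℂ) : cU a1 a2 α (y - z) = cU a1 a2 α y - cU a1 a2 α z := by
  unfold cU
  rw [cV_sub, Complex.sub_re]
  ring

theorem cV_bd (y : ℂ) : |cV a2 α y| ≤ (1 / |a2 * α.im|) * ‖y‖ := by
  unfold cV
  rw [abs_div, div_eq_inv_mul, one_div]
  exact mul_le_mul_of_nonneg_left (Complex.abs_im_le_norm y) (by positivity)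

theorem cU_bd (h2 : 0 < a2) (y : ℂ) :
    |cU a1 a2 α y| ≤ ((1 + (1 / |a2 * α.im|) * |a2 * α.re + a1|) / a2) * ‖y‖ := by
  have h2' : (0 : ℝ) < a2 := by exact_mod_cast h2
  unfold cU
  rw [abs_div, abs_of_pos h2', div_mul_eq_mul_div]
  refine div_le_div_of_nonneg_right ?_ h2'.le
  calc |y.re - cV a2 α y * (a2 * α.re + a1)|
      ≤ |y.re| + |cV a2 α y * (a2 * α.re + a1)| := abs_sub _ _
    _ ≤ ‖y‖ + ((1 / |a2 * α.im|) * ‖y‖) * |a2 * α.re + a1| := by
        rw [abs_mul]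
        exact add_le_add (Complex.abs_re_le_norm y)
          (mul_le_mul_of_nonneg_right (cV_bd y) (abs_nonneg _))
    _ = (1 + (1 / |a2 * α.im|) * |a2 * α.re + a1|) * ‖y‖ := by ring

theorem toC_inj (h2 : 0 < a2) (him : α.im ≠ 0) {N M : ℤ × ℤ}
    (h : toC a1 a2 α N = toC a1 a2 α M) : N = M := by
  have h1 := congrArg (cU a1 a2 α) h
  have h3 := congrArg (cV a2 α) h
  rw [cU_toC h2 him, cU_toC h2 him] at h1
  rw [cV_toC h2 him, cV_toC h2 him] at h3
  exact Prod.ext (by exact_mod_cast h1) (by exact_mod_cast h3)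

/-- the step -/
theorem step_eq (h2 : 0 < a2) (him : α.im ≠ 0)
    (hroot : (a2 : ℂ) * α ^ 2 + a1 * α + a0 = 0) (N M : ℤ × ℤ) (d : ℤ) (hd0 : 0 ≤ d)
    (hd1 : d < a0) (h : toC a1 a2 α M = α * toC a1 a2 α N + d) :
    T a0 a1 a2 M = N ∧ dg a0 a1 a2 M = d := by
  obtain ⟨e1, e0⟩ := root_re_im hroot him
  have h2' : (a2 : ℝ) ≠ 0 := by exact_mod_cast h2.ne'
  have key : M.2 = N.1 ∧ a2 * M.1 + a1 * M.2 = d + a0 * (-N.2) := by
    unfold toC at h
    have hi := congrArg Complex.im h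
    have hr := congrArg Complex.re h
    simp only [Complex.add_im, Complex.mul_im, Complex.intCast_re, Complex.intCast_im,
      Complex.add_re, Complex.mul_re] at hi hr
    have k1 : (M.2 : ℝ) = N.1 := by
      have : (a2 * α.im) * ((M.2 : ℝ) - N.1) = (a2 * α.im) * 0 := by
        rw [e1] at hi
        linear_combination hi
      have h3 : (a2 : ℝ) * α.im ≠ 0 := mul_ne_zero h2' him
      have := mul_left_cancel₀ h3 this
      linarith
    have k2 : (a2 : ℝ) * M.1 + a1 * M.2 = d + a0 * (-N.2) := by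
      rw [e0]
      rw [e1] at hr ⊢
      rw [k1] at hr ⊢
      linear_combination hr
    exact ⟨by exact_mod_cast k1, by exact_mod_cast k2⟩
  have ha0 : 0 < a0 := lt_of_le_of_lt hd0 hd1
  unfold T dg
  rw [key.2]
  constructor
  · ext
    · exact key.1
    · simp only
      rw [Int.add_mul_ediv_left _ _ ha0.ne', Int.ediv_eq_zero_of_lt hd0 hd1]
      ring
  · rw [Int.add_mul_emod_self_left]
    exact Int.emod_eq_of_lt hd0 hd1

end Coord

section Gen

variable {a0 a1 a2 : ℤ} {α x : ℂ} {k : ℤ} {N : ℕ → ℂ} {d : ℕ → ℤ}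

theorem IsGenExp.dist (hα : 1 < ‖α‖) (h : IsGenExp a0 a1 a2 α x k N d) (t : ℕ) :
    ‖α ^ ((t : ℤ) - k - 1) * x - N t‖ ≤ |(a0 : ℝ)| / (‖α‖ - 1) := by
  have hα0 : α ≠ 0 := by
    intro h0
    rw [h0, norm_zero] at hα
    linarith
  have hpos : 0 < ‖α‖ := by linarith
  set B : ℝ := |(a0 : ℝ)| / (‖α‖ - 1) with hB
  have hB0 : 0 ≤ B := div_nonneg (abs_nonneg _) (by linarith)
  have hBm : B * (‖α‖ - 1) = |(a0 : ℝ)| := by
    rw [hB]
    exact div_mul_cancel₀ _ (by linarith)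
  have key : ∀ s : ℕ, ‖α⁻¹ ^ s * N (t + s) - N t‖ ≤ B * (1 - (‖α‖⁻¹) ^ s) := by
    intro s
    induction s with
    | zero => simp
    | succ s ih =>
      have e1 : α⁻¹ ^ (s + 1) * N (t + (s + 1)) - N t =
          (α⁻¹ ^ s * N (t + s) - N t) + (d (t + s) : ℂ) * α⁻¹ ^ (s + 1) := by
        rw [← add_assoc, h.step (t + s), pow_succ]
        field_simp
        ring
      rw [e1]
      refine (norm_add_le _ _).trans ?_
      have e2 : ‖(d (t + s) : ℂ) * α⁻¹ ^ (s + 1)‖ ≤ |(a0 : ℝ)| * (‖α‖⁻¹) ^ (s + 1) := by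
        rw [norm_mul, norm_pow, norm_inv]
        refine mul_le_mul_of_nonneg_right ?_ (by positivity)
        obtain ⟨h0, h1⟩ := h.digit (t + s)
        rw [Complex.norm_intCast]
        have : |((d (t + s) : ℤ) : ℝ)| = (d (t + s) : ℝ) := abs_of_nonneg (by exact_mod_cast h0)
        rw [this]
        have h3 : ((d (t + s) : ℤ) : ℝ) < ((|a0| : ℤ) : ℝ) := by exact_mod_cast h1
        rw [Int.cast_abs] at h3
        exact h3.le
      have e3 : |(a0 : ℝ)| * (‖α‖⁻¹) ^ (s + 1) =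
          B * ((‖α‖⁻¹) ^ s - (‖α‖⁻¹) ^ (s + 1)) := by
        rw [← hBm, pow_succ]
        field_simp
      calc ‖α⁻¹ ^ s * N (t + s) - N t‖ + ‖(d (t + s) : ℂ) * α⁻¹ ^ (s + 1)‖
          ≤ B * (1 - (‖α‖⁻¹) ^ s) + B * ((‖α‖⁻¹) ^ s - (‖α‖⁻¹) ^ (s + 1)) := by
            rw [← e3]
            exact add_le_add ih e2
        _ = B * (1 - (‖α‖⁻¹) ^ (s + 1)) := by ring
  have lim : Tendsto (fun s : ℕ => ‖α⁻¹ ^ s * N (t + s) - N t‖) atTop
      (𝓝 ‖α ^ ((t : ℤ) - k - 1) * x - N t‖) := by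
    refine Tendsto.norm (Tendsto.sub_const ?_ _)
    have h1 : Tendsto (fun s : ℕ => α ^ (k + 1 - ((s + t : ℕ) : ℤ)) * N (s + t)) atTop (𝓝 x) :=
      h.lim.comp (tendsto_add_atTop_nat t)
    have h2 := h1.const_mul (α ^ ((t : ℤ) - k - 1))
    refine h2.congr fun s => ?_
    rw [← mul_assoc, ← zpow_add₀ hα0, add_comm s t]
    congr 1
    have : (t : ℤ) - k - 1 + (k + 1 - ((t + s : ℕ) : ℤ)) = -(s : ℤ) := by push_cast; ring
    rw [this, zpow_neg, zpow_natCast, inv_pow]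
  refine le_of_tendsto lim (Eventually.of_forall fun s => (key s).trans ?_)
  have : 0 ≤ (‖α‖⁻¹) ^ s := by positivity
  nlinarith

end Gen

end Pool.Agent.R499.GB
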