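import Pool.Agent.R499.GB.Fin1

/-! Project GB: almost everywhere statement and periodic sets. -/

set_option autoImplicit false

namespace Pool.Agent.R499.GB

open Filter Topology

/-- the integer part of the coordinates -/
noncomputable def fl (a1 a2 : ℤ) (α y : ℂ) : ℤ × ℤ := (⌊cU a1 a2 α y⌋, ⌊cV a2 α y⌋)

/-- genericity -/
def Gnr (a1 a2 : ℤ) (α x : ℂ) : Prop :=
  ∀ (r : ℤ) (Q : ℕ), 0 < Q → ∀ r1 s1 : ℤ,
    Tendsto (fun n : ℕ => (((Finset.range n).filter
      (fun m : ℕ => (Q : ℤ) ∣ (fl a1 a2 α (α ^ ((m : ℤ) + r) * x)).1 - r1 ∧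
        (Q : ℤ) ∣ (fl a1 a2 α (α ^ ((m : ℤ) + r) * x)).2 - s1)).card : ℝ) / n) atTop
      (𝓝 (1 / (Q : ℝ) ^ 2))

/-- the frequency vector -/
noncomputable def z0 (a1 a2 : ℤ) (α : ℂ) (h k : ℤ) : ℂ :=
  ⟨h / a2, -((k - h * (a2 * α.re + a1) / a2) / (a2 * α.im))⟩

theorem z0_re (a1 a2 : ℤ) (α y : ℂ) (h k : ℤ) :
    (z0 a1 a2 α h k * y).re = h * cU a1 a2 α y + k * cV a2 α y := by
  unfold z0 cU cV
  simp only [Complex.mul_re]
  ring

theorem z0_ne {a1 a2 : ℤ} {α : ℂ} (h2 : 0 < a2) (him : α.im ≠ 0) {h k : ℤ}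
    (hk : (h, k) ≠ (0, 0)) : z0 a1 a2 α h k ≠ 0 := by
  intro h0
  have h2' : (a2 : ℝ) ≠ 0 := by exact_mod_cast h2.ne'
  have e1 := congrArg Complex.re h0
  have e2 := congrArg Complex.im h0
  unfold z0 at e1 e2
  simp only [Complex.zero_re, Complex.zero_im] at e1 e2
  have f1 : (h : ℝ) = 0 := by
    rcases div_eq_zero_iff.1 e1 with h | h
    · exact h
    · exact absurd h h2'
  rw [f1] at e2
  have e3 : ((k : ℝ) - 0 * (a2 * α.re + a1) / a2) / (a2 * α.im) = 0 := by linarith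
  have f2 : (k : ℝ) = 0 := by
    rcases div_eq_zero_iff.1 e3 with h | h
    · simpa using h
    · exact absurd h (mul_ne_zero h2' him)
  apply hk
  ext
  · exact_mod_cast f1
  · exact_mod_cast f2

theorem ae_gnr (hA : AEW) (hF : FLO) {a1 a2 : ℤ} {α : ℂ} (h2 : 0 < a2) (him : α.im ≠ 0)
    (hα : 1 < ‖α‖) : ∀ᵐ x : ℂ, Gnr a1 a2 α x := by
  have hα0 : α ≠ 0 := by
    intro h0
    rw [h0, norm_zero] at hα
    linarith
  have h1 : ∀ᵐ x : ℂ, ∀ (r : ℤ) (Q : ℕ) (h k : ℤ), 0 < Q → (h, k) ≠ (0, 0) →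
      Tendsto (fun n : ℕ => (∑ m ∈ Finset.range n,
        e ((z0 a1 a2 α h k / Q * α ^ r * α ^ m * x).re)) / (n : ℂ)) atTop (𝓝 0) := by
    rw [MeasureTheory.ae_all_iff]; intro r
    rw [MeasureTheory.ae_all_iff]; intro Q
    rw [MeasureTheory.ae_all_iff]; intro h
    rw [MeasureTheory.ae_all_iff]; intro k
    by_cases hQ : 0 < Q
    · by_cases hk : (h, k) ≠ (0, 0)
      · have hQ' : (Q : ℂ) ≠ 0 := by exact_mod_cast hQ.ne'
        have := hA α hα (z0 a1 a2 α h k / Q * α ^ r)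
          (mul_ne_zero (div_ne_zero (z0_ne h2 him hk) hQ') (zpow_ne_zero _ hα0))
        filter_upwards [this] with x hx _ _ using hx
      · exact Eventually.of_forall fun x _ hk' => absurd hk' hk
    · exact Eventually.of_forall fun x hQ' => absurd hQ' hQ
  filter_upwards [h1] with x hx r Q hQ r1 s1
  refine hF (fun m : ℕ => cU a1 a2 α (α ^ ((m : ℤ) + r) * x))
    (fun m : ℕ => cV a2 α (α ^ ((m : ℤ) + r) * x)) ?_ Q hQ r1 s1
  intro Q' hQ' h k hk
  refine (hx r Q' h k hQ' hk).congr fun n => ?_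
  congr 1
  refine Finset.sum_congr rfl fun m _ => ?_
  congr 1
  have hQ0 : (Q' : ℂ) ≠ 0 := by exact_mod_cast hQ'.ne'
  have e1 : z0 a1 a2 α h k / Q' * α ^ r * α ^ m * x =
      (z0 a1 a2 α h k * (α ^ ((m : ℤ) + r) * x)) / (Q' : ℂ) := by
    rw [zpow_add₀ hα0, zpow_natCast]
    ring
  rw [e1, Complex.div_natCast_re, z0_re]

/-- frequencies of periodic sets -/
theorem freq_per {a1 a2 : ℤ} {α x : ℂ} (hx : Gnr a1 a2 α x) (a0 : ℤ) (ha0 : 0 < a0) (K : ℕ)
    (A : ℤ × ℤ → Prop) [DecidablePred A] (hA : ∀ N M : ℤ × ℤ, A (N + a0 ^ K • M) ↔ A N) (r : ℤ) :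
    Tendsto (fun n : ℕ => (((Finset.range n).filter
      (fun m : ℕ => A (fl a1 a2 α (α ^ ((m : ℤ) + r) * x)))).card : ℝ) / n) atTop
      (𝓝 ((((box a0 K).filter A).card : ℝ) / (a0 : ℝ) ^ (2 * K))) := by
  classical
  obtain ⟨b, rfl⟩ : ∃ b : ℕ, a0 = b := ⟨a0.toNat, by omega⟩
  have hb : 0 < b := by exact_mod_cast ha0
  set Q : ℕ := b ^ K with hQdef
  have hQ : 0 < Q := pow_pos hb K
  have hQz : (Q : ℤ) = (b : ℤ) ^ K := by rw [hQdef]; push_cast; rfl
  have h1 : ∀ n : ℕ, (((Finset.range n).filter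
      (fun m : ℕ => A (fl a1 a2 α (α ^ ((m : ℤ) + r) * x)))).card : ℝ) / n =
      ∑ N ∈ (box b K).filter A, (((Finset.range n).filter
      (fun m : ℕ => (Q : ℤ) ∣ (fl a1 a2 α (α ^ ((m : ℤ) + r) * x)).1 - N.1 ∧
        (Q : ℤ) ∣ (fl a1 a2 α (α ^ ((m : ℤ) + r) * x)).2 - N.2)).card : ℝ) / n := by
    intro n
    rw [← Finset.sum_div]
    congr 1
    have h2 := Finset.card_eq_sum_card_fiberwise (s := (Finset.range n).filter
      (fun m : ℕ => A (fl a1 a2 α (α ^ ((m : ℤ) + r) * x))))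
      (t := (box b K).filter A)
      (f := fun m : ℕ => ((fl a1 a2 α (α ^ ((m : ℤ) + r) * x)).1 % (Q : ℤ),
        (fl a1 a2 α (α ^ ((m : ℤ) + r) * x)).2 % (Q : ℤ))) ?_
    · rw [h2]
      push_cast
      refine Finset.sum_congr rfl fun N hN => ?_
      congr 2
      ext m
      simp only [Finset.mem_filter]
      have hN' := Finset.mem_filter.1 hN
      unfold box at hN'
      simp only [Finset.mem_product, Finset.mem_Ico] at hN'
      obtain ⟨⟨⟨hN1, hN2⟩, hN3, hN4⟩, hNA⟩ := hN'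
      rw [← hQz] at hN2 hN4
      set P := fl a1 a2 α (α ^ ((m : ℤ) + r) * x) with hP
      constructor
      · rintro ⟨⟨hm, _⟩, hE⟩
        refine ⟨hm, ?_, ?_⟩
        · have := congrArg Prod.fst hE
          simp only at this
          rw [← this]
          exact Int.dvd_self_sub_emod
        · have := congrArg Prod.snd hE
          simp only at this
          rw [← this]
          exact Int.dvd_self_sub_emod
      · rintro ⟨hm, ⟨c1, hc1⟩, ⟨c2, hc2⟩⟩
        have e1 : P = N + (b : ℤ) ^ K • ((c1, c2) : ℤ × ℤ) := by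
          ext
          · simp only [Prod.fst_add, Prod.smul_fst, smul_eq_mul]
            rw [← hQz]
            linarith
          · simp only [Prod.snd_add, Prod.smul_snd, smul_eq_mul]
            rw [← hQz]
            linarith
        refine ⟨⟨hm, ?_⟩, ?_⟩
        · rw [e1, hA]
          exact hNA
        · ext
          · simp only
            have : P.1 = N.1 + Q * c1 := by linarith
            rw [this, Int.add_mul_emod_self_left]
            exact Int.emod_eq_of_lt hN1 hN2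
          · simp only
            have : P.2 = N.2 + Q * c2 := by linarith
            rw [this, Int.add_mul_emod_self_left]
            exact Int.emod_eq_of_lt hN3 hN4
    · intro m hm
      have hm' := Finset.mem_filter.1 (Finset.mem_coe.1 hm)
      set P := fl a1 a2 α (α ^ ((m : ℤ) + r) * x) with hP
      have hQ0 : (Q : ℤ) ≠ 0 := by exact_mod_cast hQ.ne'
      have hQp : 0 < (Q : ℤ) := by exact_mod_cast hQ
      refine Finset.mem_coe.2 (Finset.mem_filter.2 ⟨?_, ?_⟩)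
      · unfold box
        simp only [Finset.mem_product, Finset.mem_Ico]
        rw [← hQz]
        exact ⟨⟨Int.emod_nonneg _ hQ0, Int.emod_lt_of_pos _ hQp⟩,
          Int.emod_nonneg _ hQ0, Int.emod_lt_of_pos _ hQp⟩
      · have e1 : P = (P.1 % (Q : ℤ), P.2 % (Q : ℤ)) +
            (b : ℤ) ^ K • ((P.1 / (Q : ℤ), P.2 / (Q : ℤ)) : ℤ × ℤ) := by
          ext
          · simp only [Prod.fst_add, Prod.smul_fst, smul_eq_mul]
            rw [← hQz, Int.emod_add_mul_ediv]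
          · simp only [Prod.snd_add, Prod.smul_snd, smul_eq_mul]
            rw [← hQz, Int.emod_add_mul_ediv]
        have h3 : A P := hm'.2
        rw [e1, hA] at h3
        exact h3
  have h3 : Tendsto (fun n : ℕ => ∑ N ∈ (box b K).filter A, (((Finset.range n).filter
      (fun m : ℕ => (Q : ℤ) ∣ (fl a1 a2 α (α ^ ((m : ℤ) + r) * x)).1 - N.1 ∧
        (Q : ℤ) ∣ (fl a1 a2 α (α ^ ((m : ℤ) + r) * x)).2 - N.2)).card : ℝ) / n) atTop
      (𝓝 (∑ N ∈ (box b K).filter A, 1 / (Q : ℝ) ^ 2)) :=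
    tendsto_finsetSum _ fun N _ => hx r Q hQ N.1 N.2
  have h4 : ∑ N ∈ (box (b : ℤ) K).filter A, 1 / (Q : ℝ) ^ 2 =
      (((box b K).filter A).card : ℝ) / ((b : ℤ) : ℝ) ^ (2 * K) := by
    rw [Finset.sum_const, nsmul_eq_mul, mul_one_div]
    congr 1
    rw [hQdef]
    push_cast
    ring
  rw [← h4]
  exact h3.congr fun n => (h1 n).symm

end Pool.Agent.R499.GB
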