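import Pool.Agent.R499.GB.Stm

/-! Project GB: REACH from FIN, OPER, TREE. -/

set_option autoImplicit false

namespace Pool.Agent.R499.GB

open Filter Topology

theorem st_zero {a0 a1 a2 d : ℤ} (h0 : 0 ≤ d) (h1 : d < a0) : st a0 a1 a2 d 0 = 0 := by
  unfold st
  ext
  · simp
  · simp only [Prod.fst_zero, Prod.snd_zero, mul_zero, add_zero]
    rw [Int.ediv_eq_zero_of_lt h0 h1]
    simp

/-- states reachable from `δ` -/
def Rch (a0 a1 a2 : ℤ) (δ δ' : ℤ × ℤ) : Prop :=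
  ∃ (n : ℕ) (d : ℕ → ℤ), (∀ i, 0 ≤ d i ∧ d i < a0) ∧ ch a0 a1 a2 d δ n = δ'

theorem ch_congr (a0 a1 a2 : ℤ) (d d' : ℕ → ℤ) (δ : ℤ × ℤ) (n : ℕ)
    (h : ∀ i < n, d i = d' i) : ch a0 a1 a2 d δ n = ch a0 a1 a2 d' δ n := by
  induction n with
  | zero => rfl
  | succ n ih =>
    simp only [ch]
    rw [ih (fun i hi => h i (by omega)), h n (by omega)]

theorem Rch.step {a0 a1 a2 : ℤ} {δ δ' : ℤ × ℤ} (h : Rch a0 a1 a2 δ δ') {d : ℤ} (h0 : 0 ≤ d)
    (h1 : d < a0) : Rch a0 a1 a2 δ (st a0 a1 a2 d δ') := by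
  obtain ⟨n, w, hw, hn⟩ := h
  refine ⟨n + 1, fun i => if i = n then d else w i, ?_, ?_⟩
  · intro i
    by_cases hi : i = n
    · simp [hi, h0, h1]
    · simp only [hi, if_false]
      exact hw i
  · simp only [ch, if_true]
    rw [ch_congr a0 a1 a2 _ w δ n, hn]
    intro i hi
    have hne : i ≠ n := by omega
    simp only [hne, if_false]

theorem t_REACH (hF : FIN) (hO : OPER) (hT : TREE) : REACH := by
  intro a0 a1 a2 hP δ
  classical
  obtain ⟨F, hδF, hF⟩ := hF a0 a1 a2 hP δ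
  by_contra hcon
  have hnr : ¬ Rch a0 a1 a2 δ 0 := hcon
  have ha0 : 0 < a0 := hP.pos.trans hP.lt
  let S : Finset (ℤ × ℤ) := F.filter (fun x => Rch a0 a1 a2 δ x)
  have hin : ∀ x, Rch a0 a1 a2 δ x → x ∈ F := by
    rintro x ⟨n, d, hd, rfl⟩
    induction n with
    | zero => exact hδF
    | succ n ih =>
      simp only [ch]
      exact hF _ ih _ (hd n).1 (hd n).2
  have hδ : Rch a0 a1 a2 δ δ := ⟨0, fun _ => 0, fun _ => ⟨le_rfl, ha0⟩, rfl⟩
  have hcl : Closed0 a0 a1 a2 S := by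
    refine ⟨⟨δ, ?_⟩, ?_, ?_⟩
    · exact Finset.mem_filter.2 ⟨hδF, hδ⟩
    · intro h
      exact hnr (Finset.mem_filter.1 h).2
    · intro x hx d h0 h1
      have hx' := (Finset.mem_filter.1 hx).2.step h0 h1
      exact Finset.mem_filter.2 ⟨hin _ hx', hx'⟩
  obtain ⟨c, hc1, hc2⟩ := hO a0 a1 a2 hP S hcl
  exact hT a0 a1 a2 hP S c hcl.2.1 hc1 hc2

end Pool.Agent.R499.GB
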