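import Pool.Agent.R499.GB.Stm

/-! Project GB: piece SURJ (banded Toeplitz systems over the integers). -/

set_option autoImplicit false

namespace Pool.Agent.R499.GB

open Polynomial

namespace H874

lemma surj_bezout {a0 a1 a2 : ℤ} (h : ∀ p : ℕ, p.Prime →
    ¬ ((p : ℤ) ∣ a0 ∧ (p : ℤ) ∣ a1 ∧ (p : ℤ) ∣ a2)) :
    ∃ u v w : ℤ, u * a0 + v * a1 + w * a2 = 1 := by
  have hg : Int.gcd a0 (Int.gcd a1 a2) = 1 := by
    by_contra hne
    obtain ⟨p, hp, hd⟩ := Nat.exists_prime_and_dvd hne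
    have h1 : (p : ℤ) ∣ (Int.gcd a0 (Int.gcd a1 a2) : ℤ) := Int.natCast_dvd_natCast.2 hd
    have h2 : (p : ℤ) ∣ a0 := h1.trans (Int.gcd_dvd_left _ _)
    have h3 : (p : ℤ) ∣ (Int.gcd a1 a2 : ℤ) := h1.trans (Int.gcd_dvd_right _ _)
    exact h p hp ⟨h2, h3.trans (Int.gcd_dvd_left _ _), h3.trans (Int.gcd_dvd_right _ _)⟩
  have e1 := Int.gcd_eq_gcd_ab a0 (Int.gcd a1 a2)
  have e2 := Int.gcd_eq_gcd_ab a1 a2
  rw [hg] at e1
  refine ⟨Int.gcdA a0 (Int.gcd a1 a2), Int.gcdA a1 a2 * Int.gcdB a0 (Int.gcd a1 a2),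
    Int.gcdB a1 a2 * Int.gcdB a0 (Int.gcd a1 a2), ?_⟩
  push_cast at e1
  calc _ = a0 * Int.gcdA a0 (Int.gcd a1 a2) +
        (a1 * Int.gcdA a1 a2 + a2 * Int.gcdB a1 a2) * Int.gcdB a0 (Int.gcd a1 a2) := by ring
    _ = 1 := by rw [← e2, ← e1]

/-- the linear map of the system -/
def surjA (a0 a1 a2 : ℤ) (k : ℕ) : (ℕ → ℤ) →ₗ[ℤ] (Fin k → ℤ) where
  toFun x i := a2 * x i + a1 * x (i + 1) + a0 * x (i + 2)
  map_add' x y := by
    funext i
    simp only [Pi.add_apply]
    ring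
  map_smul' c x := by
    funext i
    simp only [Pi.smul_apply, smul_eq_mul, RingHom.id_apply]
    ring

end H874

open H874

theorem t_SURJ : SURJ := by
  intro a0 a1 a2 hP k d
  have hr : LinearMap.range (surjA a0 a1 a2 k) = ⊤ := by
    by_contra hne
    obtain ⟨M, hM, hle⟩ := (eq_top_or_exists_le_coatom (LinearMap.range (surjA a0 a1 a2 k))).resolve_left hne
    have hs : IsSimpleModule ℤ ((Fin k → ℤ) ⧸ M) := isSimpleModule_iff_isCoatom.2 hM
    obtain ⟨I, hI, ⟨eq⟩⟩ := isSimpleModule_iff_quot_maximal.1 hs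
    let _ : Field (ℤ ⧸ I) := Ideal.Quotient.field I
    set φ : (Fin k → ℤ) →ₗ[ℤ] (ℤ ⧸ I) := eq.toLinearMap ∘ₗ M.mkQ with hφ
    have hφ0 : ∀ x : ℕ → ℤ, φ (surjA a0 a1 a2 k x) = 0 := by
      intro x
      have h1 : surjA a0 a1 a2 k x ∈ M := hle ⟨x, rfl⟩
      have h2 : M.mkQ (surjA a0 a1 a2 k x) = 0 := (Submodule.Quotient.mk_eq_zero M).2 h1
      rw [hφ, LinearMap.comp_apply, h2, map_zero]
    set c : Fin k → ℤ ⧸ I := fun i => φ (Pi.single i 1) with hc
    have hφs : ∀ y : Fin k → ℤ, φ y = ∑ i, (y i : ℤ ⧸ I) * c i := by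
      intro y
      conv_lhs => rw [← Finset.univ_sum_single y]
      rw [map_sum]
      refine Finset.sum_congr rfl fun i _ => ?_
      have : (Pi.single i (y i) : Fin k → ℤ) = (y i) • Pi.single i 1 := by
        rw [← Pi.single_smul, smul_eq_mul, mul_one]
      rw [this, map_smul, zsmul_eq_mul]
    set q : (ℤ ⧸ I)[X] := C (a2 : ℤ ⧸ I) + C (a1 : ℤ ⧸ I) * X + C (a0 : ℤ ⧸ I) * X ^ 2 with hq
    set r : (ℤ ⧸ I)[X] := ∑ i : Fin k, C (c i) * X ^ (i : ℕ) with hr
    have hmul : r * q = 0 := by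
      ext j
      have h1 := hφ0 (Pi.single j 1)
      rw [hφs] at h1
      rw [hr, Finset.sum_mul, Polynomial.finsetSum_coeff, Polynomial.coeff_zero, ← h1]
      refine Finset.sum_congr rfl fun i _ => ?_
      have e1 : C (c i) * X ^ (i : ℕ) * q = C (c i * a2) * X ^ (i : ℕ) +
          C (c i * a1) * X ^ ((i : ℕ) + 1) + C (c i * a0) * X ^ ((i : ℕ) + 2) := by
        rw [hq, C_mul, C_mul, C_mul]
        ring
      rw [e1, coeff_add, coeff_add, coeff_C_mul_X_pow, coeff_C_mul_X_pow, coeff_C_mul_X_pow]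
      show _ = ((a2 * (Pi.single j 1 : ℕ → ℤ) i + a1 * (Pi.single j 1 : ℕ → ℤ) (i + 1) +
        a0 * (Pi.single j 1 : ℕ → ℤ) (i + 2) : ℤ) : ℤ ⧸ I) * c i
      simp only [Pi.single_apply, eq_comm (a := j)]
      push_cast
      split_ifs <;> simp <;> ring
    rcases mul_eq_zero.1 hmul with h0 | h0
    · have hc0 : ∀ i, c i = 0 := by
        intro i
        have h1 := congrArg (fun f => coeff f (i : ℕ)) h0
        simp only [hr, Polynomial.finsetSum_coeff, coeff_C_mul_X_pow, coeff_zero] at h1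
        rw [Finset.sum_eq_single i] at h1
        · simpa using h1
        · intro b _ hb
          rw [if_neg]
          intro h2
          exact hb (Fin.ext h2.symm)
        · intro h2
          exact absurd (Finset.mem_univ i) h2
      have hsurj : Function.Surjective φ := by
        rw [hφ]
        exact eq.surjective.comp M.mkQ_surjective
      obtain ⟨y, hy⟩ := hsurj 1
      rw [hφs] at hy
      simp only [hc0, mul_zero, Finset.sum_const_zero] at hy
      exact zero_ne_one hy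
    · have k0 : (a2 : ℤ ⧸ I) = 0 := by
        have h1 := congrArg (fun f => coeff f 0) h0
        simp only [hq, coeff_add, coeff_C_mul, coeff_X, coeff_X_pow, coeff_C, coeff_zero] at h1
        norm_num at h1
        exact h1
      have k1 : (a1 : ℤ ⧸ I) = 0 := by
        have h1 := congrArg (fun f => coeff f 1) h0
        simp only [hq, coeff_add, coeff_C_mul, coeff_X, coeff_X_pow, coeff_C, coeff_zero] at h1
        norm_num at h1
        exact h1
      have k2 : (a0 : ℤ ⧸ I) = 0 := by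
        have h1 := congrArg (fun f => coeff f 2) h0
        simp only [hq, coeff_add, coeff_C_mul, coeff_X, coeff_X_pow, coeff_C, coeff_zero] at h1
        norm_num at h1
        exact h1
      obtain ⟨u, v, w, huvw⟩ := surj_bezout hP.cop
      have h1 := congrArg (fun z : ℤ => (z : ℤ ⧸ I)) huvw
      push_cast at h1
      rw [k0, k1, k2] at h1
      simp at h1
  have := LinearMap.range_eq_top.1 hr (fun i => d i)
  obtain ⟨x, hx⟩ := this
  exact ⟨x, fun i hi => congrFun hx ⟨i, hi⟩⟩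

end Pool.Agent.R499.GB
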